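import Pool.Agent.Helper19_TP3.Clos
import Pool.Agent.Helper99_TP3.Comm3
import Pool.Agent.Helper59_TP3.FF
import Pool.Agent.Helper59_TP3.LN
import Pool.Agent.Helper52_TP.Fin2

/-! MP_ce3ba7_al: assembly of all characteristics (helper19). -/

set_option autoImplicit false

namespace Pool.Agent.TP

theorem char3_of (hCC : C3.CCStmt) : Char3Stmt :=
  RC.char3 H19I.clos hCC (LN.ln57 hCC) FF.ff

theorem all_of (hCC : C3.CCStmt) (h2a : H52.Chain2a) (h2b : H52.Chain2b) (F : Type) [Field F]
    (S : Set (MonoidAlgebra F (FreeMagma ℕ))) (h : AssNil F S) : AllSolv F S :=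
  top (H52.fin2 h2a h2b) (char3_of hCC) F S h

end Pool.Agent.TP
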