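import Pool.Agent.Helper52_TP.Chk3

/-! Certificates, generated (helper19). -/

set_option autoImplicit false
set_option maxRecDepth 100000

namespace Pool.Agent.TP

namespace H19I

open Chk3

def cS0 : Tr := (Tr.node (Tr.node (Tr.node (Tr.node (Tr.I false Q.G (nat_lit 65) (nat_lit 12) (nat_lit 1665) (nat_lit 24) (nat_lit 8) Fs.nil) (Tr.I true Q.G (nat_lit 65) (nat_lit 8) (nat_lit 1665) (nat_lit 24) (nat_lit 12) Fs.nil)) (Tr.node (Tr.I true Q.G (nat_lit 65) (nat_lit 24) (nat_lit 1665) (nat_lit 12) (nat_lit 8) Fs.nil) (Tr.I true Q.G (nat_lit 257) (nat_lit 12) (nat_lit 1665) (nat_lit 24) (nat_lit 4) Fs.nil))) (Tr.node (Tr.node (Tr.I false Q.G (nat_lit 257) (nat_lit 4) (nat_lit 1665) (nat_lit 24) (nat_lit 12) Fs.nil) (Tr.I true Q.jac (nat_lit 0) (nat_lit 8) (nat_lit 1665) (nat_lit 0) (nat_lit 0) (Fs.j (nat_lit 1382995) Fs.nil)))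 (Tr.node (Tr.I false Q.G (nat_lit 273) (nat_lit 12) (nat_lit 1665) (nat_lit 24) (nat_lit 0) Fs.nil) (Tr.I true Q.G (nat_lit 273) (nat_lit 0) (nat_lit 1665) (nat_lit 24) (nat_lit 12) Fs.nil)))) (Tr.node (Tr.node (Tr.node (Tr.I false Q.jac (nat_lit 4) (nat_lit 8) (nat_lit 1665) (nat_lit 0) (nat_lit 0) (Fs.j (nat_lit 1382979) Fs.nil)) (Tr.I false Q.G (nat_lit 577) (nat_lit 8) (nat_lit 1665) (nat_lit 24) (nat_lit 4) Fs.nil)) (Tr.node (Tr.I true Q.G (nat_lit 577) (nat_lit 4) (nat_lit 1665) (nat_lit 24) (nat_lit 8) Fs.nil) (Tr.I false Q.jac (nat_lit 0) (nat_lit 12) (nat_lit 1665) (nat_lit 0) (nat_lit 0) (Fs.j (nat_lit 1364243) Fs.nil)))) (Tr.node (Tr.node (Tr.I true Q.G (nat_lit 593) (nat_lit 8) (nat_lit 1665) (nat_lit 24) (nat_lit 0) Fs.nil) (Tr.I false Q.G (nat_lit 593) (nat_lit 0) (nat_lit 1665) (nat_lit 24) (nat_lit 8) Fs.nil))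 (Tr.node (Tr.I true Q.jac (nat_lit 4) (nat_lit 12) (nat_lit 1665) (nat_lit 0) (nat_lit 0) (Fs.j (nat_lit 1364227) Fs.nil)) (Tr.I false Q.G (nat_lit 609) (nat_lit 4) (nat_lit 1665) (nat_lit 24) (nat_lit 0) Fs.nil)))))
def cS1 : Tr := (Tr.node (Tr.node (Tr.node (Tr.node (Tr.I true Q.G (nat_lit 609) (nat_lit 0) (nat_lit 1665) (nat_lit 24) (nat_lit 4) Fs.nil) (Tr.I false Q.G (nat_lit 609) (nat_lit 24) (nat_lit 1665) (nat_lit 0) (nat_lit 4) Fs.nil)) (Tr.node (Tr.I true Q.adj (nat_lit 1665) (nat_lit 71808711) (nat_lit 24) (nat_lit 0) (nat_lit 0) Fs.nil) (Tr.I true Q.G (nat_lit 65) (nat_lit 1665) (nat_lit 12) (nat_lit 24) (nat_lit 8) Fs.nil))) (Tr.node (Tr.node (Tr.I true Q.G (nat_lit 1665) (nat_lit 8) (nat_lit 12) (nat_lit 24) (nat_lit 65) Fs.nil) (Tr.I false Q.G (nat_lit 2353) (nat_lit 16) (nat_lit 8) (nat_lit 20) (nat_lit 65)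 Fs.nil)) (Tr.node (Tr.I true Q.F (nat_lit 0) (nat_lit 4) (nat_lit 8) (nat_lit 16) (nat_lit 0) (Fs.j (nat_lit 22146517) Fs.nil)) (Tr.I true Q.G (nat_lit 2337) (nat_lit 16) (nat_lit 12) (nat_lit 20) (nat_lit 65) Fs.nil)))) (Tr.node (Tr.node (Tr.node (Tr.I false Q.F (nat_lit 0) (nat_lit 4) (nat_lit 12) (nat_lit 16) (nat_lit 0) (Fs.j (nat_lit 21846357) Fs.nil)) (Tr.I true Q.G (nat_lit 2353) (nat_lit 20) (nat_lit 8) (nat_lit 16) (nat_lit 65) Fs.nil)) (Tr.node (Tr.I false Q.F (nat_lit 0) (nat_lit 4) (nat_lit 8) (nat_lit 20) (nat_lit 0) (Fs.j (nat_lit 22146501) Fs.nil)) (Tr.I false Q.G (nat_lit 2337) (nat_lit 20) (nat_lit 12) (nat_lit 16) (nat_lit 65) Fs.nil))) (Tr.node (Tr.node (Tr.I true Q.F (nat_lit 0) (nat_lit 4) (nat_lit 12) (nat_lit 20) (nat_lit 0) (Fs.j (nat_lit 21846341) Fs.nil)) (Tr.I true Q.adj (nat_lit 609) (nat_lit 72080167)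 (nat_lit 24) (nat_lit 0) (nat_lit 0) Fs.nil)) (Tr.node (Tr.I false Q.jac (nat_lit 8) (nat_lit 12) (nat_lit 24) (nat_lit 0) (nat_lit 0) (Fs.j (nat_lit 72080167) Fs.nil)) (Tr.I true Q.F (nat_lit 0) (nat_lit 4) (nat_lit 16) (nat_lit 20) (nat_lit 0) (Fs.j (nat_lit 1483621) Fs.nil))))))
def cS2 : Tr := (Tr.node (Tr.node (Tr.node (Tr.node (Tr.I false Q.tdj (nat_lit 65) (nat_lit 692275) (nat_lit 8) (nat_lit 24) (nat_lit 0) Fs.nil) (Tr.I false Q.adt (nat_lit 4) (nat_lit 8) (nat_lit 24) (nat_lit 0) (nat_lit 0) (Fs.j (nat_lit 692275) Fs.nil))) (Tr.node (Tr.I true Q.jac (nat_lit 12) (nat_lit 16) (nat_lit 20) (nat_lit 0) (nat_lit 0) (Fs.j (nat_lit 72216039) Fs.nil)) (Tr.I true Q.adt (nat_lit 4) (nat_lit 8) (nat_lit 24) (nat_lit 0) (nat_lit 0) (Fs.j (nat_lit 4605397) Fs.nil)))) (Tr.node (Tr.node (Tr.I false Q.adt (nat_lit 4) (nat_lit 8)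 (nat_lit 24) (nat_lit 0) (nat_lit 0) (Fs.j (nat_lit 10876869) Fs.nil)) (Tr.I true Q.tdj (nat_lit 65) (nat_lit 692259) (nat_lit 12) (nat_lit 24) (nat_lit 0) Fs.nil)) (Tr.node (Tr.I true Q.adt (nat_lit 4) (nat_lit 12) (nat_lit 24) (nat_lit 0) (nat_lit 0) (Fs.j (nat_lit 692259) Fs.nil)) (Tr.I false Q.jac (nat_lit 8) (nat_lit 16) (nat_lit 20) (nat_lit 0) (nat_lit 0) (Fs.j (nat_lit 72216055) Fs.nil))))) (Tr.node (Tr.node (Tr.node (Tr.I false Q.adt (nat_lit 4) (nat_lit 12) (nat_lit 24) (nat_lit 0) (nat_lit 0) (Fs.j (nat_lit 4469077) Fs.nil)) (Tr.I true Q.adt (nat_lit 4) (nat_lit 12) (nat_lit 24) (nat_lit 0) (nat_lit 0) (Fs.j (nat_lit 10666821) Fs.nil))) (Tr.node (Tr.I true Q.G (nat_lit 18499) (nat_lit 20) (nat_lit 12) (nat_lit 16) (nat_lit 24) Fs.nil) (Tr.I false Q.G (nat_lit 18499) (nat_lit 16) (nat_lit 12) (nat_lit 20) (nat_lit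 24) Fs.nil))) (Tr.node (Tr.node (Tr.I true Q.K (nat_lit 4) (nat_lit 8) (nat_lit 0) (nat_lit 12) (nat_lit 0) (Fs.j (nat_lit 1420931) Fs.nil)) (Tr.I true Q.G (nat_lit 18499) (nat_lit 12) (nat_lit 16) (nat_lit 24) (nat_lit 20) Fs.nil)) (Tr.node (Tr.I true Q.K (nat_lit 4) (nat_lit 8) (nat_lit 0) (nat_lit 16) (nat_lit 0) (Fs.j (nat_lit 1420915) Fs.nil)) (Tr.I false Q.G (nat_lit 18499) (nat_lit 12) (nat_lit 20) (nat_lit 24) (nat_lit 16) Fs.nil)))))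
def cS3 : Tr := (Tr.node (Tr.node (Tr.node (Tr.node (Tr.I false Q.K (nat_lit 4) (nat_lit 8) (nat_lit 0) (nat_lit 20) (nat_lit 0) (Fs.j (nat_lit 1401907) Fs.nil)) (Tr.I false Q.K (nat_lit 4) (nat_lit 8) (nat_lit 0) (nat_lit 24) (nat_lit 0) (Fs.j (nat_lit 692275) Fs.nil))) (Tr.node (Tr.I false Q.jac (nat_lit 12) (nat_lit 16) (nat_lit 20) (nat_lit 0) (nat_lit 0) (Fs.j (nat_lit 1368852101) Fs.nil)) (Tr.I false Q.K (nat_lit 4) (nat_lit 8) (nat_lit 0) (nat_lit 24) (nat_lit 0) (Fs.j (nat_lit 4605397) Fs.nil)))) (Tr.node (Tr.node (Tr.I true Q.K (nat_lit 4) (nat_lit 8) (nat_lit 0) (nat_lit 24) (nat_lit 0) (Fs.j (nat_lit 10876869) Fs.nil)) (Tr.I false Q.adj (nat_lit 18499) (nat_lit 11088949) (nat_lit 24) (nat_lit 0) (nat_lit 0) Fs.nil)) (Tr.node (Tr.I true Q.G (nat_lit 2353) (nat_lit 16) (nat_lit 4) (nat_lit 20) (nat_lit 257) Fs.nil)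 (Tr.I false Q.F (nat_lit 0) (nat_lit 8) (nat_lit 16) (nat_lit 4) (nat_lit 0) (Fs.j (nat_lit 22146517) Fs.nil))))) (Tr.node (Tr.node (Tr.node (Tr.I false Q.G (nat_lit 2321) (nat_lit 16) (nat_lit 12) (nat_lit 20) (nat_lit 257) Fs.nil) (Tr.I true Q.F (nat_lit 0) (nat_lit 8) (nat_lit 12) (nat_lit 16) (nat_lit 0) (Fs.j (nat_lit 21548245) Fs.nil))) (Tr.node (Tr.I false Q.G (nat_lit 2353) (nat_lit 20) (nat_lit 4) (nat_lit 16) (nat_lit 257) Fs.nil) (Tr.I true Q.F (nat_lit 0) (nat_lit 8) (nat_lit 20) (nat_lit 4) (nat_lit 0) (Fs.j (nat_lit 22146501) Fs.nil)))) (Tr.node (Tr.node (Tr.I true Q.G (nat_lit 2321) (nat_lit 20) (nat_lit 12) (nat_lit 16) (nat_lit 257) Fs.nil) (Tr.I false Q.F (nat_lit 0) (nat_lit 8) (nat_lit 12) (nat_lit 20) (nat_lit 0) (Fs.j (nat_lit 21548229) Fs.nil))) (Tr.node (Tr.I false Q.adj (nat_lit 593) (nat_lit 17460451111)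 (nat_lit 24) (nat_lit 0) (nat_lit 0) Fs.nil) (Tr.I true Q.jac (nat_lit 4) (nat_lit 12) (nat_lit 24) (nat_lit 0) (nat_lit 0) (Fs.j (nat_lit 17460451111) Fs.nil))))))
def cS4 : Tr := (Tr.node (Tr.node (Tr.node (Tr.node (Tr.I false Q.F (nat_lit 0) (nat_lit 8) (nat_lit 16) (nat_lit 20) (nat_lit 0) (Fs.j (nat_lit 1406693) Fs.nil)) (Tr.I true Q.tdj (nat_lit 257) (nat_lit 692275) (nat_lit 4) (nat_lit 24) (nat_lit 0) Fs.nil)) (Tr.node (Tr.I false Q.jac (nat_lit 12) (nat_lit 16) (nat_lit 20) (nat_lit 0) (nat_lit 0) (Fs.j (nat_lit 17462565335) Fs.nil)) (Tr.I false Q.tdj (nat_lit 257) (nat_lit 692243) (nat_lit 12) (nat_lit 24) (nat_lit 0) Fs.nil))) (Tr.node (Tr.node (Tr.I false Q.adt (nat_lit 8) (nat_lit 12) (nat_lit 24) (nat_lit 0) (nat_lit 0) (Fs.j (nat_lit 692243) Fs.nil)) (Tr.I true Q.jac (nat_lit 4) (nat_lit 16) (nat_lit 20) (nat_lit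 0) (nat_lit 0) (Fs.j (nat_lit 17462565367) Fs.nil))) (Tr.node (Tr.I true Q.adt (nat_lit 8) (nat_lit 12) (nat_lit 24) (nat_lit 0) (nat_lit 0) (Fs.j (nat_lit 4334805) Fs.nil)) (Tr.I false Q.adt (nat_lit 8) (nat_lit 12) (nat_lit 24) (nat_lit 0) (nat_lit 0) (Fs.j (nat_lit 10458821) Fs.nil))))) (Tr.node (Tr.node (Tr.node (Tr.I true Q.K (nat_lit 0) (nat_lit 12) (nat_lit 4) (nat_lit 8) (nat_lit 0) (Fs.j (nat_lit 1420931) Fs.nil)) (Tr.I true Q.K (nat_lit 0) (nat_lit 16) (nat_lit 4) (nat_lit 8) (nat_lit 0) (Fs.j (nat_lit 1420915) Fs.nil))) (Tr.node (Tr.I false Q.G (nat_lit 2353) (nat_lit 16) (nat_lit 0) (nat_lit 20) (nat_lit 273) Fs.nil) (Tr.I true Q.G (nat_lit 2305) (nat_lit 16) (nat_lit 12) (nat_lit 20) (nat_lit 273) Fs.nil))) (Tr.node (Tr.node (Tr.I false Q.F (nat_lit 4) (nat_lit 8) (nat_lit 12) (nat_lit 16) (nat_lit 0) (Fs.j (nat_lit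 21252181) Fs.nil)) (Tr.I false Q.K (nat_lit 0) (nat_lit 20) (nat_lit 4) (nat_lit 8) (nat_lit 0) (Fs.j (nat_lit 1401907) Fs.nil))) (Tr.node (Tr.I true Q.G (nat_lit 2353) (nat_lit 20) (nat_lit 0) (nat_lit 16) (nat_lit 273) Fs.nil) (Tr.I false Q.G (nat_lit 2305) (nat_lit 20) (nat_lit 12) (nat_lit 16) (nat_lit 273) Fs.nil)))))
def cS5 : Tr := (Tr.node (Tr.node (Tr.node (Tr.node (Tr.I true Q.F (nat_lit 4) (nat_lit 8) (nat_lit 12) (nat_lit 20) (nat_lit 0) (Fs.j (nat_lit 21252165) Fs.nil)) (Tr.I true Q.adj (nat_lit 577) (nat_lit 22230213671) (nat_lit 24) (nat_lit 0) (nat_lit 0) Fs.nil)) (Tr.node (Tr.I false Q.jac (nat_lit 0) (nat_lit 12) (nat_lit 24) (nat_lit 0) (nat_lit 0) (Fs.j (nat_lit 22230213671) Fs.nil)) (Tr.I true Q.F (nat_lit 4) (nat_lit 8) (nat_lit 16) (nat_lit 20) (nat_lit 0) (Fs.j (nat_lit 1331813) Fs.nil)))) (Tr.node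 (Tr.node (Tr.I false Q.tdj (nat_lit 273) (nat_lit 692275) (nat_lit 0) (nat_lit 24) (nat_lit 0) Fs.nil) (Tr.I true Q.K (nat_lit 0) (nat_lit 24) (nat_lit 4) (nat_lit 8) (nat_lit 0) (Fs.j (nat_lit 692275) Fs.nil))) (Tr.node (Tr.I true Q.jac (nat_lit 12) (nat_lit 16) (nat_lit 20) (nat_lit 0) (nat_lit 0) (Fs.j (nat_lit 22232599239) Fs.nil)) (Tr.I true Q.tdj (nat_lit 273) (nat_lit 692227) (nat_lit 12) (nat_lit 24) (nat_lit 0) Fs.nil)))) (Tr.node (Tr.node (Tr.node (Tr.I true Q.adt (nat_lit 8) (nat_lit 12) (nat_lit 24) (nat_lit 4) (nat_lit 0) (Fs.j (nat_lit 692227) Fs.nil)) (Tr.I false Q.jac (nat_lit 0) (nat_lit 16) (nat_lit 20) (nat_lit 0) (nat_lit 0) (Fs.j (nat_lit 22232599287) Fs.nil))) (Tr.node (Tr.I false Q.adt (nat_lit 8) (nat_lit 12) (nat_lit 24) (nat_lit 4) (nat_lit 0) (Fs.j (nat_lit 4202581) Fs.nil)) (Tr.I true Q.adt (nat_lit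 8) (nat_lit 12) (nat_lit 24) (nat_lit 4) (nat_lit 0) (Fs.j (nat_lit 10252869) Fs.nil)))) (Tr.node (Tr.node (Tr.I false Q.G (nat_lit 87619) (nat_lit 20) (nat_lit 8) (nat_lit 16) (nat_lit 24) Fs.nil) (Tr.I true Q.G (nat_lit 87619) (nat_lit 16) (nat_lit 8) (nat_lit 20) (nat_lit 24) Fs.nil)) (Tr.node (Tr.I false Q.G (nat_lit 87619) (nat_lit 8) (nat_lit 16) (nat_lit 24) (nat_lit 20) Fs.nil) (Tr.I false Q.K (nat_lit 4) (nat_lit 12) (nat_lit 0) (nat_lit 16) (nat_lit 0) (Fs.j (nat_lit 1420899) Fs.nil))))))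
def cS6 : Tr := (Tr.node (Tr.node (Tr.node (Tr.node (Tr.I true Q.G (nat_lit 87619) (nat_lit 8) (nat_lit 20) (nat_lit 24) (nat_lit 16) Fs.nil) (Tr.I true Q.K (nat_lit 4) (nat_lit 12) (nat_lit 0) (nat_lit 20) (nat_lit 0) (Fs.j (nat_lit 1401891) Fs.nil))) (Tr.node (Tr.I true Q.K (nat_lit 4) (nat_lit 12) (nat_lit 0) (nat_lit 24) (nat_lit 0) (Fs.j (nat_lit 692259) Fs.nil)) (Tr.I true Q.jac (nat_lit 8) (nat_lit 16) (nat_lit 20) (nat_lit 0) (nat_lit 0) (Fs.j (nat_lit 30708356741) Fs.nil)))) (Tr.node (Tr.node (Tr.I true Q.K (nat_lit 4) (nat_lit 12) (nat_lit 0) (nat_lit 24) (nat_lit 0) (Fs.j (nat_lit 4469077) Fs.nil)) (Tr.I false Q.K (nat_lit 4) (nat_lit 12) (nat_lit 0) (nat_lit 24) (nat_lit 0) (Fs.j (nat_lit 10666821) Fs.nil))) (Tr.node (Tr.I true Q.adj (nat_lit 87619) (nat_lit 11088933) (nat_lit 24) (nat_lit 0) (nat_lit 0) Fs.nil)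 (Tr.I true Q.G (nat_lit 92419) (nat_lit 20) (nat_lit 4) (nat_lit 16) (nat_lit 24) Fs.nil)))) (Tr.node (Tr.node (Tr.node (Tr.I false Q.G (nat_lit 92419) (nat_lit 16) (nat_lit 4) (nat_lit 20) (nat_lit 24) Fs.nil) (Tr.I true Q.G (nat_lit 92419) (nat_lit 4) (nat_lit 16) (nat_lit 24) (nat_lit 20) Fs.nil)) (Tr.node (Tr.I true Q.K (nat_lit 8) (nat_lit 12) (nat_lit 0) (nat_lit 16) (nat_lit 0) (Fs.j (nat_lit 1420883) Fs.nil)) (Tr.I false Q.G (nat_lit 92419) (nat_lit 4) (nat_lit 20) (nat_lit 24) (nat_lit 16) Fs.nil))) (Tr.node (Tr.node (Tr.I false Q.K (nat_lit 8) (nat_lit 12) (nat_lit 0) (nat_lit 20) (nat_lit 0) (Fs.j (nat_lit 1401875) Fs.nil)) (Tr.I false Q.K (nat_lit 8) (nat_lit 12) (nat_lit 0) (nat_lit 24) (nat_lit 0) (Fs.j (nat_lit 692243) Fs.nil))) (Tr.node (Tr.I false Q.jac (nat_lit 4) (nat_lit 16) (nat_lit 20) (nat_lit 0) (nat_lit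 0) (Fs.j (nat_lit 34165086341) Fs.nil)) (Tr.I false Q.K (nat_lit 8) (nat_lit 12) (nat_lit 0) (nat_lit 24) (nat_lit 0) (Fs.j (nat_lit 4334805) Fs.nil))))))
def cS7 : Tr := (Tr.node (Tr.node (Tr.node (Tr.node (Tr.I true Q.K (nat_lit 8) (nat_lit 12) (nat_lit 0) (nat_lit 24) (nat_lit 0) (Fs.j (nat_lit 10458821) Fs.nil)) (Tr.I false Q.adj (nat_lit 92419) (nat_lit 11088917) (nat_lit 24) (nat_lit 0) (nat_lit 0) Fs.nil)) (Tr.node (Tr.I false Q.G (nat_lit 92435) (nat_lit 20) (nat_lit 0) (nat_lit 16) (nat_lit 24) Fs.nil) (Tr.I true Q.G (nat_lit 92435) (nat_lit 16) (nat_lit 0) (nat_lit 20) (nat_lit 24) Fs.nil))) (Tr.node (Tr.node (Tr.I false Q.G (nat_lit 92435) (nat_lit 0) (nat_lit 16) (nat_lit 24) (nat_lit 20) Fs.nil) (Tr.I false Q.K (nat_lit 8) (nat_lit 12) (nat_lit 4) (nat_lit 16) (nat_lit 0) (Fs.j (nat_lit 1420867) Fs.nil))) (Tr.node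 (Tr.I true Q.G (nat_lit 92435) (nat_lit 0) (nat_lit 20) (nat_lit 24) (nat_lit 16) Fs.nil) (Tr.I true Q.K (nat_lit 8) (nat_lit 12) (nat_lit 4) (nat_lit 20) (nat_lit 0) (Fs.j (nat_lit 1401859) Fs.nil))))) (Tr.node (Tr.node (Tr.node (Tr.I true Q.K (nat_lit 8) (nat_lit 12) (nat_lit 4) (nat_lit 24) (nat_lit 0) (Fs.j (nat_lit 692227) Fs.nil)) (Tr.I true Q.jac (nat_lit 0) (nat_lit 16) (nat_lit 20) (nat_lit 0) (nat_lit 0) (Fs.j (nat_lit 34176916997) Fs.nil))) (Tr.node (Tr.I true Q.K (nat_lit 8) (nat_lit 12) (nat_lit 4) (nat_lit 24) (nat_lit 0) (Fs.j (nat_lit 4202581) Fs.nil)) (Tr.I false Q.K (nat_lit 8) (nat_lit 12) (nat_lit 4) (nat_lit 24) (nat_lit 0) (Fs.j (nat_lit 10252869) Fs.nil)))) (Tr.node (Tr.node (Tr.I true Q.adj (nat_lit 92435) (nat_lit 11088901) (nat_lit 24) (nat_lit 0) (nat_lit 0) Fs.nil) (Tr.I true Q.G (nat_lit 270403)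 (nat_lit 12) (nat_lit 8) (nat_lit 20) (nat_lit 24) Fs.nil)) (Tr.node (Tr.I true Q.G (nat_lit 270403) (nat_lit 20) (nat_lit 8) (nat_lit 24) (nat_lit 12) Fs.nil) (Tr.I false Q.G (nat_lit 270403) (nat_lit 8) (nat_lit 12) (nat_lit 20) (nat_lit 24) Fs.nil)))))
def cS8 : Tr := (Tr.node (Tr.node (Tr.node (Tr.node (Tr.I false Q.G (nat_lit 270403) (nat_lit 20) (nat_lit 12) (nat_lit 24) (nat_lit 8) Fs.nil) (Tr.I false Q.K (nat_lit 0) (nat_lit 16) (nat_lit 4) (nat_lit 12) (nat_lit 0) (Fs.j (nat_lit 1420899) Fs.nil))) (Tr.node (Tr.I true Q.K (nat_lit 4) (nat_lit 16) (nat_lit 0) (nat_lit 20) (nat_lit 0) (Fs.j (nat_lit 1383011) Fs.nil)) (Tr.I false Q.K (nat_lit 4) (nat_lit 16) (nat_lit 0) (nat_lit 24) (nat_lit 0) (Fs.j (nat_lit 679011) Fs.nil)))) (Tr.node (Tr.node (Tr.I true Q.jac (nat_lit 270403) (nat_lit 8) (nat_lit 12) (nat_lit 0) (nat_lit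 0) (Fs.j (nat_lit 2385) Fs.nil)) (Tr.I false Q.K (nat_lit 4) (nat_lit 16) (nat_lit 0) (nat_lit 609) (nat_lit 0) (Fs.j (nat_lit 2385) Fs.nil))) (Tr.node (Tr.I false Q.G (nat_lit 278787) (nat_lit 12) (nat_lit 4) (nat_lit 20) (nat_lit 24) Fs.nil) (Tr.I false Q.G (nat_lit 278787) (nat_lit 20) (nat_lit 4) (nat_lit 24) (nat_lit 12) Fs.nil)))) (Tr.node (Tr.node (Tr.node (Tr.I true Q.G (nat_lit 278787) (nat_lit 4) (nat_lit 12) (nat_lit 20) (nat_lit 24) Fs.nil) (Tr.I true Q.G (nat_lit 278787) (nat_lit 20) (nat_lit 12) (nat_lit 24) (nat_lit 4) Fs.nil)) (Tr.node (Tr.I true Q.K (nat_lit 0) (nat_lit 16) (nat_lit 8) (nat_lit 12) (nat_lit 0) (Fs.j (nat_lit 1420883) Fs.nil)) (Tr.I false Q.K (nat_lit 8) (nat_lit 16) (nat_lit 0) (nat_lit 20) (nat_lit 0) (Fs.j (nat_lit 1382995) Fs.nil)))) (Tr.node (Tr.node (Tr.I true Q.K (nat_lit 8) (nat_lit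 16) (nat_lit 0) (nat_lit 24) (nat_lit 0) (Fs.j (nat_lit 678995) Fs.nil)) (Tr.I true Q.K (nat_lit 8) (nat_lit 16) (nat_lit 0) (nat_lit 593) (nat_lit 0) (Fs.j (nat_lit 2385) Fs.nil))) (Tr.node (Tr.I false Q.jac (nat_lit 278787) (nat_lit 4) (nat_lit 12) (nat_lit 0) (nat_lit 0) (Fs.j (nat_lit 2385) Fs.nil)) (Tr.I true Q.G (nat_lit 278803) (nat_lit 12) (nat_lit 0) (nat_lit 20) (nat_lit 24) Fs.nil)))))
def cS9 : Tr := (Tr.node (Tr.node (Tr.node (Tr.node (Tr.I true Q.G (nat_lit 278803) (nat_lit 20) (nat_lit 0) (nat_lit 24) (nat_lit 12) Fs.nil) (Tr.I false Q.G (nat_lit 278803) (nat_lit 0) (nat_lit 12) (nat_lit 20) (nat_lit 24) Fs.nil)) (Tr.node (Tr.I false Q.G (nat_lit 278803) (nat_lit 20) (nat_lit 12) (nat_lit 24) (nat_lit 0) Fs.nil) (Tr.I false Q.K (nat_lit 4) (nat_lit 16) (nat_lit 8) (nat_lit 12) (nat_lit 0) (Fs.j (nat_lit 1420867)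 Fs.nil)))) (Tr.node (Tr.node (Tr.I true Q.K (nat_lit 8) (nat_lit 16) (nat_lit 4) (nat_lit 20) (nat_lit 0) (Fs.j (nat_lit 1382979) Fs.nil)) (Tr.I false Q.K (nat_lit 8) (nat_lit 16) (nat_lit 4) (nat_lit 24) (nat_lit 0) (Fs.j (nat_lit 678979) Fs.nil))) (Tr.node (Tr.I true Q.G (nat_lit 287299) (nat_lit 8) (nat_lit 4) (nat_lit 20) (nat_lit 24) Fs.nil) (Tr.I true Q.G (nat_lit 287299) (nat_lit 20) (nat_lit 4) (nat_lit 24) (nat_lit 8) Fs.nil)))) (Tr.node (Tr.node (Tr.node (Tr.I false Q.G (nat_lit 287299) (nat_lit 4) (nat_lit 8) (nat_lit 20) (nat_lit 24) Fs.nil) (Tr.I false Q.G (nat_lit 287299) (nat_lit 20) (nat_lit 8) (nat_lit 24) (nat_lit 4) Fs.nil)) (Tr.node (Tr.I true Q.K (nat_lit 12) (nat_lit 16) (nat_lit 0) (nat_lit 20) (nat_lit 0) (Fs.j (nat_lit 1364243) Fs.nil)) (Tr.I false Q.K (nat_lit 12) (nat_lit 16) (nat_lit 0) (nat_lit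 24) (nat_lit 0) (Fs.j (nat_lit 665875) Fs.nil)))) (Tr.node (Tr.node (Tr.I false Q.jac (nat_lit 287299) (nat_lit 4) (nat_lit 8) (nat_lit 0) (nat_lit 0) (Fs.j (nat_lit 2385) Fs.nil)) (Tr.I true Q.K (nat_lit 12) (nat_lit 16) (nat_lit 0) (nat_lit 273) (nat_lit 0) (Fs.j (nat_lit 2385) Fs.nil))) (Tr.node (Tr.I false Q.G (nat_lit 287315) (nat_lit 8) (nat_lit 0) (nat_lit 20) (nat_lit 24) Fs.nil) (Tr.I false Q.G (nat_lit 287315) (nat_lit 20) (nat_lit 0) (nat_lit 24) (nat_lit 8) Fs.nil)))))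
def cS10 : Tr := (Tr.node (Tr.node (Tr.node (Tr.node (Tr.I true Q.G (nat_lit 287315) (nat_lit 0) (nat_lit 8) (nat_lit 20) (nat_lit 24) Fs.nil) (Tr.I true Q.G (nat_lit 287315) (nat_lit 20) (nat_lit 8) (nat_lit 24) (nat_lit 0) Fs.nil)) (Tr.node (Tr.I false Q.K (nat_lit 12) (nat_lit 16) (nat_lit 4) (nat_lit 20) (nat_lit 0) (Fs.j (nat_lit 1364227) Fs.nil)) (Tr.I true Q.K (nat_lit 12) (nat_lit 16) (nat_lit 4) (nat_lit 24) (nat_lit 0) (Fs.j (nat_lit 665859) Fs.nil)))) (Tr.node (Tr.node (Tr.I true Q.G (nat_lit 287331) (nat_lit 4) (nat_lit 0) (nat_lit 20) (nat_lit 24) Fs.nil) (Tr.I true Q.G (nat_lit 287331) (nat_lit 20) (nat_lit 0) (nat_lit 24) (nat_lit 4) Fs.nil)) (Tr.node (Tr.I false Q.G (nat_lit 287331) (nat_lit 0) (nat_lit 4) (nat_lit 20) (nat_lit 24) Fs.nil) (Tr.I false Q.G (nat_lit 287331) (nat_lit 20) (nat_lit 4) (nat_lit 24)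 (nat_lit 0) Fs.nil)))) (Tr.node (Tr.node (Tr.node (Tr.I true Q.K (nat_lit 12) (nat_lit 16) (nat_lit 8) (nat_lit 20) (nat_lit 0) (Fs.j (nat_lit 1345603) Fs.nil)) (Tr.I false Q.K (nat_lit 12) (nat_lit 16) (nat_lit 8) (nat_lit 24) (nat_lit 0) (Fs.j (nat_lit 652867) Fs.nil))) (Tr.node (Tr.I false Q.G (nat_lit 2337) (nat_lit 16) (nat_lit 4) (nat_lit 20) (nat_lit 577) Fs.nil) (Tr.I true Q.F (nat_lit 0) (nat_lit 12) (nat_lit 16) (nat_lit 4) (nat_lit 0) (Fs.j (nat_lit 21846357) Fs.nil)))) (Tr.node (Tr.node (Tr.I true Q.G (nat_lit 2321) (nat_lit 16) (nat_lit 8) (nat_lit 20) (nat_lit 577) Fs.nil) (Tr.I false Q.F (nat_lit 0) (nat_lit 12) (nat_lit 16) (nat_lit 8) (nat_lit 0) (Fs.j (nat_lit 21548245) Fs.nil))) (Tr.node (Tr.I true Q.G (nat_lit 2337) (nat_lit 20) (nat_lit 4) (nat_lit 16) (nat_lit 577) Fs.nil) (Tr.I false Q.F (nat_lit 0)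 (nat_lit 12) (nat_lit 20) (nat_lit 4) (nat_lit 0) (Fs.j (nat_lit 21846341) Fs.nil))))))
def cS11 : Tr := (Tr.node (Tr.node (Tr.node (Tr.node (Tr.I false Q.G (nat_lit 2321) (nat_lit 20) (nat_lit 8) (nat_lit 16) (nat_lit 577) Fs.nil) (Tr.I true Q.F (nat_lit 0) (nat_lit 12) (nat_lit 20) (nat_lit 8) (nat_lit 0) (Fs.j (nat_lit 21548229) Fs.nil))) (Tr.node (Tr.I true Q.adj (nat_lit 273) (nat_lit 443420146471) (nat_lit 24) (nat_lit 0) (nat_lit 0) Fs.nil) (Tr.I false Q.jac (nat_lit 4) (nat_lit 8) (nat_lit 24) (nat_lit 0) (nat_lit 0) (Fs.j (nat_lit 443420146471) Fs.nil)))) (Tr.node (Tr.node (Tr.I true Q.F (nat_lit 0) (nat_lit 12) (nat_lit 16) (nat_lit 20) (nat_lit 0) (Fs.j (nat_lit 298213) Fs.nil)) (Tr.I false Q.tdj (nat_lit 577) (nat_lit 692259) (nat_lit 4) (nat_lit 24) (nat_lit 0) Fs.nil)) (Tr.node (Tr.I true Q.jac (nat_lit 8) (nat_lit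 16) (nat_lit 20) (nat_lit 0) (nat_lit 0) (Fs.j (nat_lit 443430800855) Fs.nil)) (Tr.I true Q.tdj (nat_lit 577) (nat_lit 692243) (nat_lit 8) (nat_lit 24) (nat_lit 0) Fs.nil)))) (Tr.node (Tr.node (Tr.node (Tr.I false Q.jac (nat_lit 4) (nat_lit 16) (nat_lit 20) (nat_lit 0) (nat_lit 0) (Fs.j (nat_lit 443430800871) Fs.nil)) (Tr.I true Q.adt (nat_lit 0) (nat_lit 273) (nat_lit 16) (nat_lit 12) (nat_lit 0) (Fs.j (nat_lit 2385) Fs.nil))) (Tr.node (Tr.I true Q.R (nat_lit 0) (nat_lit 12) (nat_lit 4) (nat_lit 16) (nat_lit 8) (Fs.j (nat_lit 2385) Fs.nil)) (Tr.I false Q.adt (nat_lit 273) (nat_lit 12) (nat_lit 16) (nat_lit 0) (nat_lit 0) (Fs.j (nat_lit 2385) Fs.nil)))) (Tr.node (Tr.node (Tr.I true Q.adt (nat_lit 577) (nat_lit 8) (nat_lit 16) (nat_lit 4) (nat_lit 0) (Fs.j (nat_lit 2385) Fs.nil)) (Tr.I false Q.adt (nat_lit 0) (nat_lit 273)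 (nat_lit 20) (nat_lit 12) (nat_lit 0) (Fs.j (nat_lit 2369) Fs.nil))) (Tr.node (Tr.I true Q.adt (nat_lit 273) (nat_lit 12) (nat_lit 20) (nat_lit 0) (nat_lit 0) (Fs.j (nat_lit 2369) Fs.nil)) (Tr.I false Q.adt (nat_lit 577) (nat_lit 4) (nat_lit 20) (nat_lit 8) (nat_lit 0) (Fs.j (nat_lit 2369) Fs.nil))))))
def cS12 : Tr := (Tr.node (Tr.node (Tr.node (Tr.node (Tr.I false Q.adt (nat_lit 577) (nat_lit 8) (nat_lit 20) (nat_lit 4) (nat_lit 0) (Fs.j (nat_lit 2369) Fs.nil)) (Tr.I false Q.adt (nat_lit 577) (nat_lit 4) (nat_lit 24) (nat_lit 8) (nat_lit 0) (Fs.j (nat_lit 1665) Fs.nil))) (Tr.node (Tr.I true Q.F (nat_lit 577) (nat_lit 4) (nat_lit 24) (nat_lit 8) (nat_lit 0) (Fs.j (nat_lit 1665) Fs.nil)) (Tr.I true Q.adt (nat_lit 0) (nat_lit 273) (nat_lit 24) (nat_lit 12) (nat_lit 0) (Fs.j (nat_lit 1665) Fs.nil)))) (Tr.node (Tr.node (Tr.I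 true Q.F (nat_lit 0) (nat_lit 273) (nat_lit 12) (nat_lit 24) (nat_lit 0) (Fs.j (nat_lit 1665) Fs.nil)) (Tr.I true Q.G (nat_lit 2337) (nat_lit 16) (nat_lit 0) (nat_lit 20) (nat_lit 593) Fs.nil)) (Tr.node (Tr.I false Q.G (nat_lit 2305) (nat_lit 16) (nat_lit 8) (nat_lit 20) (nat_lit 593) Fs.nil) (Tr.I true Q.F (nat_lit 4) (nat_lit 12) (nat_lit 16) (nat_lit 8) (nat_lit 0) (Fs.j (nat_lit 21252181) Fs.nil))))) (Tr.node (Tr.node (Tr.node (Tr.I true Q.K (nat_lit 0) (nat_lit 20) (nat_lit 4) (nat_lit 12) (nat_lit 0) (Fs.j (nat_lit 1401891) Fs.nil)) (Tr.I false Q.G (nat_lit 2337) (nat_lit 20) (nat_lit 0) (nat_lit 16) (nat_lit 593) Fs.nil)) (Tr.node (Tr.I true Q.G (nat_lit 2305) (nat_lit 20) (nat_lit 8) (nat_lit 16) (nat_lit 593) Fs.nil) (Tr.I false Q.F (nat_lit 4) (nat_lit 12) (nat_lit 20) (nat_lit 8) (nat_lit 0) (Fs.j (nat_lit 21252165)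 Fs.nil)))) (Tr.node (Tr.node (Tr.I false Q.adj (nat_lit 257) (nat_lit 494684342311) (nat_lit 24) (nat_lit 0) (nat_lit 0) Fs.nil) (Tr.I true Q.jac (nat_lit 0) (nat_lit 8) (nat_lit 24) (nat_lit 0) (nat_lit 0) (Fs.j (nat_lit 494684342311) Fs.nil))) (Tr.node (Tr.I false Q.F (nat_lit 4) (nat_lit 12) (nat_lit 16) (nat_lit 20) (nat_lit 0) (Fs.j (nat_lit 264293) Fs.nil)) (Tr.I true Q.tdj (nat_lit 593) (nat_lit 692259) (nat_lit 0) (nat_lit 24) (nat_lit 0) Fs.nil)))))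
def cS13 : Tr := (Tr.node (Tr.node (Tr.node (Tr.node (Tr.I false Q.K (nat_lit 0) (nat_lit 24) (nat_lit 4) (nat_lit 12) (nat_lit 0) (Fs.j (nat_lit 692259) Fs.nil)) (Tr.I false Q.jac (nat_lit 8) (nat_lit 16) (nat_lit 20) (nat_lit 0) (nat_lit 0) (Fs.j (nat_lit 494695595719) Fs.nil))) (Tr.node (Tr.I false Q.tdj (nat_lit 593) (nat_lit 692227) (nat_lit 8) (nat_lit 24) (nat_lit 0) Fs.nil) (Tr.I true Q.jac (nat_lit 0) (nat_lit 16) (nat_lit 20) (nat_lit 0) (nat_lit 0) (Fs.j (nat_lit 494695595751) Fs.nil)))) (Tr.node (Tr.node (Tr.I false Q.adt (nat_lit 257) (nat_lit 4) (nat_lit 16) (nat_lit 12) (nat_lit 0) (Fs.j (nat_lit 2385) Fs.nil)) (Tr.I true Q.adt (nat_lit 257) (nat_lit 12) (nat_lit 16) (nat_lit 4) (nat_lit 0) (Fs.j (nat_lit 2385) Fs.nil))) (Tr.node (Tr.I false Q.adt (nat_lit 593) (nat_lit 8) (nat_lit 16) (nat_lit 0) (nat_lit 0)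 (Fs.j (nat_lit 2385) Fs.nil)) (Tr.I false Q.adt (nat_lit 257) (nat_lit 12) (nat_lit 20) (nat_lit 4) (nat_lit 0) (Fs.j (nat_lit 2369) Fs.nil))))) (Tr.node (Tr.node (Tr.node (Tr.I true Q.adt (nat_lit 257) (nat_lit 4) (nat_lit 20) (nat_lit 12) (nat_lit 0) (Fs.j (nat_lit 2369) Fs.nil)) (Tr.I true Q.adt (nat_lit 593) (nat_lit 8) (nat_lit 20) (nat_lit 0) (nat_lit 0) (Fs.j (nat_lit 2369) Fs.nil))) (Tr.node (Tr.I false Q.F (nat_lit 0) (nat_lit 593) (nat_lit 8) (nat_lit 24) (nat_lit 0) (Fs.j (nat_lit 1665) Fs.nil)) (Tr.I false Q.F (nat_lit 257) (nat_lit 4) (nat_lit 24) (nat_lit 12) (nat_lit 0) (Fs.j (nat_lit 1665) Fs.nil)))) (Tr.node (Tr.node (Tr.I true Q.adj (nat_lit 1665) (nat_lit 550222732903) (nat_lit 24) (nat_lit 0) (nat_lit 0) Fs.nil) (Tr.I true Q.G (nat_lit 1665) (nat_lit 0) (nat_lit 4) (nat_lit 24) (nat_lit 609) Fs.nil)) (Tr.node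 (Tr.I false Q.G (nat_lit 609) (nat_lit 1665) (nat_lit 0) (nat_lit 24) (nat_lit 4) Fs.nil) (Tr.I false Q.G (nat_lit 2321) (nat_lit 16) (nat_lit 0) (nat_lit 20) (nat_lit 609) Fs.nil)))))
def cS14 : Tr := (Tr.node (Tr.node (Tr.node (Tr.node (Tr.I true Q.G (nat_lit 2305) (nat_lit 16) (nat_lit 4) (nat_lit 20) (nat_lit 609) Fs.nil) (Tr.I false Q.K (nat_lit 0) (nat_lit 20) (nat_lit 8) (nat_lit 12) (nat_lit 0) (Fs.j (nat_lit 1401875) Fs.nil))) (Tr.node (Tr.I true Q.G (nat_lit 2321) (nat_lit 20) (nat_lit 0) (nat_lit 16) (nat_lit 609) Fs.nil) (Tr.I true Q.K (nat_lit 4) (nat_lit 20) (nat_lit 8) (nat_lit 12) (nat_lit 0) (Fs.j (nat_lit 1401859) Fs.nil)))) (Tr.node (Tr.node (Tr.I false Q.G (nat_lit 2305) (nat_lit 20) (nat_lit 4) (nat_lit 16) (nat_lit 609) Fs.nil) (Tr.I true Q.adj (nat_lit 65) (nat_lit 550270207271) (nat_lit 24) (nat_lit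 0) (nat_lit 0) Fs.nil)) (Tr.node (Tr.I false Q.jac (nat_lit 0) (nat_lit 4) (nat_lit 24) (nat_lit 0) (nat_lit 0) (Fs.j (nat_lit 550270207271) Fs.nil)) (Tr.I true Q.F (nat_lit 8) (nat_lit 12) (nat_lit 16) (nat_lit 20) (nat_lit 0) (Fs.j (nat_lit 16997) Fs.nil))))) (Tr.node (Tr.node (Tr.node (Tr.I false Q.tdj (nat_lit 609) (nat_lit 692243) (nat_lit 0) (nat_lit 24) (nat_lit 0) Fs.nil) (Tr.I true Q.K (nat_lit 0) (nat_lit 24) (nat_lit 8) (nat_lit 12) (nat_lit 0) (Fs.j (nat_lit 692243) Fs.nil))) (Tr.node (Tr.I true Q.jac (nat_lit 4) (nat_lit 16) (nat_lit 20) (nat_lit 0) (nat_lit 0) (Fs.j (nat_lit 550282076103) Fs.nil)) (Tr.I true Q.G (nat_lit 1665) (nat_lit 24) (nat_lit 0) (nat_lit 4) (nat_lit 609) Fs.nil))) (Tr.node (Tr.node (Tr.I true Q.tdj (nat_lit 609) (nat_lit 692227) (nat_lit 4) (nat_lit 24) (nat_lit 0) Fs.nil) (Tr.I false Q.K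 (nat_lit 4) (nat_lit 24) (nat_lit 8) (nat_lit 12) (nat_lit 0) (Fs.j (nat_lit 692227) Fs.nil))) (Tr.node (Tr.I false Q.jac (nat_lit 0) (nat_lit 16) (nat_lit 20) (nat_lit 0) (nat_lit 0) (Fs.j (nat_lit 550282076119) Fs.nil)) (Tr.I true Q.adt (nat_lit 65) (nat_lit 8) (nat_lit 16) (nat_lit 12) (nat_lit 0) (Fs.j (nat_lit 2385) Fs.nil))))))
def cS15 : Tr := (Tr.node (Tr.node (Tr.node (Tr.node (Tr.I false Q.adt (nat_lit 65) (nat_lit 12) (nat_lit 16) (nat_lit 8) (nat_lit 0) (Fs.j (nat_lit 2385) Fs.nil)) (Tr.I false Q.adt (nat_lit 4) (nat_lit 609) (nat_lit 16) (nat_lit 0) (nat_lit 0) (Fs.j (nat_lit 2385) Fs.nil))) (Tr.node (Tr.I true Q.adt (nat_lit 65) (nat_lit 12) (nat_lit 20) (nat_lit 8) (nat_lit 0) (Fs.j (nat_lit 2369) Fs.nil)) (Tr.I false Q.adt (nat_lit 65) (nat_lit 8) (nat_lit 20) (nat_lit 12) (nat_lit 0) (Fs.j (nat_lit 2369) Fs.nil))))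 (Tr.node (Tr.node (Tr.I true Q.adt (nat_lit 4) (nat_lit 609) (nat_lit 20) (nat_lit 0) (nat_lit 0) (Fs.j (nat_lit 2369) Fs.nil)) (Tr.I true Q.F (nat_lit 0) (nat_lit 4) (nat_lit 609) (nat_lit 24) (nat_lit 0) (Fs.j (nat_lit 1665) Fs.nil))) (Tr.node (Tr.I true Q.F (nat_lit 65) (nat_lit 8) (nat_lit 24) (nat_lit 12) (nat_lit 0) (Fs.j (nat_lit 1665) Fs.nil)) (Tr.I false Q.G (nat_lit 652867) (nat_lit 12) (nat_lit 8) (nat_lit 16) (nat_lit 24) Fs.nil)))) (Tr.node (Tr.node (Tr.node (Tr.I false Q.G (nat_lit 652867) (nat_lit 16) (nat_lit 8) (nat_lit 24) (nat_lit 12) Fs.nil) (Tr.I true Q.G (nat_lit 652867) (nat_lit 8) (nat_lit 12) (nat_lit 16) (nat_lit 24) Fs.nil)) (Tr.node (Tr.I true Q.G (nat_lit 652867) (nat_lit 16) (nat_lit 12) (nat_lit 24) (nat_lit 8) Fs.nil) (Tr.I true Q.K (nat_lit 0) (nat_lit 20) (nat_lit 4) (nat_lit 16) (nat_lit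 0) (Fs.j (nat_lit 1383011) Fs.nil)))) (Tr.node (Tr.node (Tr.I true Q.K (nat_lit 4) (nat_lit 20) (nat_lit 0) (nat_lit 24) (nat_lit 0) (Fs.j (nat_lit 287331) Fs.nil)) (Tr.I false Q.jac (nat_lit 652867) (nat_lit 8) (nat_lit 12) (nat_lit 0) (nat_lit 0) (Fs.j (nat_lit 2369) Fs.nil))) (Tr.node (Tr.I true Q.K (nat_lit 4) (nat_lit 20) (nat_lit 0) (nat_lit 609) (nat_lit 0) (Fs.j (nat_lit 2369) Fs.nil)) (Tr.I false Q.jac (nat_lit 652867) (nat_lit 8) (nat_lit 16) (nat_lit 0) (nat_lit 0) (Fs.j (nat_lit 2353) Fs.nil))))))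
def cS16 : Tr := (Tr.node (Tr.node (Tr.node (Tr.node (Tr.I true Q.K (nat_lit 4) (nat_lit 20) (nat_lit 0) (nat_lit 1057) (nat_lit 0) (Fs.j (nat_lit 2353) Fs.nil)) (Tr.I true Q.jac (nat_lit 652867) (nat_lit 12) (nat_lit 16) (nat_lit 0) (nat_lit 0) (Fs.j (nat_lit 2337) Fs.nil))) (Tr.node (Tr.I false Q.K (nat_lit 4) (nat_lit 20) (nat_lit 0) (nat_lit 1073) (nat_lit 0) (Fs.j (nat_lit 2337) Fs.nil)) (Tr.I true Q.G (nat_lit 665859) (nat_lit 12) (nat_lit 4) (nat_lit 16) (nat_lit 24) Fs.nil))) (Tr.node (Tr.node (Tr.I true Q.G (nat_lit 665859) (nat_lit 16) (nat_lit 4) (nat_lit 24) (nat_lit 12) Fs.nil) (Tr.I false Q.G (nat_lit 665859) (nat_lit 4) (nat_lit 12) (nat_lit 16) (nat_lit 24) Fs.nil)) (Tr.node (Tr.I false Q.G (nat_lit 665859) (nat_lit 16) (nat_lit 12) (nat_lit 24) (nat_lit 4) Fs.nil) (Tr.I false Q.K (nat_lit 0) (nat_lit 20) (nat_lit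 8) (nat_lit 16) (nat_lit 0) (Fs.j (nat_lit 1382995) Fs.nil))))) (Tr.node (Tr.node (Tr.node (Tr.I false Q.K (nat_lit 8) (nat_lit 20) (nat_lit 0) (nat_lit 24) (nat_lit 0) (Fs.j (nat_lit 287315) Fs.nil)) (Tr.I false Q.K (nat_lit 8) (nat_lit 20) (nat_lit 0) (nat_lit 593) (nat_lit 0) (Fs.j (nat_lit 2369) Fs.nil))) (Tr.node (Tr.I true Q.jac (nat_lit 665859) (nat_lit 4) (nat_lit 12) (nat_lit 0) (nat_lit 0) (Fs.j (nat_lit 2369) Fs.nil)) (Tr.I false Q.G (nat_lit 665875) (nat_lit 12) (nat_lit 0) (nat_lit 16) (nat_lit 24) Fs.nil))) (Tr.node (Tr.node (Tr.I false Q.G (nat_lit 665875) (nat_lit 16) (nat_lit 0) (nat_lit 24) (nat_lit 12) Fs.nil) (Tr.I true Q.G (nat_lit 665875) (nat_lit 0) (nat_lit 12) (nat_lit 16) (nat_lit 24) Fs.nil)) (Tr.node (Tr.I true Q.G (nat_lit 665875) (nat_lit 16) (nat_lit 12) (nat_lit 24) (nat_lit 0) Fs.nil) (Tr.I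 true Q.K (nat_lit 4) (nat_lit 20) (nat_lit 8) (nat_lit 16) (nat_lit 0) (Fs.j (nat_lit 1382979) Fs.nil))))))
def cS17 : Tr := (Tr.node (Tr.node (Tr.node (Tr.node (Tr.I true Q.K (nat_lit 8) (nat_lit 20) (nat_lit 4) (nat_lit 24) (nat_lit 0) (Fs.j (nat_lit 287299) Fs.nil)) (Tr.I true Q.tdj (nat_lit 273) (nat_lit 577) (nat_lit 24) (nat_lit 1665) (nat_lit 0) Fs.nil)) (Tr.node (Tr.I false Q.G (nat_lit 678979) (nat_lit 8) (nat_lit 4) (nat_lit 16) (nat_lit 24) Fs.nil) (Tr.I false Q.G (nat_lit 678979) (nat_lit 16) (nat_lit 4) (nat_lit 24) (nat_lit 8) Fs.nil))) (Tr.node (Tr.node (Tr.I true Q.G (nat_lit 678979) (nat_lit 4) (nat_lit 8) (nat_lit 16) (nat_lit 24) Fs.nil) (Tr.I true Q.G (nat_lit 678979) (nat_lit 16) (nat_lit 8) (nat_lit 24) (nat_lit 4) Fs.nil)) (Tr.node (Tr.I true Q.K (nat_lit 0) (nat_lit 20) (nat_lit 12) (nat_lit 16) (nat_lit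 0) (Fs.j (nat_lit 1364243) Fs.nil)) (Tr.I true Q.K (nat_lit 12) (nat_lit 20) (nat_lit 0) (nat_lit 24) (nat_lit 0) (Fs.j (nat_lit 278803) Fs.nil))))) (Tr.node (Tr.node (Tr.node (Tr.I true Q.jac (nat_lit 678979) (nat_lit 4) (nat_lit 8) (nat_lit 0) (nat_lit 0) (Fs.j (nat_lit 2369) Fs.nil)) (Tr.I false Q.K (nat_lit 12) (nat_lit 20) (nat_lit 0) (nat_lit 273) (nat_lit 0) (Fs.j (nat_lit 2369) Fs.nil))) (Tr.node (Tr.I true Q.jac (nat_lit 678979) (nat_lit 8) (nat_lit 16) (nat_lit 0) (nat_lit 0) (Fs.j (nat_lit 2321) Fs.nil)) (Tr.I false Q.K (nat_lit 12) (nat_lit 20) (nat_lit 0) (nat_lit 1057) (nat_lit 0) (Fs.j (nat_lit 2321) Fs.nil)))) (Tr.node (Tr.node (Tr.I true Q.G (nat_lit 678995) (nat_lit 8) (nat_lit 0) (nat_lit 16) (nat_lit 24) Fs.nil) (Tr.I true Q.G (nat_lit 678995) (nat_lit 16) (nat_lit 0) (nat_lit 24) (nat_lit 8) Fs.nil)) (Tr.node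 (Tr.I false Q.G (nat_lit 678995) (nat_lit 0) (nat_lit 8) (nat_lit 16) (nat_lit 24) Fs.nil) (Tr.I false Q.G (nat_lit 678995) (nat_lit 16) (nat_lit 8) (nat_lit 24) (nat_lit 0) Fs.nil)))))
def cS18 : Tr := (Tr.node (Tr.node (Tr.node (Tr.node (Tr.I false Q.K (nat_lit 4) (nat_lit 20) (nat_lit 12) (nat_lit 16) (nat_lit 0) (Fs.j (nat_lit 1364227) Fs.nil)) (Tr.I false Q.K (nat_lit 12) (nat_lit 20) (nat_lit 4) (nat_lit 24) (nat_lit 0) (Fs.j (nat_lit 278787) Fs.nil))) (Tr.node (Tr.I false Q.jac (nat_lit 678995) (nat_lit 8) (nat_lit 16) (nat_lit 0) (nat_lit 0) (Fs.j (nat_lit 2305) Fs.nil)) (Tr.I true Q.K (nat_lit 12) (nat_lit 20) (nat_lit 4) (nat_lit 1057) (nat_lit 0) (Fs.j (nat_lit 2305) Fs.nil)))) (Tr.node (Tr.node (Tr.I false Q.G (nat_lit 679011) (nat_lit 4) (nat_lit 0) (nat_lit 16) (nat_lit 24) Fs.nil) (Tr.I false Q.G (nat_lit 679011)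 (nat_lit 16) (nat_lit 0) (nat_lit 24) (nat_lit 4) Fs.nil)) (Tr.node (Tr.I true Q.G (nat_lit 679011) (nat_lit 0) (nat_lit 4) (nat_lit 16) (nat_lit 24) Fs.nil) (Tr.I true Q.G (nat_lit 679011) (nat_lit 16) (nat_lit 4) (nat_lit 24) (nat_lit 0) Fs.nil)))) (Tr.node (Tr.node (Tr.node (Tr.I true Q.K (nat_lit 8) (nat_lit 20) (nat_lit 12) (nat_lit 16) (nat_lit 0) (Fs.j (nat_lit 1345603) Fs.nil)) (Tr.I true Q.K (nat_lit 12) (nat_lit 20) (nat_lit 8) (nat_lit 24) (nat_lit 0) (Fs.j (nat_lit 270403) Fs.nil))) (Tr.node (Tr.I false Q.G (nat_lit 692227) (nat_lit 12) (nat_lit 4) (nat_lit 24) (nat_lit 8) Fs.nil) (Tr.I true Q.G (nat_lit 692227) (nat_lit 8) (nat_lit 4) (nat_lit 24) (nat_lit 12) Fs.nil))) (Tr.node (Tr.node (Tr.I true Q.G (nat_lit 692227) (nat_lit 12) (nat_lit 8) (nat_lit 24) (nat_lit 4) Fs.nil) (Tr.I false Q.G (nat_lit 692227) (nat_lit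 4) (nat_lit 8) (nat_lit 24) (nat_lit 12) Fs.nil)) (Tr.node (Tr.I false Q.G (nat_lit 692227) (nat_lit 8) (nat_lit 12) (nat_lit 24) (nat_lit 4) Fs.nil) (Tr.I true Q.G (nat_lit 692227) (nat_lit 4) (nat_lit 12) (nat_lit 24) (nat_lit 8) Fs.nil)))))
def cS19 : Tr := (Tr.node (Tr.node (Tr.node (Tr.node (Tr.I true Q.jac (nat_lit 692227) (nat_lit 4) (nat_lit 8) (nat_lit 0) (nat_lit 0) (Fs.j (nat_lit 2353) Fs.nil)) (Tr.I false Q.K (nat_lit 16) (nat_lit 20) (nat_lit 0) (nat_lit 273) (nat_lit 0) (Fs.j (nat_lit 2353) Fs.nil))) (Tr.node (Tr.I false Q.jac (nat_lit 692227) (nat_lit 4) (nat_lit 12) (nat_lit 0) (nat_lit 0) (Fs.j (nat_lit 2337) Fs.nil)) (Tr.I true Q.K (nat_lit 16) (nat_lit 20) (nat_lit 0) (nat_lit 593) (nat_lit 0) (Fs.j (nat_lit 2337) Fs.nil)))) (Tr.node (Tr.node (Tr.I true Q.G (nat_lit 692243) (nat_lit 12) (nat_lit 0) (nat_lit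 24) (nat_lit 8) Fs.nil) (Tr.I false Q.G (nat_lit 692243) (nat_lit 8) (nat_lit 0) (nat_lit 24) (nat_lit 12) Fs.nil)) (Tr.node (Tr.I false Q.G (nat_lit 692243) (nat_lit 12) (nat_lit 8) (nat_lit 24) (nat_lit 0) Fs.nil) (Tr.I true Q.G (nat_lit 692243) (nat_lit 0) (nat_lit 8) (nat_lit 24) (nat_lit 12) Fs.nil)))) (Tr.node (Tr.node (Tr.node (Tr.I true Q.G (nat_lit 692243) (nat_lit 8) (nat_lit 12) (nat_lit 24) (nat_lit 0) Fs.nil) (Tr.I false Q.G (nat_lit 692243) (nat_lit 0) (nat_lit 12) (nat_lit 24) (nat_lit 8) Fs.nil)) (Tr.node (Tr.I false Q.G (nat_lit 692259) (nat_lit 12) (nat_lit 0) (nat_lit 24) (nat_lit 4) Fs.nil) (Tr.I true Q.G (nat_lit 692259) (nat_lit 4) (nat_lit 0) (nat_lit 24) (nat_lit 12) Fs.nil))) (Tr.node (Tr.node (Tr.I true Q.G (nat_lit 692259) (nat_lit 12) (nat_lit 4) (nat_lit 24) (nat_lit 0) Fs.nil) (Tr.I false Q.G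 (nat_lit 692259) (nat_lit 0) (nat_lit 4) (nat_lit 24) (nat_lit 12) Fs.nil)) (Tr.node (Tr.I false Q.G (nat_lit 692259) (nat_lit 4) (nat_lit 12) (nat_lit 24) (nat_lit 0) Fs.nil) (Tr.I true Q.G (nat_lit 692259) (nat_lit 0) (nat_lit 12) (nat_lit 24) (nat_lit 4) Fs.nil)))))
def cS20 : Tr := (Tr.node (Tr.node (Tr.node (Tr.node (Tr.I true Q.G (nat_lit 692275) (nat_lit 8) (nat_lit 0) (nat_lit 24) (nat_lit 4) Fs.nil) (Tr.I false Q.G (nat_lit 692275) (nat_lit 4) (nat_lit 0) (nat_lit 24) (nat_lit 8) Fs.nil)) (Tr.node (Tr.I false Q.G (nat_lit 692275) (nat_lit 8) (nat_lit 4) (nat_lit 24) (nat_lit 0) Fs.nil) (Tr.I true Q.G (nat_lit 692275) (nat_lit 0) (nat_lit 4) (nat_lit 24) (nat_lit 8) Fs.nil))) (Tr.node (Tr.node (Tr.I true Q.G (nat_lit 692275) (nat_lit 4) (nat_lit 8) (nat_lit 24) (nat_lit 0) Fs.nil) (Tr.I false Q.G (nat_lit 692275) (nat_lit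 0) (nat_lit 8) (nat_lit 24) (nat_lit 4) Fs.nil)) (Tr.node (Tr.I false Q.tdj (nat_lit 257) (nat_lit 593) (nat_lit 24) (nat_lit 1665) (nat_lit 0) Fs.nil) (Tr.I true Q.tdj (nat_lit 65) (nat_lit 609) (nat_lit 24) (nat_lit 1665) (nat_lit 0) Fs.nil)))) (Tr.node (Tr.node (Tr.node (Tr.I false Q.G (nat_lit 2353) (nat_lit 4) (nat_lit 8) (nat_lit 20) (nat_lit 1025) Fs.nil) (Tr.I true Q.G (nat_lit 2353) (nat_lit 8) (nat_lit 4) (nat_lit 20) (nat_lit 1025) Fs.nil)) (Tr.node (Tr.I true Q.G (nat_lit 2337) (nat_lit 4) (nat_lit 12) (nat_lit 20) (nat_lit 1025) Fs.nil) (Tr.I false Q.G (nat_lit 2337) (nat_lit 12) (nat_lit 4) (nat_lit 20) (nat_lit 1025) Fs.nil))) (Tr.node (Tr.node (Tr.I false Q.G (nat_lit 2321) (nat_lit 8) (nat_lit 12) (nat_lit 20) (nat_lit 1025) Fs.nil) (Tr.I true Q.G (nat_lit 2321) (nat_lit 12) (nat_lit 8) (nat_lit 20) (nat_lit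 1025) Fs.nil)) (Tr.node (Tr.I false Q.G (nat_lit 609) (nat_lit 20) (nat_lit 4) (nat_lit 24) (nat_lit 1025) Fs.nil) (Tr.I true Q.jac (nat_lit 8) (nat_lit 12) (nat_lit 24) (nat_lit 0) (nat_lit 0) (Fs.j (nat_lit 4415419664119) Fs.nil))))))
def cS21 : Tr := (Tr.node (Tr.node (Tr.node (Tr.node (Tr.I false Q.F (nat_lit 0) (nat_lit 16) (nat_lit 20) (nat_lit 4) (nat_lit 0) (Fs.j (nat_lit 1483621) Fs.nil)) (Tr.I true Q.G (nat_lit 593) (nat_lit 20) (nat_lit 8) (nat_lit 24) (nat_lit 1025) Fs.nil)) (Tr.node (Tr.I false Q.jac (nat_lit 4) (nat_lit 12) (nat_lit 24) (nat_lit 0) (nat_lit 0) (Fs.j (nat_lit 4415419664135) Fs.nil)) (Tr.I true Q.F (nat_lit 0) (nat_lit 16) (nat_lit 20) (nat_lit 8) (nat_lit 0) (Fs.j (nat_lit 1406693) Fs.nil)))) (Tr.node (Tr.node (Tr.I false Q.G (nat_lit 273) (nat_lit 20) (nat_lit 12) (nat_lit 24) (nat_lit 1025)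 Fs.nil) (Tr.I true Q.jac (nat_lit 4) (nat_lit 8) (nat_lit 24) (nat_lit 0) (nat_lit 0) (Fs.j (nat_lit 4415419664151) Fs.nil))) (Tr.node (Tr.I false Q.F (nat_lit 0) (nat_lit 16) (nat_lit 20) (nat_lit 12) (nat_lit 0) (Fs.j (nat_lit 298213) Fs.nil)) (Tr.I true Q.jac (nat_lit 4) (nat_lit 8) (nat_lit 12) (nat_lit 0) (nat_lit 0) (Fs.j (nat_lit 4415453284887) Fs.nil))))) (Tr.node (Tr.node (Tr.node (Tr.I true Q.R (nat_lit 4) (nat_lit 8) (nat_lit 0) (nat_lit 12) (nat_lit 16) (Fs.j (nat_lit 2385) Fs.nil)) (Tr.I false Q.F (nat_lit 0) (nat_lit 273) (nat_lit 16) (nat_lit 12) (nat_lit 0) (Fs.j (nat_lit 2385) Fs.nil))) (Tr.node (Tr.I true Q.R (nat_lit 0) (nat_lit 16) (nat_lit 4) (nat_lit 12) (nat_lit 8) (Fs.j (nat_lit 2385) Fs.nil)) (Tr.I true Q.adt (nat_lit 0) (nat_lit 273) (nat_lit 20) (nat_lit 16) (nat_lit 0) (Fs.j (nat_lit 2353) Fs.nil))))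 (Tr.node (Tr.node (Tr.I false Q.R (nat_lit 0) (nat_lit 16) (nat_lit 4) (nat_lit 20) (nat_lit 8) (Fs.j (nat_lit 2353) Fs.nil)) (Tr.I true Q.adt (nat_lit 273) (nat_lit 16) (nat_lit 20) (nat_lit 0) (nat_lit 0) (Fs.j (nat_lit 2353) Fs.nil))) (Tr.node (Tr.I true Q.adt (nat_lit 1025) (nat_lit 8) (nat_lit 20) (nat_lit 4) (nat_lit 0) (Fs.j (nat_lit 2353) Fs.nil)) (Tr.I true Q.adt (nat_lit 0) (nat_lit 273) (nat_lit 24) (nat_lit 16) (nat_lit 0) (Fs.j (nat_lit 1649) Fs.nil))))))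
def cS22 : Tr := (Tr.node (Tr.node (Tr.node (Tr.node (Tr.I false Q.F (nat_lit 0) (nat_lit 273) (nat_lit 16) (nat_lit 24) (nat_lit 0) (Fs.j (nat_lit 1649) Fs.nil)) (Tr.I false Q.adt (nat_lit 273) (nat_lit 16) (nat_lit 24) (nat_lit 0) (nat_lit 0) (Fs.j (nat_lit 1649) Fs.nil))) (Tr.node (Tr.I true Q.R (nat_lit 0) (nat_lit 16) (nat_lit 4) (nat_lit 24) (nat_lit 8) (Fs.j (nat_lit 1649) Fs.nil)) (Tr.I true Q.adt (nat_lit 1025) (nat_lit 8) (nat_lit 24) (nat_lit 4) (nat_lit 0) (Fs.j (nat_lit 1649) Fs.nil)))) (Tr.node (Tr.node (Tr.I true Q.R (nat_lit 0) (nat_lit 16) (nat_lit 4) (nat_lit 20) (nat_lit 12) (Fs.j (nat_lit 2337) Fs.nil)) (Tr.I true Q.R (nat_lit 4) (nat_lit 12) (nat_lit 0) (nat_lit 20) (nat_lit 16) (Fs.j (nat_lit 2337) Fs.nil))) (Tr.node (Tr.I false Q.adt (nat_lit 593) (nat_lit 16) (nat_lit 20) (nat_lit 0) (nat_lit 0) (Fs.j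 (nat_lit 2337) Fs.nil)) (Tr.I false Q.adt (nat_lit 1025) (nat_lit 12) (nat_lit 20) (nat_lit 4) (nat_lit 0) (Fs.j (nat_lit 2337) Fs.nil))))) (Tr.node (Tr.node (Tr.node (Tr.I true Q.F (nat_lit 0) (nat_lit 593) (nat_lit 16) (nat_lit 24) (nat_lit 0) (Fs.j (nat_lit 1633) Fs.nil)) (Tr.I true Q.adt (nat_lit 593) (nat_lit 16) (nat_lit 24) (nat_lit 0) (nat_lit 0) (Fs.j (nat_lit 1633) Fs.nil))) (Tr.node (Tr.I false Q.adt (nat_lit 0) (nat_lit 593) (nat_lit 24) (nat_lit 16) (nat_lit 0) (Fs.j (nat_lit 1633) Fs.nil)) (Tr.I false Q.R (nat_lit 0) (nat_lit 16) (nat_lit 4) (nat_lit 24) (nat_lit 12) (Fs.j (nat_lit 1633) Fs.nil)))) (Tr.node (Tr.node (Tr.I false Q.adt (nat_lit 1025) (nat_lit 12) (nat_lit 24) (nat_lit 4) (nat_lit 0) (Fs.j (nat_lit 1633) Fs.nil)) (Tr.I false Q.F (nat_lit 1025) (nat_lit 8) (nat_lit 20) (nat_lit 12) (nat_lit 0) (Fs.j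 (nat_lit 2321) Fs.nil))) (Tr.node (Tr.I false Q.R (nat_lit 0) (nat_lit 16) (nat_lit 8) (nat_lit 20) (nat_lit 12) (Fs.j (nat_lit 2321) Fs.nil)) (Tr.I false Q.R (nat_lit 8) (nat_lit 12) (nat_lit 0) (nat_lit 20) (nat_lit 16) (Fs.j (nat_lit 2321) Fs.nil))))))
def cS23 : Tr := (Tr.node (Tr.node (Tr.node (Tr.node (Tr.I false Q.adt (nat_lit 0) (nat_lit 609) (nat_lit 20) (nat_lit 16) (nat_lit 0) (Fs.j (nat_lit 2321) Fs.nil)) (Tr.I true Q.adt (nat_lit 1025) (nat_lit 12) (nat_lit 20) (nat_lit 8) (nat_lit 0) (Fs.j (nat_lit 2321) Fs.nil))) (Tr.node (Tr.I false Q.F (nat_lit 0) (nat_lit 609) (nat_lit 16) (nat_lit 24) (nat_lit 0) (Fs.j (nat_lit 1617) Fs.nil)) (Tr.I false Q.adt (nat_lit 609) (nat_lit 16) (nat_lit 24) (nat_lit 0) (nat_lit 0) (Fs.j (nat_lit 1617) Fs.nil)))) (Tr.node (Tr.node (Tr.I true Q.adt (nat_lit 0) (nat_lit 609) (nat_lit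 24) (nat_lit 16) (nat_lit 0) (Fs.j (nat_lit 1617) Fs.nil)) (Tr.I true Q.R (nat_lit 0) (nat_lit 16) (nat_lit 8) (nat_lit 24) (nat_lit 12) (Fs.j (nat_lit 1617) Fs.nil))) (Tr.node (Tr.I true Q.adt (nat_lit 1025) (nat_lit 12) (nat_lit 24) (nat_lit 8) (nat_lit 0) (Fs.j (nat_lit 1617) Fs.nil)) (Tr.I true Q.G (nat_lit 2353) (nat_lit 0) (nat_lit 8) (nat_lit 20) (nat_lit 1041) Fs.nil)))) (Tr.node (Tr.node (Tr.node (Tr.I false Q.G (nat_lit 2353) (nat_lit 8) (nat_lit 0) (nat_lit 20) (nat_lit 1041) Fs.nil) (Tr.I false Q.G (nat_lit 2337) (nat_lit 0) (nat_lit 12) (nat_lit 20) (nat_lit 1041) Fs.nil)) (Tr.node (Tr.I true Q.G (nat_lit 2337) (nat_lit 12) (nat_lit 0) (nat_lit 20) (nat_lit 1041) Fs.nil) (Tr.I true Q.G (nat_lit 2305) (nat_lit 8) (nat_lit 12) (nat_lit 20) (nat_lit 1041) Fs.nil))) (Tr.node (Tr.node (Tr.I false Q.G (nat_lit 2305)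 (nat_lit 12) (nat_lit 8) (nat_lit 20) (nat_lit 1041) Fs.nil) (Tr.I true Q.G (nat_lit 609) (nat_lit 20) (nat_lit 0) (nat_lit 24) (nat_lit 1041) Fs.nil)) (Tr.node (Tr.I false Q.jac (nat_lit 8) (nat_lit 12) (nat_lit 24) (nat_lit 0) (nat_lit 0) (Fs.j (nat_lit 4697631429607) Fs.nil)) (Tr.I false Q.G (nat_lit 577) (nat_lit 20) (nat_lit 8) (nat_lit 24) (nat_lit 1041) Fs.nil)))))
def cS24 : Tr := (Tr.node (Tr.node (Tr.node (Tr.node (Tr.I true Q.jac (nat_lit 0) (nat_lit 12) (nat_lit 24) (nat_lit 0) (nat_lit 0) (Fs.j (nat_lit 4697631429639) Fs.nil)) (Tr.I false Q.F (nat_lit 4) (nat_lit 16) (nat_lit 20) (nat_lit 8) (nat_lit 0) (Fs.j (nat_lit 1331813) Fs.nil))) (Tr.node (Tr.I true Q.G (nat_lit 257) (nat_lit 20) (nat_lit 12) (nat_lit 24) (nat_lit 1041) Fs.nil) (Tr.I false Q.jac (nat_lit 0) (nat_lit 8) (nat_lit 24) (nat_lit 0) (nat_lit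 0) (Fs.j (nat_lit 4697631429655) Fs.nil)))) (Tr.node (Tr.node (Tr.I true Q.F (nat_lit 4) (nat_lit 16) (nat_lit 20) (nat_lit 12) (nat_lit 0) (Fs.j (nat_lit 264293) Fs.nil)) (Tr.I false Q.K (nat_lit 0) (nat_lit 24) (nat_lit 4) (nat_lit 16) (nat_lit 0) (Fs.j (nat_lit 679011) Fs.nil))) (Tr.node (Tr.I false Q.jac (nat_lit 0) (nat_lit 8) (nat_lit 12) (nat_lit 0) (nat_lit 0) (Fs.j (nat_lit 4697666108183) Fs.nil)) (Tr.I false Q.R (nat_lit 0) (nat_lit 8) (nat_lit 4) (nat_lit 12) (nat_lit 16) (Fs.j (nat_lit 2385) Fs.nil))))) (Tr.node (Tr.node (Tr.node (Tr.I false Q.F (nat_lit 257) (nat_lit 4) (nat_lit 12) (nat_lit 16) (nat_lit 0) (Fs.j (nat_lit 2385) Fs.nil)) (Tr.I false Q.F (nat_lit 257) (nat_lit 4) (nat_lit 20) (nat_lit 16) (nat_lit 0) (Fs.j (nat_lit 2353) Fs.nil))) (Tr.node (Tr.I false Q.adt (nat_lit 0) (nat_lit 1041) (nat_lit 20)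 (nat_lit 8) (nat_lit 0) (Fs.j (nat_lit 2353) Fs.nil)) (Tr.I true Q.adt (nat_lit 257) (nat_lit 16) (nat_lit 20) (nat_lit 4) (nat_lit 0) (Fs.j (nat_lit 2353) Fs.nil)))) (Tr.node (Tr.node (Tr.I true Q.F (nat_lit 257) (nat_lit 4) (nat_lit 24) (nat_lit 16) (nat_lit 0) (Fs.j (nat_lit 1649) Fs.nil)) (Tr.I false Q.adt (nat_lit 257) (nat_lit 4) (nat_lit 24) (nat_lit 16) (nat_lit 0) (Fs.j (nat_lit 1649) Fs.nil))) (Tr.node (Tr.I true Q.adt (nat_lit 257) (nat_lit 16) (nat_lit 24) (nat_lit 4) (nat_lit 0) (Fs.j (nat_lit 1649) Fs.nil)) (Tr.I false Q.adt (nat_lit 1041) (nat_lit 8) (nat_lit 24) (nat_lit 0) (nat_lit 0) (Fs.j (nat_lit 1649) Fs.nil))))))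
def cS25 : Tr := (Tr.node (Tr.node (Tr.node (Tr.node (Tr.I true Q.F (nat_lit 577) (nat_lit 4) (nat_lit 20) (nat_lit 16) (nat_lit 0) (Fs.j (nat_lit 2337) Fs.nil)) (Tr.I true Q.adt (nat_lit 0) (nat_lit 1041) (nat_lit 20) (nat_lit 12) (nat_lit 0) (Fs.j (nat_lit 2337) Fs.nil))) (Tr.node (Tr.I false Q.adt (nat_lit 577) (nat_lit 16) (nat_lit 20) (nat_lit 4) (nat_lit 0) (Fs.j (nat_lit 2337) Fs.nil)) (Tr.I false Q.adt (nat_lit 577) (nat_lit 16) (nat_lit 24) (nat_lit 4) (nat_lit 0) (Fs.j (nat_lit 1633) Fs.nil)))) (Tr.node (Tr.node (Tr.I true Q.adt (nat_lit 577) (nat_lit 4) (nat_lit 24) (nat_lit 16) (nat_lit 0) (Fs.j (nat_lit 1633) Fs.nil)) (Tr.I false Q.F (nat_lit 577) (nat_lit 4) (nat_lit 24) (nat_lit 16) (nat_lit 0) (Fs.j (nat_lit 1633) Fs.nil))) (Tr.node (Tr.I true Q.adt (nat_lit 1041) (nat_lit 12) (nat_lit 24) (nat_lit 0) (nat_lit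 0) (Fs.j (nat_lit 1633) Fs.nil)) (Tr.I true Q.F (nat_lit 1041) (nat_lit 8) (nat_lit 20) (nat_lit 12) (nat_lit 0) (Fs.j (nat_lit 2305) Fs.nil))))) (Tr.node (Tr.node (Tr.node (Tr.I true Q.R (nat_lit 4) (nat_lit 16) (nat_lit 8) (nat_lit 20) (nat_lit 12) (Fs.j (nat_lit 2305) Fs.nil)) (Tr.I true Q.R (nat_lit 8) (nat_lit 12) (nat_lit 4) (nat_lit 20) (nat_lit 16) (Fs.j (nat_lit 2305) Fs.nil))) (Tr.node (Tr.I true Q.adt (nat_lit 4) (nat_lit 609) (nat_lit 20) (nat_lit 16) (nat_lit 0) (Fs.j (nat_lit 2305) Fs.nil)) (Tr.I false Q.adt (nat_lit 1041) (nat_lit 12) (nat_lit 20) (nat_lit 8) (nat_lit 0) (Fs.j (nat_lit 2305) Fs.nil)))) (Tr.node (Tr.node (Tr.I true Q.F (nat_lit 4) (nat_lit 609) (nat_lit 16) (nat_lit 24) (nat_lit 0) (Fs.j (nat_lit 1601) Fs.nil)) (Tr.I true Q.adt (nat_lit 609) (nat_lit 16) (nat_lit 24) (nat_lit 4) (nat_lit 0) (Fs.j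 (nat_lit 1601) Fs.nil))) (Tr.node (Tr.I false Q.adt (nat_lit 4) (nat_lit 609) (nat_lit 24) (nat_lit 16) (nat_lit 0) (Fs.j (nat_lit 1601) Fs.nil)) (Tr.I false Q.R (nat_lit 4) (nat_lit 16) (nat_lit 8) (nat_lit 24) (nat_lit 12) (Fs.j (nat_lit 1601) Fs.nil))))))
def cS26 : Tr := (Tr.node (Tr.node (Tr.node (Tr.node (Tr.I false Q.adt (nat_lit 1041) (nat_lit 12) (nat_lit 24) (nat_lit 8) (nat_lit 0) (Fs.j (nat_lit 1601) Fs.nil)) (Tr.I false Q.G (nat_lit 2353) (nat_lit 0) (nat_lit 4) (nat_lit 20) (nat_lit 1057) Fs.nil)) (Tr.node (Tr.I true Q.G (nat_lit 2353) (nat_lit 4) (nat_lit 0) (nat_lit 20) (nat_lit 1057) Fs.nil) (Tr.I true Q.G (nat_lit 2321) (nat_lit 0) (nat_lit 12) (nat_lit 20) (nat_lit 1057) Fs.nil))) (Tr.node (Tr.node (Tr.I false Q.G (nat_lit 2321) (nat_lit 12) (nat_lit 0) (nat_lit 20) (nat_lit 1057) Fs.nil) (Tr.I false Q.G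 (nat_lit 2305) (nat_lit 4) (nat_lit 12) (nat_lit 20) (nat_lit 1057) Fs.nil)) (Tr.node (Tr.I true Q.G (nat_lit 2305) (nat_lit 12) (nat_lit 4) (nat_lit 20) (nat_lit 1057) Fs.nil) (Tr.I false Q.G (nat_lit 593) (nat_lit 20) (nat_lit 0) (nat_lit 24) (nat_lit 1057) Fs.nil)))) (Tr.node (Tr.node (Tr.node (Tr.I true Q.jac (nat_lit 4) (nat_lit 12) (nat_lit 24) (nat_lit 0) (nat_lit 0) (Fs.j (nat_lit 4993160073447) Fs.nil)) (Tr.I true Q.G (nat_lit 577) (nat_lit 20) (nat_lit 4) (nat_lit 24) (nat_lit 1057) Fs.nil)) (Tr.node (Tr.I false Q.jac (nat_lit 0) (nat_lit 12) (nat_lit 24) (nat_lit 0) (nat_lit 0) (Fs.j (nat_lit 4993160073463) Fs.nil)) (Tr.I false Q.G (nat_lit 65) (nat_lit 20) (nat_lit 12) (nat_lit 24) (nat_lit 1057) Fs.nil))) (Tr.node (Tr.node (Tr.I true Q.jac (nat_lit 0) (nat_lit 4) (nat_lit 24) (nat_lit 0) (nat_lit 0) (Fs.j (nat_lit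 4993160073495) Fs.nil)) (Tr.I false Q.F (nat_lit 8) (nat_lit 16) (nat_lit 20) (nat_lit 12) (nat_lit 0) (Fs.j (nat_lit 16997) Fs.nil))) (Tr.node (Tr.I true Q.K (nat_lit 0) (nat_lit 24) (nat_lit 8) (nat_lit 16) (nat_lit 0) (Fs.j (nat_lit 678995) Fs.nil)) (Tr.I false Q.K (nat_lit 4) (nat_lit 24) (nat_lit 8) (nat_lit 16) (nat_lit 0) (Fs.j (nat_lit 678979) Fs.nil))))))
def cS27 : Tr := (Tr.node (Tr.node (Tr.node (Tr.node (Tr.I true Q.jac (nat_lit 0) (nat_lit 4) (nat_lit 12) (nat_lit 0) (nat_lit 0) (Fs.j (nat_lit 4993195826199) Fs.nil)) (Tr.I true Q.R (nat_lit 0) (nat_lit 4) (nat_lit 8) (nat_lit 12) (nat_lit 16) (Fs.j (nat_lit 2385) Fs.nil))) (Tr.node (Tr.I true Q.F (nat_lit 65) (nat_lit 8) (nat_lit 12) (nat_lit 16) (nat_lit 0) (Fs.j (nat_lit 2385) Fs.nil)) (Tr.I false Q.F (nat_lit 0) (nat_lit 4) (nat_lit 1057) (nat_lit 20) (nat_lit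 0) (Fs.j (nat_lit 2353) Fs.nil)))) (Tr.node (Tr.node (Tr.I true Q.adt (nat_lit 4) (nat_lit 1057) (nat_lit 20) (nat_lit 0) (nat_lit 0) (Fs.j (nat_lit 2353) Fs.nil)) (Tr.I true Q.adt (nat_lit 65) (nat_lit 8) (nat_lit 20) (nat_lit 16) (nat_lit 0) (Fs.j (nat_lit 2353) Fs.nil))) (Tr.node (Tr.I true Q.adt (nat_lit 65) (nat_lit 16) (nat_lit 20) (nat_lit 8) (nat_lit 0) (Fs.j (nat_lit 2353) Fs.nil)) (Tr.I false Q.F (nat_lit 65) (nat_lit 8) (nat_lit 24) (nat_lit 16) (nat_lit 0) (Fs.j (nat_lit 1649) Fs.nil))))) (Tr.node (Tr.node (Tr.node (Tr.I true Q.adt (nat_lit 65) (nat_lit 8) (nat_lit 24) (nat_lit 16) (nat_lit 0) (Fs.j (nat_lit 1649) Fs.nil)) (Tr.I false Q.adt (nat_lit 65) (nat_lit 16) (nat_lit 24) (nat_lit 8) (nat_lit 0) (Fs.j (nat_lit 1649) Fs.nil))) (Tr.node (Tr.I false Q.adt (nat_lit 4) (nat_lit 1057) (nat_lit 24) (nat_lit 0)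 (nat_lit 0) (Fs.j (nat_lit 1649) Fs.nil)) (Tr.I false Q.K (nat_lit 577) (nat_lit 4) (nat_lit 8) (nat_lit 16) (nat_lit 0) (Fs.j (nat_lit 2385) Fs.nil)))) (Tr.node (Tr.node (Tr.I true Q.adt (nat_lit 1057) (nat_lit 12) (nat_lit 20) (nat_lit 0) (nat_lit 0) (Fs.j (nat_lit 2321) Fs.nil)) (Tr.I true Q.adt (nat_lit 577) (nat_lit 16) (nat_lit 20) (nat_lit 8) (nat_lit 0) (Fs.j (nat_lit 2321) Fs.nil))) (Tr.node (Tr.I true Q.adt (nat_lit 577) (nat_lit 16) (nat_lit 24) (nat_lit 8) (nat_lit 0) (Fs.j (nat_lit 1617) Fs.nil)) (Tr.I false Q.adt (nat_lit 577) (nat_lit 8) (nat_lit 24) (nat_lit 16) (nat_lit 0) (Fs.j (nat_lit 1617) Fs.nil))))))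
def cS28 : Tr := (Tr.node (Tr.node (Tr.node (Tr.node (Tr.I true Q.F (nat_lit 577) (nat_lit 8) (nat_lit 24) (nat_lit 16) (nat_lit 0) (Fs.j (nat_lit 1617) Fs.nil)) (Tr.I false Q.adt (nat_lit 1057) (nat_lit 12) (nat_lit 24) (nat_lit 0) (nat_lit 0) (Fs.j (nat_lit 1617) Fs.nil))) (Tr.node (Tr.I true Q.R (nat_lit 4) (nat_lit 12) (nat_lit 8) (nat_lit 20) (nat_lit 16) (Fs.j (nat_lit 2305) Fs.nil)) (Tr.I false Q.adt (nat_lit 1057) (nat_lit 12) (nat_lit 20) (nat_lit 4) (nat_lit 0) (Fs.j (nat_lit 2305) Fs.nil)))) (Tr.node (Tr.node (Tr.I false Q.adt (nat_lit 593) (nat_lit 16) (nat_lit 20) (nat_lit 8) (nat_lit 0) (Fs.j (nat_lit 2305) Fs.nil)) (Tr.I false Q.adt (nat_lit 593) (nat_lit 8) (nat_lit 20) (nat_lit 16) (nat_lit 0) (Fs.j (nat_lit 2305) Fs.nil))) (Tr.node (Tr.I false Q.adt (nat_lit 593) (nat_lit 16) (nat_lit 24) (nat_lit 8) (nat_lit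 0) (Fs.j (nat_lit 1601) Fs.nil)) (Tr.I false Q.F (nat_lit 593) (nat_lit 8) (nat_lit 24) (nat_lit 16) (nat_lit 0) (Fs.j (nat_lit 1601) Fs.nil))))) (Tr.node (Tr.node (Tr.node (Tr.I true Q.adt (nat_lit 593) (nat_lit 8) (nat_lit 24) (nat_lit 16) (nat_lit 0) (Fs.j (nat_lit 1601) Fs.nil)) (Tr.I true Q.adt (nat_lit 1057) (nat_lit 12) (nat_lit 24) (nat_lit 4) (nat_lit 0) (Fs.j (nat_lit 1601) Fs.nil))) (Tr.node (Tr.I true Q.G (nat_lit 2337) (nat_lit 0) (nat_lit 4) (nat_lit 20) (nat_lit 1073) Fs.nil) (Tr.I false Q.G (nat_lit 2337) (nat_lit 4) (nat_lit 0) (nat_lit 20) (nat_lit 1073) Fs.nil))) (Tr.node (Tr.node (Tr.I false Q.G (nat_lit 2321) (nat_lit 0) (nat_lit 8) (nat_lit 20) (nat_lit 1073) Fs.nil) (Tr.I true Q.G (nat_lit 2321) (nat_lit 8) (nat_lit 0) (nat_lit 20) (nat_lit 1073) Fs.nil)) (Tr.node (Tr.I true Q.G (nat_lit 2305) (nat_lit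 4) (nat_lit 8) (nat_lit 20) (nat_lit 1073) Fs.nil) (Tr.I false Q.G (nat_lit 2305) (nat_lit 8) (nat_lit 4) (nat_lit 20) (nat_lit 1073) Fs.nil)))))
def cS29 : Tr := (Tr.node (Tr.node (Tr.node (Tr.node (Tr.I true Q.G (nat_lit 273) (nat_lit 20) (nat_lit 0) (nat_lit 24) (nat_lit 1073) Fs.nil) (Tr.I false Q.jac (nat_lit 4) (nat_lit 8) (nat_lit 24) (nat_lit 0) (nat_lit 0) (Fs.j (nat_lit 5302418079207) Fs.nil))) (Tr.node (Tr.I false Q.G (nat_lit 257) (nat_lit 20) (nat_lit 4) (nat_lit 24) (nat_lit 1073) Fs.nil) (Tr.I true Q.jac (nat_lit 0) (nat_lit 8) (nat_lit 24) (nat_lit 0) (nat_lit 0) (Fs.j (nat_lit 5302418079223) Fs.nil)))) (Tr.node (Tr.node (Tr.I true Q.G (nat_lit 65) (nat_lit 20) (nat_lit 8) (nat_lit 24) (nat_lit 1073) Fs.nil) (Tr.I false Q.jac (nat_lit 0) (nat_lit 4) (nat_lit 24) (nat_lit 0) (nat_lit 0) (Fs.j (nat_lit 5302418079239)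 Fs.nil))) (Tr.node (Tr.I false Q.K (nat_lit 0) (nat_lit 24) (nat_lit 12) (nat_lit 16) (nat_lit 0) (Fs.j (nat_lit 665875) Fs.nil)) (Tr.I true Q.K (nat_lit 4) (nat_lit 24) (nat_lit 12) (nat_lit 16) (nat_lit 0) (Fs.j (nat_lit 665859) Fs.nil))))) (Tr.node (Tr.node (Tr.node (Tr.I false Q.K (nat_lit 8) (nat_lit 24) (nat_lit 12) (nat_lit 16) (nat_lit 0) (Fs.j (nat_lit 652867) Fs.nil)) (Tr.I false Q.jac (nat_lit 0) (nat_lit 4) (nat_lit 8) (nat_lit 0) (nat_lit 0) (Fs.j (nat_lit 5302454922519) Fs.nil))) (Tr.node (Tr.I true Q.F (nat_lit 0) (nat_lit 4) (nat_lit 1073) (nat_lit 20) (nat_lit 0) (Fs.j (nat_lit 2337) Fs.nil)) (Tr.I false Q.adt (nat_lit 4) (nat_lit 1073) (nat_lit 20) (nat_lit 0) (nat_lit 0) (Fs.j (nat_lit 2337) Fs.nil)))) (Tr.node (Tr.node (Tr.I false Q.adt (nat_lit 65) (nat_lit 12) (nat_lit 20) (nat_lit 16) (nat_lit 0) (Fs.j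 (nat_lit 2337) Fs.nil)) (Tr.I false Q.adt (nat_lit 65) (nat_lit 16) (nat_lit 20) (nat_lit 12) (nat_lit 0) (Fs.j (nat_lit 2337) Fs.nil))) (Tr.node (Tr.I true Q.F (nat_lit 65) (nat_lit 12) (nat_lit 24) (nat_lit 16) (nat_lit 0) (Fs.j (nat_lit 1633) Fs.nil)) (Tr.I false Q.adt (nat_lit 65) (nat_lit 12) (nat_lit 24) (nat_lit 16) (nat_lit 0) (Fs.j (nat_lit 1633) Fs.nil))))))
def cS30 : Tr := (Tr.node (Tr.node (Tr.node (Tr.node (Tr.I true Q.adt (nat_lit 65) (nat_lit 16) (nat_lit 24) (nat_lit 12) (nat_lit 0) (Fs.j (nat_lit 1633) Fs.nil)) (Tr.I true Q.adt (nat_lit 4) (nat_lit 1073) (nat_lit 24) (nat_lit 0) (nat_lit 0) (Fs.j (nat_lit 1633) Fs.nil))) (Tr.node (Tr.I false Q.F (nat_lit 257) (nat_lit 12) (nat_lit 24) (nat_lit 16) (nat_lit 0) (Fs.j (nat_lit 1617) Fs.nil)) (Tr.I true Q.adt (nat_lit 257) (nat_lit 12) (nat_lit 24) (nat_lit 16)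 (nat_lit 0) (Fs.j (nat_lit 1617) Fs.nil)))) (Tr.node (Tr.node (Tr.I false Q.adt (nat_lit 257) (nat_lit 16) (nat_lit 24) (nat_lit 12) (nat_lit 0) (Fs.j (nat_lit 1617) Fs.nil)) (Tr.I false Q.adt (nat_lit 8) (nat_lit 1073) (nat_lit 24) (nat_lit 0) (nat_lit 0) (Fs.j (nat_lit 1617) Fs.nil))) (Tr.node (Tr.I false Q.adt (nat_lit 273) (nat_lit 12) (nat_lit 24) (nat_lit 16) (nat_lit 0) (Fs.j (nat_lit 1601) Fs.nil)) (Tr.I true Q.F (nat_lit 273) (nat_lit 12) (nat_lit 24) (nat_lit 16) (nat_lit 0) (Fs.j (nat_lit 1601) Fs.nil))))) (Tr.node (Tr.node (Tr.node (Tr.I true Q.adt (nat_lit 273) (nat_lit 16) (nat_lit 24) (nat_lit 12) (nat_lit 0) (Fs.j (nat_lit 1601) Fs.nil)) (Tr.I true Q.adt (nat_lit 8) (nat_lit 1073) (nat_lit 24) (nat_lit 4) (nat_lit 0) (Fs.j (nat_lit 1601) Fs.nil))) (Tr.node (Tr.I false Q.G (nat_lit 1345603) (nat_lit 12) (nat_lit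 8) (nat_lit 20) (nat_lit 16) Fs.nil) (Tr.I true Q.G (nat_lit 1345603) (nat_lit 12) (nat_lit 8) (nat_lit 16) (nat_lit 20) Fs.nil))) (Tr.node (Tr.node (Tr.I true Q.G (nat_lit 1345603) (nat_lit 8) (nat_lit 12) (nat_lit 20) (nat_lit 16) Fs.nil) (Tr.I false Q.G (nat_lit 1345603) (nat_lit 8) (nat_lit 12) (nat_lit 16) (nat_lit 20) Fs.nil)) (Tr.node (Tr.I true Q.K (nat_lit 0) (nat_lit 24) (nat_lit 4) (nat_lit 20) (nat_lit 0) (Fs.j (nat_lit 287331) Fs.nil)) (Tr.I true Q.jac (nat_lit 1345603) (nat_lit 8) (nat_lit 16) (nat_lit 0) (nat_lit 0) (Fs.j (nat_lit 1649) Fs.nil))))))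
def cS31 : Tr := (Tr.node (Tr.node (Tr.node (Tr.node (Tr.I false Q.K (nat_lit 4) (nat_lit 24) (nat_lit 0) (nat_lit 1057) (nat_lit 0) (Fs.j (nat_lit 1649) Fs.nil)) (Tr.I false Q.jac (nat_lit 1345603) (nat_lit 12) (nat_lit 16) (nat_lit 0) (nat_lit 0) (Fs.j (nat_lit 1633) Fs.nil))) (Tr.node (Tr.I true Q.K (nat_lit 4) (nat_lit 24) (nat_lit 0) (nat_lit 1073) (nat_lit 0) (Fs.j (nat_lit 1633) Fs.nil)) (Tr.I false Q.jac (nat_lit 1345603) (nat_lit 8) (nat_lit 20) (nat_lit 0) (nat_lit 0) (Fs.j (nat_lit 1073) Fs.nil)))) (Tr.node (Tr.node (Tr.I true Q.K (nat_lit 4) (nat_lit 24) (nat_lit 0) (nat_lit 1633) (nat_lit 0) (Fs.j (nat_lit 1073) Fs.nil)) (Tr.I true Q.G (nat_lit 1364227) (nat_lit 12) (nat_lit 4) (nat_lit 20) (nat_lit 16) Fs.nil)) (Tr.node (Tr.I false Q.G (nat_lit 1364227) (nat_lit 12) (nat_lit 4) (nat_lit 16) (nat_lit 20) Fs.nil)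 (Tr.I false Q.G (nat_lit 1364227) (nat_lit 4) (nat_lit 12) (nat_lit 20) (nat_lit 16) Fs.nil)))) (Tr.node (Tr.node (Tr.node (Tr.I true Q.G (nat_lit 1364227) (nat_lit 4) (nat_lit 12) (nat_lit 16) (nat_lit 20) Fs.nil) (Tr.I false Q.K (nat_lit 0) (nat_lit 24) (nat_lit 8) (nat_lit 20) (nat_lit 0) (Fs.j (nat_lit 287315) Fs.nil))) (Tr.node (Tr.I true Q.K (nat_lit 8) (nat_lit 24) (nat_lit 0) (nat_lit 1041) (nat_lit 0) (Fs.j (nat_lit 1649) Fs.nil)) (Tr.I false Q.jac (nat_lit 1364227) (nat_lit 4) (nat_lit 16) (nat_lit 0) (nat_lit 0) (Fs.j (nat_lit 1649) Fs.nil)))) (Tr.node (Tr.node (Tr.I true Q.jac (nat_lit 1364227) (nat_lit 12) (nat_lit 16) (nat_lit 0) (nat_lit 0) (Fs.j (nat_lit 1617) Fs.nil)) (Tr.I false Q.K (nat_lit 8) (nat_lit 24) (nat_lit 0) (nat_lit 1073) (nat_lit 0) (Fs.j (nat_lit 1617) Fs.nil))) (Tr.node (Tr.I false Q.K (nat_lit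 8) (nat_lit 24) (nat_lit 0) (nat_lit 1617) (nat_lit 0) (Fs.j (nat_lit 1073) Fs.nil)) (Tr.I true Q.jac (nat_lit 1364227) (nat_lit 4) (nat_lit 20) (nat_lit 0) (nat_lit 0) (Fs.j (nat_lit 1073) Fs.nil))))))
def cS32 : Tr := (Tr.node (Tr.node (Tr.node (Tr.node (Tr.I false Q.jac (nat_lit 1364227) (nat_lit 12) (nat_lit 20) (nat_lit 0) (nat_lit 0) (Fs.j (nat_lit 1041) Fs.nil)) (Tr.I true Q.K (nat_lit 8) (nat_lit 24) (nat_lit 0) (nat_lit 1649) (nat_lit 0) (Fs.j (nat_lit 1041) Fs.nil))) (Tr.node (Tr.I false Q.G (nat_lit 1364243) (nat_lit 12) (nat_lit 0) (nat_lit 20) (nat_lit 16) Fs.nil) (Tr.I true Q.G (nat_lit 1364243) (nat_lit 12) (nat_lit 0) (nat_lit 16) (nat_lit 20) Fs.nil))) (Tr.node (Tr.node (Tr.I true Q.G (nat_lit 1364243) (nat_lit 0) (nat_lit 12) (nat_lit 20) (nat_lit 16) Fs.nil) (Tr.I false Q.G (nat_lit 1364243) (nat_lit 0)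 (nat_lit 12) (nat_lit 16) (nat_lit 20) Fs.nil)) (Tr.node (Tr.I true Q.K (nat_lit 4) (nat_lit 24) (nat_lit 8) (nat_lit 20) (nat_lit 0) (Fs.j (nat_lit 287299) Fs.nil)) (Tr.I false Q.jac (nat_lit 1364243) (nat_lit 12) (nat_lit 16) (nat_lit 0) (nat_lit 0) (Fs.j (nat_lit 1601) Fs.nil))))) (Tr.node (Tr.node (Tr.node (Tr.I true Q.K (nat_lit 8) (nat_lit 24) (nat_lit 4) (nat_lit 1073) (nat_lit 0) (Fs.j (nat_lit 1601) Fs.nil)) (Tr.I true Q.jac (nat_lit 1364243) (nat_lit 12) (nat_lit 20) (nat_lit 0) (nat_lit 0) (Fs.j (nat_lit 1025) Fs.nil))) (Tr.node (Tr.I false Q.K (nat_lit 8) (nat_lit 24) (nat_lit 4) (nat_lit 1649) (nat_lit 0) (Fs.j (nat_lit 1025) Fs.nil)) (Tr.I false Q.G (nat_lit 1382979) (nat_lit 8) (nat_lit 4) (nat_lit 20) (nat_lit 16) Fs.nil))) (Tr.node (Tr.node (Tr.I true Q.G (nat_lit 1382979) (nat_lit 8) (nat_lit 4) (nat_lit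 16) (nat_lit 20) Fs.nil) (Tr.I true Q.G (nat_lit 1382979) (nat_lit 4) (nat_lit 8) (nat_lit 20) (nat_lit 16) Fs.nil)) (Tr.node (Tr.I false Q.G (nat_lit 1382979) (nat_lit 4) (nat_lit 8) (nat_lit 16) (nat_lit 20) Fs.nil) (Tr.I true Q.K (nat_lit 0) (nat_lit 24) (nat_lit 12) (nat_lit 20) (nat_lit 0) (Fs.j (nat_lit 278803) Fs.nil))))))
def cS33 : Tr := (Tr.node (Tr.node (Tr.node (Tr.node (Tr.I false Q.K (nat_lit 12) (nat_lit 24) (nat_lit 0) (nat_lit 1041) (nat_lit 0) (Fs.j (nat_lit 1633) Fs.nil)) (Tr.I true Q.jac (nat_lit 1382979) (nat_lit 4) (nat_lit 16) (nat_lit 0) (nat_lit 0) (Fs.j (nat_lit 1633) Fs.nil))) (Tr.node (Tr.I true Q.K (nat_lit 12) (nat_lit 24) (nat_lit 0) (nat_lit 1057) (nat_lit 0) (Fs.j (nat_lit 1617) Fs.nil)) (Tr.I false Q.jac (nat_lit 1382979) (nat_lit 8) (nat_lit 16) (nat_lit 0) (nat_lit 0) (Fs.j (nat_lit 1617)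 Fs.nil)))) (Tr.node (Tr.node (Tr.I true Q.jac (nat_lit 1382979) (nat_lit 8) (nat_lit 20) (nat_lit 0) (nat_lit 0) (Fs.j (nat_lit 1041) Fs.nil)) (Tr.I false Q.K (nat_lit 12) (nat_lit 24) (nat_lit 0) (nat_lit 1633) (nat_lit 0) (Fs.j (nat_lit 1041) Fs.nil))) (Tr.node (Tr.I true Q.G (nat_lit 1382995) (nat_lit 8) (nat_lit 0) (nat_lit 20) (nat_lit 16) Fs.nil) (Tr.I false Q.G (nat_lit 1382995) (nat_lit 8) (nat_lit 0) (nat_lit 16) (nat_lit 20) Fs.nil)))) (Tr.node (Tr.node (Tr.node (Tr.I false Q.G (nat_lit 1382995) (nat_lit 0) (nat_lit 8) (nat_lit 20) (nat_lit 16) Fs.nil) (Tr.I true Q.G (nat_lit 1382995) (nat_lit 0) (nat_lit 8) (nat_lit 16) (nat_lit 20) Fs.nil)) (Tr.node (Tr.I false Q.K (nat_lit 4) (nat_lit 24) (nat_lit 12) (nat_lit 20) (nat_lit 0) (Fs.j (nat_lit 278787) Fs.nil)) (Tr.I false Q.K (nat_lit 12) (nat_lit 24) (nat_lit 4)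 (nat_lit 1057) (nat_lit 0) (Fs.j (nat_lit 1601) Fs.nil)))) (Tr.node (Tr.node (Tr.I true Q.jac (nat_lit 1382995) (nat_lit 8) (nat_lit 16) (nat_lit 0) (nat_lit 0) (Fs.j (nat_lit 1601) Fs.nil)) (Tr.I true Q.jac (nat_lit 0) (nat_lit 1382995) (nat_lit 20) (nat_lit 0) (nat_lit 0) (Fs.j (nat_lit 1057) Fs.nil))) (Tr.node (Tr.I false Q.K (nat_lit 12) (nat_lit 24) (nat_lit 1601) (nat_lit 4) (nat_lit 0) (Fs.j (nat_lit 1057) Fs.nil)) (Tr.I true Q.K (nat_lit 12) (nat_lit 24) (nat_lit 4) (nat_lit 1633) (nat_lit 0) (Fs.j (nat_lit 1025) Fs.nil))))))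
def cS34 : Tr := (Tr.node (Tr.node (Tr.node (Tr.node (Tr.I false Q.jac (nat_lit 1382995) (nat_lit 8) (nat_lit 20) (nat_lit 0) (nat_lit 0) (Fs.j (nat_lit 1025) Fs.nil)) (Tr.I false Q.G (nat_lit 1383011) (nat_lit 4) (nat_lit 0) (nat_lit 20) (nat_lit 16) Fs.nil)) (Tr.node (Tr.I true Q.G (nat_lit 1383011) (nat_lit 4) (nat_lit 0) (nat_lit 16) (nat_lit 20) Fs.nil) (Tr.I true Q.G (nat_lit 1383011) (nat_lit 0) (nat_lit 4) (nat_lit 20) (nat_lit 16) Fs.nil))) (Tr.node (Tr.node (Tr.I false Q.G (nat_lit 1383011) (nat_lit 0) (nat_lit 4) (nat_lit 16) (nat_lit 20) Fs.nil) (Tr.I true Q.K (nat_lit 8) (nat_lit 24) (nat_lit 12) (nat_lit 20) (nat_lit 0) (Fs.j (nat_lit 270403) Fs.nil))) (Tr.node (Tr.I true Q.G (nat_lit 1401859) (nat_lit 12) (nat_lit 4) (nat_lit 20) (nat_lit 8) Fs.nil) (Tr.I false Q.G (nat_lit 1401859) (nat_lit 8) (nat_lit 4) (nat_lit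 20) (nat_lit 12) Fs.nil)))) (Tr.node (Tr.node (Tr.node (Tr.I false Q.G (nat_lit 1401859) (nat_lit 12) (nat_lit 8) (nat_lit 20) (nat_lit 4) Fs.nil) (Tr.I true Q.G (nat_lit 1401859) (nat_lit 4) (nat_lit 8) (nat_lit 20) (nat_lit 12) Fs.nil)) (Tr.node (Tr.I true Q.G (nat_lit 1401859) (nat_lit 8) (nat_lit 12) (nat_lit 20) (nat_lit 4) Fs.nil) (Tr.I false Q.G (nat_lit 1401859) (nat_lit 4) (nat_lit 12) (nat_lit 20) (nat_lit 8) Fs.nil))) (Tr.node (Tr.node (Tr.I false Q.jac (nat_lit 1401859) (nat_lit 4) (nat_lit 8) (nat_lit 0) (nat_lit 0) (Fs.j (nat_lit 1649) Fs.nil)) (Tr.I true Q.K (nat_lit 16) (nat_lit 24) (nat_lit 0) (nat_lit 273) (nat_lit 0) (Fs.j (nat_lit 1649) Fs.nil))) (Tr.node (Tr.I true Q.jac (nat_lit 1401859) (nat_lit 4) (nat_lit 12) (nat_lit 0) (nat_lit 0) (Fs.j (nat_lit 1633) Fs.nil)) (Tr.I false Q.K (nat_lit 16) (nat_lit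 24) (nat_lit 0) (nat_lit 593) (nat_lit 0) (Fs.j (nat_lit 1633) Fs.nil))))))
def cS35 : Tr := (Tr.node (Tr.node (Tr.node (Tr.node (Tr.I false Q.jac (nat_lit 1401859) (nat_lit 8) (nat_lit 12) (nat_lit 0) (nat_lit 0) (Fs.j (nat_lit 1617) Fs.nil)) (Tr.I true Q.K (nat_lit 16) (nat_lit 24) (nat_lit 0) (nat_lit 609) (nat_lit 0) (Fs.j (nat_lit 1617) Fs.nil))) (Tr.node (Tr.I false Q.G (nat_lit 1401875) (nat_lit 12) (nat_lit 0) (nat_lit 20) (nat_lit 8) Fs.nil) (Tr.I true Q.G (nat_lit 1401875) (nat_lit 8) (nat_lit 0) (nat_lit 20) (nat_lit 12) Fs.nil))) (Tr.node (Tr.node (Tr.I true Q.G (nat_lit 1401875) (nat_lit 12) (nat_lit 8) (nat_lit 20) (nat_lit 0) Fs.nil) (Tr.I false Q.G (nat_lit 1401875) (nat_lit 0) (nat_lit 8) (nat_lit 20) (nat_lit 12) Fs.nil)) (Tr.node (Tr.I false Q.G (nat_lit 1401875) (nat_lit 8) (nat_lit 12) (nat_lit 20) (nat_lit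 0) Fs.nil) (Tr.I true Q.G (nat_lit 1401875) (nat_lit 0) (nat_lit 12) (nat_lit 20) (nat_lit 8) Fs.nil)))) (Tr.node (Tr.node (Tr.node (Tr.I true Q.jac (nat_lit 1401875) (nat_lit 8) (nat_lit 12) (nat_lit 0) (nat_lit 0) (Fs.j (nat_lit 1601) Fs.nil)) (Tr.I false Q.K (nat_lit 16) (nat_lit 24) (nat_lit 4) (nat_lit 609) (nat_lit 0) (Fs.j (nat_lit 1601) Fs.nil))) (Tr.node (Tr.I true Q.jac (nat_lit 0) (nat_lit 1401875) (nat_lit 20) (nat_lit 0) (nat_lit 0) (Fs.j (nat_lit 609) Fs.nil)) (Tr.I false Q.K (nat_lit 16) (nat_lit 24) (nat_lit 1601) (nat_lit 4) (nat_lit 0) (Fs.j (nat_lit 609) Fs.nil)))) (Tr.node (Tr.node (Tr.I true Q.G (nat_lit 1401891) (nat_lit 12) (nat_lit 0) (nat_lit 20) (nat_lit 4) Fs.nil) (Tr.I false Q.G (nat_lit 1401891) (nat_lit 4) (nat_lit 0) (nat_lit 20) (nat_lit 12) Fs.nil)) (Tr.node (Tr.I false Q.G (nat_lit 1401891)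 (nat_lit 12) (nat_lit 4) (nat_lit 20) (nat_lit 0) Fs.nil) (Tr.I true Q.G (nat_lit 1401891) (nat_lit 0) (nat_lit 4) (nat_lit 20) (nat_lit 12) Fs.nil)))))
def cS36 : Tr := (Tr.node (Tr.node (Tr.node (Tr.node (Tr.I true Q.G (nat_lit 1401891) (nat_lit 4) (nat_lit 12) (nat_lit 20) (nat_lit 0) Fs.nil) (Tr.I false Q.G (nat_lit 1401891) (nat_lit 0) (nat_lit 12) (nat_lit 20) (nat_lit 4) Fs.nil)) (Tr.node (Tr.I false Q.jac (nat_lit 0) (nat_lit 1401891) (nat_lit 20) (nat_lit 0) (nat_lit 0) (Fs.j (nat_lit 593) Fs.nil)) (Tr.I true Q.K (nat_lit 16) (nat_lit 24) (nat_lit 1601) (nat_lit 8) (nat_lit 0) (Fs.j (nat_lit 593) Fs.nil)))) (Tr.node (Tr.node (Tr.I false Q.K (nat_lit 16) (nat_lit 24) (nat_lit 1617) (nat_lit 8) (nat_lit 0) (Fs.j (nat_lit 577) Fs.nil)) (Tr.I true Q.jac (nat_lit 4) (nat_lit 1401891) (nat_lit 20) (nat_lit 0) (nat_lit 0)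 (Fs.j (nat_lit 577) Fs.nil))) (Tr.node (Tr.I false Q.G (nat_lit 1401907) (nat_lit 8) (nat_lit 0) (nat_lit 20) (nat_lit 4) Fs.nil) (Tr.I true Q.G (nat_lit 1401907) (nat_lit 4) (nat_lit 0) (nat_lit 20) (nat_lit 8) Fs.nil)))) (Tr.node (Tr.node (Tr.node (Tr.I true Q.G (nat_lit 1401907) (nat_lit 8) (nat_lit 4) (nat_lit 20) (nat_lit 0) Fs.nil) (Tr.I false Q.G (nat_lit 1401907) (nat_lit 0) (nat_lit 4) (nat_lit 20) (nat_lit 8) Fs.nil)) (Tr.node (Tr.I false Q.G (nat_lit 1401907) (nat_lit 4) (nat_lit 8) (nat_lit 20) (nat_lit 0) Fs.nil) (Tr.I true Q.G (nat_lit 1401907) (nat_lit 0) (nat_lit 8) (nat_lit 20) (nat_lit 4) Fs.nil))) (Tr.node (Tr.node (Tr.I true Q.jac (nat_lit 0) (nat_lit 1401907) (nat_lit 20) (nat_lit 0) (nat_lit 0) (Fs.j (nat_lit 273) Fs.nil)) (Tr.I false Q.K (nat_lit 16) (nat_lit 24) (nat_lit 1601) (nat_lit 12) (nat_lit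 0) (Fs.j (nat_lit 273) Fs.nil))) (Tr.node (Tr.I true Q.K (nat_lit 16) (nat_lit 24) (nat_lit 1617) (nat_lit 12) (nat_lit 0) (Fs.j (nat_lit 257) Fs.nil)) (Tr.I false Q.jac (nat_lit 4) (nat_lit 1401907) (nat_lit 20) (nat_lit 0) (nat_lit 0) (Fs.j (nat_lit 257) Fs.nil))))))
def cS37 : Tr := (Tr.node (Tr.node (Tr.node (Tr.node (Tr.I false Q.K (nat_lit 16) (nat_lit 24) (nat_lit 1633) (nat_lit 12) (nat_lit 0) (Fs.j (nat_lit 65) Fs.nil)) (Tr.I true Q.jac (nat_lit 8) (nat_lit 1401907) (nat_lit 20) (nat_lit 0) (nat_lit 0) (Fs.j (nat_lit 65) Fs.nil))) (Tr.node (Tr.I false Q.G (nat_lit 1420867) (nat_lit 12) (nat_lit 4) (nat_lit 16) (nat_lit 8) Fs.nil) (Tr.I true Q.G (nat_lit 1420867) (nat_lit 8) (nat_lit 4) (nat_lit 16) (nat_lit 12) Fs.nil))) (Tr.node (Tr.node (Tr.I true Q.G (nat_lit 1420867) (nat_lit 12) (nat_lit 8) (nat_lit 16) (nat_lit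 4) Fs.nil) (Tr.I false Q.G (nat_lit 1420867) (nat_lit 4) (nat_lit 8) (nat_lit 16) (nat_lit 12) Fs.nil)) (Tr.node (Tr.I false Q.G (nat_lit 1420867) (nat_lit 8) (nat_lit 12) (nat_lit 16) (nat_lit 4) Fs.nil) (Tr.I true Q.G (nat_lit 1420867) (nat_lit 4) (nat_lit 12) (nat_lit 16) (nat_lit 8) Fs.nil)))) (Tr.node (Tr.node (Tr.node (Tr.I true Q.jac (nat_lit 1420867) (nat_lit 4) (nat_lit 8) (nat_lit 0) (nat_lit 0) (Fs.j (nat_lit 1073) Fs.nil)) (Tr.I false Q.K (nat_lit 20) (nat_lit 24) (nat_lit 0) (nat_lit 273) (nat_lit 0) (Fs.j (nat_lit 1073) Fs.nil))) (Tr.node (Tr.I false Q.K (nat_lit 20) (nat_lit 24) (nat_lit 0) (nat_lit 593) (nat_lit 0) (Fs.j (nat_lit 1057) Fs.nil)) (Tr.I true Q.jac (nat_lit 1420867) (nat_lit 4) (nat_lit 12) (nat_lit 0) (nat_lit 0) (Fs.j (nat_lit 1057) Fs.nil)))) (Tr.node (Tr.node (Tr.I true Q.jac (nat_lit 1420867)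 (nat_lit 8) (nat_lit 12) (nat_lit 0) (nat_lit 0) (Fs.j (nat_lit 1041) Fs.nil)) (Tr.I false Q.K (nat_lit 20) (nat_lit 24) (nat_lit 0) (nat_lit 609) (nat_lit 0) (Fs.j (nat_lit 1041) Fs.nil))) (Tr.node (Tr.I false Q.K (nat_lit 20) (nat_lit 24) (nat_lit 0) (nat_lit 1041) (nat_lit 0) (Fs.j (nat_lit 609) Fs.nil)) (Tr.I true Q.jac (nat_lit 1420867) (nat_lit 4) (nat_lit 16) (nat_lit 0) (nat_lit 0) (Fs.j (nat_lit 609) Fs.nil))))))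
def cS38 : Tr := (Tr.node (Tr.node (Tr.node (Tr.node (Tr.I true Q.K (nat_lit 20) (nat_lit 24) (nat_lit 0) (nat_lit 1057) (nat_lit 0) (Fs.j (nat_lit 593) Fs.nil)) (Tr.I false Q.jac (nat_lit 1420867) (nat_lit 8) (nat_lit 16) (nat_lit 0) (nat_lit 0) (Fs.j (nat_lit 593) Fs.nil))) (Tr.node (Tr.I false Q.K (nat_lit 20) (nat_lit 24) (nat_lit 0) (nat_lit 1073) (nat_lit 0) (Fs.j (nat_lit 273) Fs.nil)) (Tr.I true Q.jac (nat_lit 1420867) (nat_lit 12) (nat_lit 16) (nat_lit 0) (nat_lit 0) (Fs.j (nat_lit 273) Fs.nil)))) (Tr.node (Tr.node (Tr.I true Q.G (nat_lit 1420883) (nat_lit 12) (nat_lit 0) (nat_lit 16) (nat_lit 8) Fs.nil) (Tr.I false Q.G (nat_lit 1420883) (nat_lit 8) (nat_lit 0) (nat_lit 16) (nat_lit 12) Fs.nil)) (Tr.node (Tr.I false Q.G (nat_lit 1420883) (nat_lit 12) (nat_lit 8) (nat_lit 16) (nat_lit 0) Fs.nil) (Tr.I true Q.G (nat_lit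 1420883) (nat_lit 0) (nat_lit 8) (nat_lit 16) (nat_lit 12) Fs.nil)))) (Tr.node (Tr.node (Tr.node (Tr.I true Q.G (nat_lit 1420883) (nat_lit 8) (nat_lit 12) (nat_lit 16) (nat_lit 0) Fs.nil) (Tr.I false Q.G (nat_lit 1420883) (nat_lit 0) (nat_lit 12) (nat_lit 16) (nat_lit 8) Fs.nil)) (Tr.node (Tr.I false Q.jac (nat_lit 0) (nat_lit 1420883) (nat_lit 12) (nat_lit 0) (nat_lit 0) (Fs.j (nat_lit 1057) Fs.nil)) (Tr.I true Q.K (nat_lit 20) (nat_lit 24) (nat_lit 577) (nat_lit 4) (nat_lit 0) (Fs.j (nat_lit 1057) Fs.nil)))) (Tr.node (Tr.node (Tr.I false Q.jac (nat_lit 1420883) (nat_lit 8) (nat_lit 12) (nat_lit 0) (nat_lit 0) (Fs.j (nat_lit 1025) Fs.nil)) (Tr.I true Q.K (nat_lit 20) (nat_lit 24) (nat_lit 4) (nat_lit 609) (nat_lit 0) (Fs.j (nat_lit 1025) Fs.nil))) (Tr.node (Tr.I true Q.K (nat_lit 20) (nat_lit 24) (nat_lit 1025) (nat_lit 4)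 (nat_lit 0) (Fs.j (nat_lit 609) Fs.nil)) (Tr.I false Q.jac (nat_lit 0) (nat_lit 1420883) (nat_lit 16) (nat_lit 0) (nat_lit 0) (Fs.j (nat_lit 609) Fs.nil))))))
def cS39 : Tr := (Tr.node (Tr.node (Tr.node (Tr.node (Tr.I false Q.K (nat_lit 20) (nat_lit 24) (nat_lit 4) (nat_lit 1057) (nat_lit 0) (Fs.j (nat_lit 577) Fs.nil)) (Tr.I true Q.jac (nat_lit 1420883) (nat_lit 8) (nat_lit 16) (nat_lit 0) (nat_lit 0) (Fs.j (nat_lit 577) Fs.nil))) (Tr.node (Tr.I true Q.K (nat_lit 20) (nat_lit 24) (nat_lit 4) (nat_lit 1073) (nat_lit 0) (Fs.j (nat_lit 257) Fs.nil)) (Tr.I false Q.jac (nat_lit 1420883) (nat_lit 12) (nat_lit 16) (nat_lit 0) (nat_lit 0) (Fs.j (nat_lit 257) Fs.nil)))) (Tr.node (Tr.node (Tr.I false Q.G (nat_lit 1420899) (nat_lit 12) (nat_lit 0) (nat_lit 16) (nat_lit 4) Fs.nil) (Tr.I true Q.G (nat_lit 1420899) (nat_lit 4) (nat_lit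 0) (nat_lit 16) (nat_lit 12) Fs.nil)) (Tr.node (Tr.I true Q.G (nat_lit 1420899) (nat_lit 12) (nat_lit 4) (nat_lit 16) (nat_lit 0) Fs.nil) (Tr.I false Q.G (nat_lit 1420899) (nat_lit 0) (nat_lit 4) (nat_lit 16) (nat_lit 12) Fs.nil)))) (Tr.node (Tr.node (Tr.node (Tr.I false Q.G (nat_lit 1420899) (nat_lit 4) (nat_lit 12) (nat_lit 16) (nat_lit 0) Fs.nil) (Tr.I true Q.G (nat_lit 1420899) (nat_lit 0) (nat_lit 12) (nat_lit 16) (nat_lit 4) Fs.nil)) (Tr.node (Tr.I true Q.jac (nat_lit 0) (nat_lit 1420899) (nat_lit 16) (nat_lit 0) (nat_lit 0) (Fs.j (nat_lit 593) Fs.nil)) (Tr.I false Q.K (nat_lit 20) (nat_lit 24) (nat_lit 1025) (nat_lit 8) (nat_lit 0) (Fs.j (nat_lit 593) Fs.nil)))) (Tr.node (Tr.node (Tr.I true Q.K (nat_lit 20) (nat_lit 24) (nat_lit 1041) (nat_lit 8) (nat_lit 0) (Fs.j (nat_lit 577) Fs.nil)) (Tr.I false Q.jac (nat_lit 4)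 (nat_lit 1420899) (nat_lit 16) (nat_lit 0) (nat_lit 0) (Fs.j (nat_lit 577) Fs.nil))) (Tr.node (Tr.I false Q.K (nat_lit 20) (nat_lit 24) (nat_lit 8) (nat_lit 1073) (nat_lit 0) (Fs.j (nat_lit 65) Fs.nil)) (Tr.I true Q.jac (nat_lit 1420899) (nat_lit 12) (nat_lit 16) (nat_lit 0) (nat_lit 0) (Fs.j (nat_lit 65) Fs.nil))))))
def cS40 : Tr := (Tr.node (Tr.node (Tr.node (Tr.node (Tr.I true Q.G (nat_lit 1420915) (nat_lit 8) (nat_lit 0) (nat_lit 16) (nat_lit 4) Fs.nil) (Tr.I false Q.G (nat_lit 1420915) (nat_lit 4) (nat_lit 0) (nat_lit 16) (nat_lit 8) Fs.nil)) (Tr.node (Tr.I false Q.G (nat_lit 1420915) (nat_lit 8) (nat_lit 4) (nat_lit 16) (nat_lit 0) Fs.nil) (Tr.I true Q.G (nat_lit 1420915) (nat_lit 0) (nat_lit 4) (nat_lit 16) (nat_lit 8) Fs.nil))) (Tr.node (Tr.node (Tr.I true Q.G (nat_lit 1420915) (nat_lit 4) (nat_lit 8) (nat_lit 16)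 (nat_lit 0) Fs.nil) (Tr.I false Q.G (nat_lit 1420915) (nat_lit 0) (nat_lit 8) (nat_lit 16) (nat_lit 4) Fs.nil)) (Tr.node (Tr.I false Q.jac (nat_lit 0) (nat_lit 4) (nat_lit 1420915) (nat_lit 0) (nat_lit 0) (Fs.j (nat_lit 1057) Fs.nil)) (Tr.I false Q.K (nat_lit 20) (nat_lit 24) (nat_lit 65) (nat_lit 12) (nat_lit 0) (Fs.j (nat_lit 1057) Fs.nil))))) (Tr.node (Tr.node (Tr.node (Tr.I false Q.jac (nat_lit 0) (nat_lit 1420915) (nat_lit 16) (nat_lit 0) (nat_lit 0) (Fs.j (nat_lit 273) Fs.nil)) (Tr.I true Q.K (nat_lit 20) (nat_lit 24) (nat_lit 1025) (nat_lit 12) (nat_lit 0) (Fs.j (nat_lit 273) Fs.nil))) (Tr.node (Tr.I true Q.jac (nat_lit 4) (nat_lit 1420915) (nat_lit 16) (nat_lit 0) (nat_lit 0) (Fs.j (nat_lit 257) Fs.nil)) (Tr.I false Q.K (nat_lit 20) (nat_lit 24) (nat_lit 1041) (nat_lit 12) (nat_lit 0) (Fs.j (nat_lit 257) Fs.nil))))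 (Tr.node (Tr.node (Tr.I true Q.K (nat_lit 20) (nat_lit 24) (nat_lit 1057) (nat_lit 12) (nat_lit 0) (Fs.j (nat_lit 65) Fs.nil)) (Tr.I false Q.jac (nat_lit 8) (nat_lit 1420915) (nat_lit 16) (nat_lit 0) (nat_lit 0) (Fs.j (nat_lit 65) Fs.nil))) (Tr.node (Tr.I false Q.jac (nat_lit 0) (nat_lit 4) (nat_lit 1420931) (nat_lit 0) (nat_lit 0) (Fs.j (nat_lit 609) Fs.nil)) (Tr.I false Q.K (nat_lit 20) (nat_lit 24) (nat_lit 65) (nat_lit 16) (nat_lit 0) (Fs.j (nat_lit 609) Fs.nil))))))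
def cS41 : Tr := (Tr.node (Tr.node (Tr.node (Tr.node (Tr.I true Q.jac (nat_lit 0) (nat_lit 8) (nat_lit 1420931) (nat_lit 0) (nat_lit 0) (Fs.j (nat_lit 593) Fs.nil)) (Tr.I true Q.K (nat_lit 20) (nat_lit 24) (nat_lit 257) (nat_lit 16) (nat_lit 0) (Fs.j (nat_lit 593) Fs.nil))) (Tr.node (Tr.I false Q.jac (nat_lit 4) (nat_lit 8) (nat_lit 1420931) (nat_lit 0) (nat_lit 0) (Fs.j (nat_lit 577) Fs.nil)) (Tr.I false Q.K (nat_lit 20) (nat_lit 24) (nat_lit 273) (nat_lit 16) (nat_lit 0) (Fs.j (nat_lit 577) Fs.nil)))) (Tr.node (Tr.node (Tr.I false Q.jac (nat_lit 0) (nat_lit 12) (nat_lit 1420931) (nat_lit 0) (nat_lit 0) (Fs.j (nat_lit 273) Fs.nil)) (Tr.I false Q.K (nat_lit 20) (nat_lit 24) (nat_lit 577) (nat_lit 16) (nat_lit 0) (Fs.j (nat_lit 273) Fs.nil))) (Tr.node (Tr.I true Q.jac (nat_lit 4) (nat_lit 12) (nat_lit 1420931) (nat_lit 0) (nat_lit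 0) (Fs.j (nat_lit 257) Fs.nil)) (Tr.I true Q.K (nat_lit 20) (nat_lit 24) (nat_lit 593) (nat_lit 16) (nat_lit 0) (Fs.j (nat_lit 257) Fs.nil))))) (Tr.node (Tr.node (Tr.node (Tr.I false Q.K (nat_lit 20) (nat_lit 24) (nat_lit 609) (nat_lit 16) (nat_lit 0) (Fs.j (nat_lit 65) Fs.nil)) (Tr.I false Q.jac (nat_lit 8) (nat_lit 12) (nat_lit 1420931) (nat_lit 0) (nat_lit 0) (Fs.j (nat_lit 65) Fs.nil))) (Tr.node (Tr.I true Q.G (nat_lit 2353) (nat_lit 4) (nat_lit 8) (nat_lit 16) (nat_lit 1601) Fs.nil) (Tr.I false Q.G (nat_lit 2353) (nat_lit 8) (nat_lit 4) (nat_lit 16) (nat_lit 1601) Fs.nil))) (Tr.node (Tr.node (Tr.I false Q.G (nat_lit 2337) (nat_lit 4) (nat_lit 12) (nat_lit 16) (nat_lit 1601) Fs.nil) (Tr.I true Q.G (nat_lit 2337) (nat_lit 12) (nat_lit 4) (nat_lit 16) (nat_lit 1601) Fs.nil)) (Tr.node (Tr.I true Q.G (nat_lit 2321) (nat_lit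 8) (nat_lit 12) (nat_lit 16) (nat_lit 1601) Fs.nil) (Tr.I false Q.G (nat_lit 2321) (nat_lit 12) (nat_lit 8) (nat_lit 16) (nat_lit 1601) Fs.nil)))))
def cS42 : Tr := (Tr.node (Tr.node (Tr.node (Tr.node (Tr.I true Q.G (nat_lit 609) (nat_lit 16) (nat_lit 4) (nat_lit 24) (nat_lit 1601) Fs.nil) (Tr.I false Q.jac (nat_lit 8) (nat_lit 12) (nat_lit 24) (nat_lit 0) (nat_lit 0) (Fs.j (nat_lit 26280325556375) Fs.nil))) (Tr.node (Tr.I false Q.G (nat_lit 593) (nat_lit 16) (nat_lit 8) (nat_lit 24) (nat_lit 1601) Fs.nil) (Tr.I true Q.jac (nat_lit 4) (nat_lit 12) (nat_lit 24) (nat_lit 0) (nat_lit 0) (Fs.j (nat_lit 26280325556391) Fs.nil)))) (Tr.node (Tr.node (Tr.I true Q.G (nat_lit 273) (nat_lit 16) (nat_lit 12) (nat_lit 24) (nat_lit 1601) Fs.nil) (Tr.I false Q.jac (nat_lit 4) (nat_lit 8) (nat_lit 24) (nat_lit 0) (nat_lit 0) (Fs.j (nat_lit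 26280325556407) Fs.nil))) (Tr.node (Tr.I false Q.jac (nat_lit 4) (nat_lit 8) (nat_lit 12) (nat_lit 0) (nat_lit 0) (Fs.j (nat_lit 26280489602567) Fs.nil)) (Tr.I true Q.F (nat_lit 0) (nat_lit 273) (nat_lit 20) (nat_lit 12) (nat_lit 0) (Fs.j (nat_lit 2369) Fs.nil))))) (Tr.node (Tr.node (Tr.node (Tr.I false Q.R (nat_lit 0) (nat_lit 20) (nat_lit 4) (nat_lit 12) (nat_lit 8) (Fs.j (nat_lit 2369) Fs.nil)) (Tr.I false Q.R (nat_lit 4) (nat_lit 8) (nat_lit 0) (nat_lit 12) (nat_lit 20) (Fs.j (nat_lit 2369) Fs.nil))) (Tr.node (Tr.I true Q.adt (nat_lit 1601) (nat_lit 8) (nat_lit 16) (nat_lit 4) (nat_lit 0) (Fs.j (nat_lit 2353) Fs.nil)) (Tr.I true Q.R (nat_lit 0) (nat_lit 20) (nat_lit 4) (nat_lit 16) (nat_lit 8) (Fs.j (nat_lit 2353) Fs.nil)))) (Tr.node (Tr.node (Tr.I true Q.F (nat_lit 0) (nat_lit 273) (nat_lit 20) (nat_lit 16) (nat_lit 0)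 (Fs.j (nat_lit 2353) Fs.nil)) (Tr.I true Q.R (nat_lit 4) (nat_lit 8) (nat_lit 0) (nat_lit 16) (nat_lit 20) (Fs.j (nat_lit 2353) Fs.nil))) (Tr.node (Tr.I false Q.adt (nat_lit 0) (nat_lit 273) (nat_lit 24) (nat_lit 20) (nat_lit 0) (Fs.j (nat_lit 1073) Fs.nil)) (Tr.I false Q.R (nat_lit 0) (nat_lit 20) (nat_lit 4) (nat_lit 24) (nat_lit 8) (Fs.j (nat_lit 1073) Fs.nil))))))
def cS43 : Tr := (Tr.node (Tr.node (Tr.node (Tr.node (Tr.I true Q.adt (nat_lit 273) (nat_lit 20) (nat_lit 24) (nat_lit 0) (nat_lit 0) (Fs.j (nat_lit 1073) Fs.nil)) (Tr.I true Q.F (nat_lit 0) (nat_lit 273) (nat_lit 20) (nat_lit 24) (nat_lit 0) (Fs.j (nat_lit 1073) Fs.nil))) (Tr.node (Tr.I false Q.adt (nat_lit 1601) (nat_lit 8) (nat_lit 24) (nat_lit 4) (nat_lit 0) (Fs.j (nat_lit 1073) Fs.nil)) (Tr.I false Q.adt (nat_lit 1601) (nat_lit 12) (nat_lit 16) (nat_lit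 4) (nat_lit 0) (Fs.j (nat_lit 2337) Fs.nil)))) (Tr.node (Tr.node (Tr.I true Q.F (nat_lit 0) (nat_lit 593) (nat_lit 20) (nat_lit 16) (nat_lit 0) (Fs.j (nat_lit 2337) Fs.nil)) (Tr.I false Q.R (nat_lit 0) (nat_lit 20) (nat_lit 4) (nat_lit 16) (nat_lit 12) (Fs.j (nat_lit 2337) Fs.nil))) (Tr.node (Tr.I true Q.adt (nat_lit 0) (nat_lit 593) (nat_lit 24) (nat_lit 20) (nat_lit 0) (Fs.j (nat_lit 1057) Fs.nil)) (Tr.I false Q.adt (nat_lit 593) (nat_lit 20) (nat_lit 24) (nat_lit 0) (nat_lit 0) (Fs.j (nat_lit 1057) Fs.nil))))) (Tr.node (Tr.node (Tr.node (Tr.I false Q.F (nat_lit 0) (nat_lit 593) (nat_lit 20) (nat_lit 24) (nat_lit 0) (Fs.j (nat_lit 1057) Fs.nil)) (Tr.I true Q.R (nat_lit 0) (nat_lit 20) (nat_lit 4) (nat_lit 24) (nat_lit 12) (Fs.j (nat_lit 1057) Fs.nil))) (Tr.node (Tr.I true Q.adt (nat_lit 1601) (nat_lit 12) (nat_lit 24) (nat_lit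 4) (nat_lit 0) (Fs.j (nat_lit 1057) Fs.nil)) (Tr.I true Q.F (nat_lit 1601) (nat_lit 8) (nat_lit 16) (nat_lit 12) (nat_lit 0) (Fs.j (nat_lit 2321) Fs.nil)))) (Tr.node (Tr.node (Tr.I false Q.adt (nat_lit 1601) (nat_lit 12) (nat_lit 16) (nat_lit 8) (nat_lit 0) (Fs.j (nat_lit 2321) Fs.nil)) (Tr.I true Q.R (nat_lit 0) (nat_lit 20) (nat_lit 8) (nat_lit 16) (nat_lit 12) (Fs.j (nat_lit 2321) Fs.nil))) (Tr.node (Tr.I true Q.F (nat_lit 0) (nat_lit 609) (nat_lit 20) (nat_lit 24) (nat_lit 0) (Fs.j (nat_lit 1041) Fs.nil)) (Tr.I false Q.adt (nat_lit 0) (nat_lit 609) (nat_lit 24) (nat_lit 20) (nat_lit 0) (Fs.j (nat_lit 1041) Fs.nil))))))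
def cS44 : Tr := (Tr.node (Tr.node (Tr.node (Tr.node (Tr.I false Q.R (nat_lit 0) (nat_lit 20) (nat_lit 8) (nat_lit 24) (nat_lit 12) (Fs.j (nat_lit 1041) Fs.nil)) (Tr.I false Q.adt (nat_lit 1601) (nat_lit 12) (nat_lit 24) (nat_lit 8) (nat_lit 0) (Fs.j (nat_lit 1041) Fs.nil))) (Tr.node (Tr.I true Q.adt (nat_lit 609) (nat_lit 20) (nat_lit 24) (nat_lit 0) (nat_lit 0) (Fs.j (nat_lit 1041) Fs.nil)) (Tr.I true Q.F (nat_lit 1601) (nat_lit 4) (nat_lit 8) (nat_lit 16) (nat_lit 0) (Fs.j (nat_lit 2353) Fs.nil)))) (Tr.node (Tr.node (Tr.I false Q.F (nat_lit 0) (nat_lit 1041) (nat_lit 20) (nat_lit 8) (nat_lit 0) (Fs.j (nat_lit 2353) Fs.nil)) (Tr.I false Q.F (nat_lit 1601) (nat_lit 4) (nat_lit 12) (nat_lit 16) (nat_lit 0) (Fs.j (nat_lit 2337) Fs.nil))) (Tr.node (Tr.I true Q.F (nat_lit 0) (nat_lit 1041) (nat_lit 20) (nat_lit 12) (nat_lit 0)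 (Fs.j (nat_lit 2337) Fs.nil)) (Tr.I true Q.R (nat_lit 4) (nat_lit 16) (nat_lit 0) (nat_lit 24) (nat_lit 20) (Fs.j (nat_lit 609) Fs.nil))))) (Tr.node (Tr.node (Tr.node (Tr.I false Q.adt (nat_lit 1601) (nat_lit 4) (nat_lit 24) (nat_lit 16) (nat_lit 0) (Fs.j (nat_lit 609) Fs.nil)) (Tr.I true Q.adt (nat_lit 0) (nat_lit 1041) (nat_lit 24) (nat_lit 20) (nat_lit 0) (Fs.j (nat_lit 609) Fs.nil))) (Tr.node (Tr.I false Q.adt (nat_lit 1041) (nat_lit 20) (nat_lit 24) (nat_lit 0) (nat_lit 0) (Fs.j (nat_lit 609) Fs.nil)) (Tr.I true Q.adt (nat_lit 1601) (nat_lit 16) (nat_lit 24) (nat_lit 4) (nat_lit 0) (Fs.j (nat_lit 609) Fs.nil)))) (Tr.node (Tr.node (Tr.I false Q.F (nat_lit 0) (nat_lit 1057) (nat_lit 20) (nat_lit 4) (nat_lit 0) (Fs.j (nat_lit 2353) Fs.nil)) (Tr.I true Q.F (nat_lit 0) (nat_lit 1057) (nat_lit 20) (nat_lit 12) (nat_lit 0) (Fs.j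 (nat_lit 2321) Fs.nil))) (Tr.node (Tr.I true Q.adt (nat_lit 0) (nat_lit 1057) (nat_lit 24) (nat_lit 20) (nat_lit 0) (Fs.j (nat_lit 593) Fs.nil)) (Tr.I false Q.R (nat_lit 8) (nat_lit 16) (nat_lit 0) (nat_lit 24) (nat_lit 20) (Fs.j (nat_lit 593) Fs.nil))))))
def cS45 : Tr := (Tr.node (Tr.node (Tr.node (Tr.node (Tr.I false Q.adt (nat_lit 1601) (nat_lit 8) (nat_lit 24) (nat_lit 16) (nat_lit 0) (Fs.j (nat_lit 593) Fs.nil)) (Tr.I true Q.adt (nat_lit 1057) (nat_lit 20) (nat_lit 24) (nat_lit 0) (nat_lit 0) (Fs.j (nat_lit 593) Fs.nil))) (Tr.node (Tr.I false Q.adt (nat_lit 1601) (nat_lit 16) (nat_lit 24) (nat_lit 8) (nat_lit 0) (Fs.j (nat_lit 593) Fs.nil)) (Tr.I true Q.F (nat_lit 0) (nat_lit 1073) (nat_lit 20) (nat_lit 4) (nat_lit 0) (Fs.j (nat_lit 2337) Fs.nil)))) (Tr.node (Tr.node (Tr.I false Q.F (nat_lit 0) (nat_lit 1073) (nat_lit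 20) (nat_lit 8) (nat_lit 0) (Fs.j (nat_lit 2321) Fs.nil)) (Tr.I false Q.adt (nat_lit 0) (nat_lit 1073) (nat_lit 24) (nat_lit 20) (nat_lit 0) (Fs.j (nat_lit 273) Fs.nil))) (Tr.node (Tr.I true Q.R (nat_lit 12) (nat_lit 16) (nat_lit 0) (nat_lit 24) (nat_lit 20) (Fs.j (nat_lit 273) Fs.nil)) (Tr.I true Q.adt (nat_lit 1601) (nat_lit 12) (nat_lit 24) (nat_lit 16) (nat_lit 0) (Fs.j (nat_lit 273) Fs.nil))))) (Tr.node (Tr.node (Tr.node (Tr.I false Q.adt (nat_lit 1073) (nat_lit 20) (nat_lit 24) (nat_lit 0) (nat_lit 0) (Fs.j (nat_lit 273) Fs.nil)) (Tr.I true Q.adt (nat_lit 1601) (nat_lit 16) (nat_lit 24) (nat_lit 12) (nat_lit 0) (Fs.j (nat_lit 273) Fs.nil))) (Tr.node (Tr.I false Q.G (nat_lit 2353) (nat_lit 0) (nat_lit 8) (nat_lit 16) (nat_lit 1617) Fs.nil) (Tr.I true Q.G (nat_lit 2353) (nat_lit 8) (nat_lit 0) (nat_lit 16) (nat_lit 1617)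 Fs.nil))) (Tr.node (Tr.node (Tr.I true Q.G (nat_lit 2337) (nat_lit 0) (nat_lit 12) (nat_lit 16) (nat_lit 1617) Fs.nil) (Tr.I false Q.G (nat_lit 2337) (nat_lit 12) (nat_lit 0) (nat_lit 16) (nat_lit 1617) Fs.nil)) (Tr.node (Tr.I false Q.G (nat_lit 2305) (nat_lit 8) (nat_lit 12) (nat_lit 16) (nat_lit 1617) Fs.nil) (Tr.I true Q.G (nat_lit 2305) (nat_lit 12) (nat_lit 8) (nat_lit 16) (nat_lit 1617) Fs.nil)))))
def cS46 : Tr := (Tr.node (Tr.node (Tr.node (Tr.node (Tr.I false Q.G (nat_lit 609) (nat_lit 16) (nat_lit 0) (nat_lit 24) (nat_lit 1617) Fs.nil) (Tr.I true Q.jac (nat_lit 8) (nat_lit 12) (nat_lit 24) (nat_lit 0) (nat_lit 0) (Fs.j (nat_lit 27346728948103) Fs.nil))) (Tr.node (Tr.I true Q.G (nat_lit 577) (nat_lit 16) (nat_lit 8) (nat_lit 24) (nat_lit 1617) Fs.nil) (Tr.I false Q.jac (nat_lit 0) (nat_lit 12) (nat_lit 24) (nat_lit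 0) (nat_lit 0) (Fs.j (nat_lit 27346728948135) Fs.nil)))) (Tr.node (Tr.node (Tr.I false Q.G (nat_lit 257) (nat_lit 16) (nat_lit 12) (nat_lit 24) (nat_lit 1617) Fs.nil) (Tr.I true Q.jac (nat_lit 0) (nat_lit 8) (nat_lit 24) (nat_lit 0) (nat_lit 0) (Fs.j (nat_lit 27346728948151) Fs.nil))) (Tr.node (Tr.I true Q.jac (nat_lit 0) (nat_lit 8) (nat_lit 12) (nat_lit 0) (nat_lit 0) (Fs.j (nat_lit 27346896289543) Fs.nil)) (Tr.I true Q.R (nat_lit 0) (nat_lit 8) (nat_lit 4) (nat_lit 12) (nat_lit 20) (Fs.j (nat_lit 2369) Fs.nil))))) (Tr.node (Tr.node (Tr.node (Tr.I true Q.F (nat_lit 257) (nat_lit 4) (nat_lit 12) (nat_lit 20) (nat_lit 0) (Fs.j (nat_lit 2369) Fs.nil)) (Tr.I true Q.R (nat_lit 0) (nat_lit 8) (nat_lit 4) (nat_lit 16) (nat_lit 20) (Fs.j (nat_lit 2353) Fs.nil))) (Tr.node (Tr.I true Q.F (nat_lit 257) (nat_lit 4) (nat_lit 16) (nat_lit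 20) (nat_lit 0) (Fs.j (nat_lit 2353) Fs.nil)) (Tr.I false Q.F (nat_lit 257) (nat_lit 4) (nat_lit 24) (nat_lit 20) (nat_lit 0) (Fs.j (nat_lit 1073) Fs.nil)))) (Tr.node (Tr.node (Tr.I true Q.adt (nat_lit 257) (nat_lit 4) (nat_lit 24) (nat_lit 20) (nat_lit 0) (Fs.j (nat_lit 1073) Fs.nil)) (Tr.I false Q.adt (nat_lit 257) (nat_lit 20) (nat_lit 24) (nat_lit 4) (nat_lit 0) (Fs.j (nat_lit 1073) Fs.nil))) (Tr.node (Tr.I true Q.adt (nat_lit 1617) (nat_lit 8) (nat_lit 24) (nat_lit 0) (nat_lit 0) (Fs.j (nat_lit 1073) Fs.nil)) (Tr.I true Q.R (nat_lit 0) (nat_lit 12) (nat_lit 4) (nat_lit 8) (nat_lit 20) (Fs.j (nat_lit 2369) Fs.nil))))))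
def cS47 : Tr := (Tr.node (Tr.node (Tr.node (Tr.node (Tr.I false Q.F (nat_lit 577) (nat_lit 4) (nat_lit 8) (nat_lit 20) (nat_lit 0) (Fs.j (nat_lit 2369) Fs.nil)) (Tr.I false Q.R (nat_lit 0) (nat_lit 12) (nat_lit 4) (nat_lit 16) (nat_lit 20) (Fs.j (nat_lit 2337) Fs.nil))) (Tr.node (Tr.I false Q.F (nat_lit 577) (nat_lit 4) (nat_lit 16) (nat_lit 20) (nat_lit 0) (Fs.j (nat_lit 2337) Fs.nil)) (Tr.I false Q.adt (nat_lit 577) (nat_lit 4) (nat_lit 24) (nat_lit 20) (nat_lit 0) (Fs.j (nat_lit 1057) Fs.nil)))) (Tr.node (Tr.node (Tr.I true Q.adt (nat_lit 577) (nat_lit 20) (nat_lit 24) (nat_lit 4) (nat_lit 0) (Fs.j (nat_lit 1057) Fs.nil)) (Tr.I true Q.F (nat_lit 577) (nat_lit 4) (nat_lit 24) (nat_lit 20) (nat_lit 0) (Fs.j (nat_lit 1057) Fs.nil))) (Tr.node (Tr.I false Q.adt (nat_lit 1617) (nat_lit 12) (nat_lit 24) (nat_lit 0) (nat_lit 0)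 (Fs.j (nat_lit 1057) Fs.nil)) (Tr.I false Q.F (nat_lit 1617) (nat_lit 8) (nat_lit 16) (nat_lit 12) (nat_lit 0) (Fs.j (nat_lit 2305) Fs.nil))))) (Tr.node (Tr.node (Tr.node (Tr.I true Q.adt (nat_lit 1617) (nat_lit 12) (nat_lit 16) (nat_lit 8) (nat_lit 0) (Fs.j (nat_lit 2305) Fs.nil)) (Tr.I false Q.R (nat_lit 4) (nat_lit 20) (nat_lit 8) (nat_lit 16) (nat_lit 12) (Fs.j (nat_lit 2305) Fs.nil))) (Tr.node (Tr.I false Q.F (nat_lit 4) (nat_lit 609) (nat_lit 20) (nat_lit 24) (nat_lit 0) (Fs.j (nat_lit 1025) Fs.nil)) (Tr.I false Q.adt (nat_lit 609) (nat_lit 20) (nat_lit 24) (nat_lit 4) (nat_lit 0) (Fs.j (nat_lit 1025) Fs.nil)))) (Tr.node (Tr.node (Tr.I true Q.adt (nat_lit 4) (nat_lit 609) (nat_lit 24) (nat_lit 20) (nat_lit 0) (Fs.j (nat_lit 1025) Fs.nil)) (Tr.I true Q.R (nat_lit 4) (nat_lit 20) (nat_lit 8) (nat_lit 24) (nat_lit 12) (Fs.j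 (nat_lit 1025) Fs.nil))) (Tr.node (Tr.I true Q.adt (nat_lit 1617) (nat_lit 12) (nat_lit 24) (nat_lit 8) (nat_lit 0) (Fs.j (nat_lit 1025) Fs.nil)) (Tr.I false Q.F (nat_lit 1025) (nat_lit 4) (nat_lit 8) (nat_lit 20) (nat_lit 0) (Fs.j (nat_lit 2353) Fs.nil))))))
def cS48 : Tr := (Tr.node (Tr.node (Tr.node (Tr.node (Tr.I true Q.F (nat_lit 1025) (nat_lit 4) (nat_lit 12) (nat_lit 20) (nat_lit 0) (Fs.j (nat_lit 2337) Fs.nil)) (Tr.I true Q.R (nat_lit 0) (nat_lit 16) (nat_lit 4) (nat_lit 24) (nat_lit 20) (Fs.j (nat_lit 609) Fs.nil))) (Tr.node (Tr.I false Q.adt (nat_lit 1025) (nat_lit 4) (nat_lit 24) (nat_lit 20) (nat_lit 0) (Fs.j (nat_lit 609) Fs.nil)) (Tr.I false Q.adt (nat_lit 0) (nat_lit 1617) (nat_lit 24) (nat_lit 16) (nat_lit 0) (Fs.j (nat_lit 609) Fs.nil)))) (Tr.node (Tr.node (Tr.I true Q.adt (nat_lit 1025) (nat_lit 20) (nat_lit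 24) (nat_lit 4) (nat_lit 0) (Fs.j (nat_lit 609) Fs.nil)) (Tr.I false Q.adt (nat_lit 1617) (nat_lit 16) (nat_lit 24) (nat_lit 0) (nat_lit 0) (Fs.j (nat_lit 609) Fs.nil))) (Tr.node (Tr.I true Q.K (nat_lit 0) (nat_lit 1057) (nat_lit 4) (nat_lit 20) (nat_lit 0) (Fs.j (nat_lit 2353) Fs.nil)) (Tr.I false Q.F (nat_lit 4) (nat_lit 1057) (nat_lit 20) (nat_lit 12) (nat_lit 0) (Fs.j (nat_lit 2305) Fs.nil))))) (Tr.node (Tr.node (Tr.node (Tr.I true Q.adt (nat_lit 1617) (nat_lit 16) (nat_lit 24) (nat_lit 8) (nat_lit 0) (Fs.j (nat_lit 577) Fs.nil)) (Tr.I false Q.adt (nat_lit 4) (nat_lit 1057) (nat_lit 24) (nat_lit 20) (nat_lit 0) (Fs.j (nat_lit 577) Fs.nil))) (Tr.node (Tr.I true Q.R (nat_lit 8) (nat_lit 16) (nat_lit 4) (nat_lit 24) (nat_lit 20) (Fs.j (nat_lit 577) Fs.nil)) (Tr.I true Q.adt (nat_lit 1617) (nat_lit 8) (nat_lit 24) (nat_lit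 16) (nat_lit 0) (Fs.j (nat_lit 577) Fs.nil)))) (Tr.node (Tr.node (Tr.I false Q.adt (nat_lit 1057) (nat_lit 20) (nat_lit 24) (nat_lit 4) (nat_lit 0) (Fs.j (nat_lit 577) Fs.nil)) (Tr.I false Q.K (nat_lit 0) (nat_lit 1073) (nat_lit 4) (nat_lit 20) (nat_lit 0) (Fs.j (nat_lit 2337) Fs.nil))) (Tr.node (Tr.I true Q.F (nat_lit 4) (nat_lit 1073) (nat_lit 20) (nat_lit 8) (nat_lit 0) (Fs.j (nat_lit 2305) Fs.nil)) (Tr.I false Q.R (nat_lit 12) (nat_lit 16) (nat_lit 4) (nat_lit 24) (nat_lit 20) (Fs.j (nat_lit 257) Fs.nil))))))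
def cS49 : Tr := (Tr.node (Tr.node (Tr.node (Tr.node (Tr.I false Q.adt (nat_lit 1617) (nat_lit 12) (nat_lit 24) (nat_lit 16) (nat_lit 0) (Fs.j (nat_lit 257) Fs.nil)) (Tr.I true Q.adt (nat_lit 4) (nat_lit 1073) (nat_lit 24) (nat_lit 20) (nat_lit 0) (Fs.j (nat_lit 257) Fs.nil))) (Tr.node (Tr.I true Q.adt (nat_lit 1073) (nat_lit 20) (nat_lit 24) (nat_lit 4) (nat_lit 0) (Fs.j (nat_lit 257) Fs.nil)) (Tr.I false Q.adt (nat_lit 1617) (nat_lit 16) (nat_lit 24) (nat_lit 12) (nat_lit 0) (Fs.j (nat_lit 257) Fs.nil)))) (Tr.node (Tr.node (Tr.I true Q.G (nat_lit 2353) (nat_lit 0) (nat_lit 4) (nat_lit 16) (nat_lit 1633) Fs.nil) (Tr.I false Q.G (nat_lit 2353) (nat_lit 4) (nat_lit 0) (nat_lit 16) (nat_lit 1633) Fs.nil)) (Tr.node (Tr.I false Q.G (nat_lit 2321) (nat_lit 0) (nat_lit 12) (nat_lit 16) (nat_lit 1633) Fs.nil) (Tr.I true Q.G (nat_lit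 2321) (nat_lit 12) (nat_lit 0) (nat_lit 16) (nat_lit 1633) Fs.nil)))) (Tr.node (Tr.node (Tr.node (Tr.I true Q.G (nat_lit 2305) (nat_lit 4) (nat_lit 12) (nat_lit 16) (nat_lit 1633) Fs.nil) (Tr.I false Q.G (nat_lit 2305) (nat_lit 12) (nat_lit 4) (nat_lit 16) (nat_lit 1633) Fs.nil)) (Tr.node (Tr.I true Q.G (nat_lit 593) (nat_lit 16) (nat_lit 0) (nat_lit 24) (nat_lit 1633) Fs.nil) (Tr.I false Q.jac (nat_lit 4) (nat_lit 12) (nat_lit 24) (nat_lit 0) (nat_lit 0) (Fs.j (nat_lit 28445262228103) Fs.nil)))) (Tr.node (Tr.node (Tr.I false Q.G (nat_lit 577) (nat_lit 16) (nat_lit 4) (nat_lit 24) (nat_lit 1633) Fs.nil) (Tr.I true Q.jac (nat_lit 0) (nat_lit 12) (nat_lit 24) (nat_lit 0) (nat_lit 0) (Fs.j (nat_lit 28445262228119) Fs.nil))) (Tr.node (Tr.I true Q.G (nat_lit 65) (nat_lit 16) (nat_lit 12) (nat_lit 24) (nat_lit 1633) Fs.nil) (Tr.I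 false Q.jac (nat_lit 0) (nat_lit 4) (nat_lit 24) (nat_lit 0) (nat_lit 0) (Fs.j (nat_lit 28445262228151) Fs.nil))))))
def cS50 : Tr := (Tr.node (Tr.node (Tr.node (Tr.node (Tr.I false Q.jac (nat_lit 0) (nat_lit 4) (nat_lit 12) (nat_lit 0) (nat_lit 0) (Fs.j (nat_lit 28445432897543) Fs.nil)) (Tr.I false Q.R (nat_lit 0) (nat_lit 4) (nat_lit 8) (nat_lit 12) (nat_lit 20) (Fs.j (nat_lit 2369) Fs.nil))) (Tr.node (Tr.I false Q.F (nat_lit 65) (nat_lit 8) (nat_lit 12) (nat_lit 20) (nat_lit 0) (Fs.j (nat_lit 2369) Fs.nil)) (Tr.I true Q.F (nat_lit 0) (nat_lit 4) (nat_lit 1633) (nat_lit 16) (nat_lit 0) (Fs.j (nat_lit 2353) Fs.nil)))) (Tr.node (Tr.node (Tr.I false Q.R (nat_lit 0) (nat_lit 4) (nat_lit 8) (nat_lit 16) (nat_lit 20) (Fs.j (nat_lit 2353) Fs.nil)) (Tr.I true Q.F (nat_lit 65) (nat_lit 8) (nat_lit 16) (nat_lit 20) (nat_lit 0) (Fs.j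 (nat_lit 2353) Fs.nil))) (Tr.node (Tr.I true Q.F (nat_lit 65) (nat_lit 8) (nat_lit 24) (nat_lit 20) (nat_lit 0) (Fs.j (nat_lit 1073) Fs.nil)) (Tr.I false Q.adt (nat_lit 65) (nat_lit 8) (nat_lit 24) (nat_lit 20) (nat_lit 0) (Fs.j (nat_lit 1073) Fs.nil))))) (Tr.node (Tr.node (Tr.node (Tr.I true Q.adt (nat_lit 65) (nat_lit 20) (nat_lit 24) (nat_lit 8) (nat_lit 0) (Fs.j (nat_lit 1073) Fs.nil)) (Tr.I true Q.adt (nat_lit 4) (nat_lit 1633) (nat_lit 24) (nat_lit 0) (nat_lit 0) (Fs.j (nat_lit 1073) Fs.nil))) (Tr.node (Tr.I true Q.F (nat_lit 577) (nat_lit 8) (nat_lit 16) (nat_lit 20) (nat_lit 0) (Fs.j (nat_lit 2321) Fs.nil)) (Tr.I true Q.R (nat_lit 0) (nat_lit 12) (nat_lit 8) (nat_lit 16) (nat_lit 20) (Fs.j (nat_lit 2321) Fs.nil)))) (Tr.node (Tr.node (Tr.I true Q.adt (nat_lit 577) (nat_lit 8) (nat_lit 24) (nat_lit 20) (nat_lit 0) (Fs.j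 (nat_lit 1041) Fs.nil)) (Tr.I false Q.adt (nat_lit 577) (nat_lit 20) (nat_lit 24) (nat_lit 8) (nat_lit 0) (Fs.j (nat_lit 1041) Fs.nil))) (Tr.node (Tr.I false Q.F (nat_lit 577) (nat_lit 8) (nat_lit 24) (nat_lit 20) (nat_lit 0) (Fs.j (nat_lit 1041) Fs.nil)) (Tr.I true Q.adt (nat_lit 1633) (nat_lit 12) (nat_lit 24) (nat_lit 0) (nat_lit 0) (Fs.j (nat_lit 1041) Fs.nil))))))
def cS51 : Tr := (Tr.node (Tr.node (Tr.node (Tr.node (Tr.I true Q.F (nat_lit 593) (nat_lit 8) (nat_lit 16) (nat_lit 20) (nat_lit 0) (Fs.j (nat_lit 2305) Fs.nil)) (Tr.I true Q.F (nat_lit 593) (nat_lit 8) (nat_lit 24) (nat_lit 20) (nat_lit 0) (Fs.j (nat_lit 1025) Fs.nil))) (Tr.node (Tr.I false Q.adt (nat_lit 593) (nat_lit 8) (nat_lit 24) (nat_lit 20) (nat_lit 0) (Fs.j (nat_lit 1025) Fs.nil)) (Tr.I true Q.adt (nat_lit 593) (nat_lit 20) (nat_lit 24) (nat_lit 8)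 (nat_lit 0) (Fs.j (nat_lit 1025) Fs.nil)))) (Tr.node (Tr.node (Tr.I false Q.adt (nat_lit 1633) (nat_lit 12) (nat_lit 24) (nat_lit 4) (nat_lit 0) (Fs.j (nat_lit 1025) Fs.nil)) (Tr.I true Q.K (nat_lit 1025) (nat_lit 4) (nat_lit 8) (nat_lit 20) (nat_lit 0) (Fs.j (nat_lit 2353) Fs.nil))) (Tr.node (Tr.I false Q.F (nat_lit 1025) (nat_lit 8) (nat_lit 12) (nat_lit 20) (nat_lit 0) (Fs.j (nat_lit 2321) Fs.nil)) (Tr.I false Q.R (nat_lit 0) (nat_lit 16) (nat_lit 8) (nat_lit 24) (nat_lit 20) (Fs.j (nat_lit 593) Fs.nil))))) (Tr.node (Tr.node (Tr.node (Tr.I false Q.adt (nat_lit 0) (nat_lit 1633) (nat_lit 24) (nat_lit 16) (nat_lit 0) (Fs.j (nat_lit 593) Fs.nil)) (Tr.I false Q.adt (nat_lit 1025) (nat_lit 20) (nat_lit 24) (nat_lit 8) (nat_lit 0) (Fs.j (nat_lit 593) Fs.nil))) (Tr.node (Tr.I true Q.adt (nat_lit 1633) (nat_lit 16) (nat_lit 24)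 (nat_lit 0) (nat_lit 0) (Fs.j (nat_lit 593) Fs.nil)) (Tr.I true Q.K (nat_lit 0) (nat_lit 1041) (nat_lit 8) (nat_lit 20) (nat_lit 0) (Fs.j (nat_lit 2353) Fs.nil)))) (Tr.node (Tr.node (Tr.I true Q.F (nat_lit 1041) (nat_lit 8) (nat_lit 12) (nat_lit 20) (nat_lit 0) (Fs.j (nat_lit 2305) Fs.nil)) (Tr.I true Q.R (nat_lit 4) (nat_lit 16) (nat_lit 8) (nat_lit 24) (nat_lit 20) (Fs.j (nat_lit 577) Fs.nil))) (Tr.node (Tr.I false Q.adt (nat_lit 1633) (nat_lit 16) (nat_lit 24) (nat_lit 4) (nat_lit 0) (Fs.j (nat_lit 577) Fs.nil)) (Tr.I true Q.adt (nat_lit 4) (nat_lit 1633) (nat_lit 24) (nat_lit 16) (nat_lit 0) (Fs.j (nat_lit 577) Fs.nil))))))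
def cS52 : Tr := (Tr.node (Tr.node (Tr.node (Tr.node (Tr.I true Q.adt (nat_lit 1041) (nat_lit 20) (nat_lit 24) (nat_lit 8) (nat_lit 0) (Fs.j (nat_lit 577) Fs.nil)) (Tr.I false Q.K (nat_lit 0) (nat_lit 1073) (nat_lit 8) (nat_lit 20) (nat_lit 0) (Fs.j (nat_lit 2321) Fs.nil))) (Tr.node (Tr.I true Q.K (nat_lit 4) (nat_lit 1073) (nat_lit 8) (nat_lit 20) (nat_lit 0) (Fs.j (nat_lit 2305) Fs.nil)) (Tr.I true Q.R (nat_lit 12) (nat_lit 16) (nat_lit 8) (nat_lit 24) (nat_lit 20) (Fs.j (nat_lit 65) Fs.nil)))) (Tr.node (Tr.node (Tr.I true Q.adt (nat_lit 1633) (nat_lit 16) (nat_lit 24) (nat_lit 12) (nat_lit 0) (Fs.j (nat_lit 65) Fs.nil)) (Tr.I true Q.adt (nat_lit 8) (nat_lit 1073) (nat_lit 24) (nat_lit 20) (nat_lit 0) (Fs.j (nat_lit 65) Fs.nil))) (Tr.node (Tr.I false Q.adt (nat_lit 1633) (nat_lit 12) (nat_lit 24) (nat_lit 16) (nat_lit 0)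 (Fs.j (nat_lit 65) Fs.nil)) (Tr.I false Q.adt (nat_lit 1073) (nat_lit 20) (nat_lit 24) (nat_lit 8) (nat_lit 0) (Fs.j (nat_lit 65) Fs.nil))))) (Tr.node (Tr.node (Tr.node (Tr.I false Q.G (nat_lit 2337) (nat_lit 0) (nat_lit 4) (nat_lit 16) (nat_lit 1649) Fs.nil) (Tr.I true Q.G (nat_lit 2337) (nat_lit 4) (nat_lit 0) (nat_lit 16) (nat_lit 1649) Fs.nil)) (Tr.node (Tr.I true Q.G (nat_lit 2321) (nat_lit 0) (nat_lit 8) (nat_lit 16) (nat_lit 1649) Fs.nil) (Tr.I false Q.G (nat_lit 2321) (nat_lit 8) (nat_lit 0) (nat_lit 16) (nat_lit 1649) Fs.nil))) (Tr.node (Tr.node (Tr.I false Q.G (nat_lit 2305) (nat_lit 4) (nat_lit 8) (nat_lit 16) (nat_lit 1649) Fs.nil) (Tr.I true Q.G (nat_lit 2305) (nat_lit 8) (nat_lit 4) (nat_lit 16) (nat_lit 1649) Fs.nil)) (Tr.node (Tr.I false Q.G (nat_lit 273) (nat_lit 16) (nat_lit 0) (nat_lit 24) (nat_lit 1649)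 Fs.nil) (Tr.I true Q.jac (nat_lit 4) (nat_lit 8) (nat_lit 24) (nat_lit 0) (nat_lit 0) (Fs.j (nat_lit 29576564372359) Fs.nil))))))
def cS53 : Tr := (Tr.node (Tr.node (Tr.node (Tr.node (Tr.I true Q.G (nat_lit 257) (nat_lit 16) (nat_lit 4) (nat_lit 24) (nat_lit 1649) Fs.nil) (Tr.I false Q.jac (nat_lit 0) (nat_lit 8) (nat_lit 24) (nat_lit 0) (nat_lit 0) (Fs.j (nat_lit 29576564372375) Fs.nil))) (Tr.node (Tr.I false Q.G (nat_lit 65) (nat_lit 16) (nat_lit 8) (nat_lit 24) (nat_lit 1649) Fs.nil) (Tr.I true Q.jac (nat_lit 0) (nat_lit 4) (nat_lit 24) (nat_lit 0) (nat_lit 0) (Fs.j (nat_lit 29576564372391) Fs.nil)))) (Tr.node (Tr.node (Tr.I true Q.jac (nat_lit 0) (nat_lit 4) (nat_lit 8) (nat_lit 0) (nat_lit 0) (Fs.j (nat_lit 29576738402567) Fs.nil)) (Tr.I false Q.F (nat_lit 0) (nat_lit 4) (nat_lit 1649) (nat_lit 16) (nat_lit 0) (Fs.j (nat_lit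 2337) Fs.nil))) (Tr.node (Tr.I true Q.R (nat_lit 0) (nat_lit 4) (nat_lit 12) (nat_lit 16) (nat_lit 20) (Fs.j (nat_lit 2337) Fs.nil)) (Tr.I false Q.F (nat_lit 65) (nat_lit 12) (nat_lit 16) (nat_lit 20) (nat_lit 0) (Fs.j (nat_lit 2337) Fs.nil))))) (Tr.node (Tr.node (Tr.node (Tr.I false Q.F (nat_lit 65) (nat_lit 12) (nat_lit 24) (nat_lit 20) (nat_lit 0) (Fs.j (nat_lit 1057) Fs.nil)) (Tr.I true Q.adt (nat_lit 65) (nat_lit 12) (nat_lit 24) (nat_lit 20) (nat_lit 0) (Fs.j (nat_lit 1057) Fs.nil))) (Tr.node (Tr.I false Q.adt (nat_lit 65) (nat_lit 20) (nat_lit 24) (nat_lit 12) (nat_lit 0) (Fs.j (nat_lit 1057) Fs.nil)) (Tr.I false Q.adt (nat_lit 4) (nat_lit 1649) (nat_lit 24) (nat_lit 0) (nat_lit 0) (Fs.j (nat_lit 1057) Fs.nil)))) (Tr.node (Tr.node (Tr.I false Q.R (nat_lit 0) (nat_lit 8) (nat_lit 12) (nat_lit 16) (nat_lit 20) (Fs.j (nat_lit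 2321) Fs.nil)) (Tr.I true Q.F (nat_lit 257) (nat_lit 12) (nat_lit 16) (nat_lit 20) (nat_lit 0) (Fs.j (nat_lit 2321) Fs.nil))) (Tr.node (Tr.I true Q.F (nat_lit 257) (nat_lit 12) (nat_lit 24) (nat_lit 20) (nat_lit 0) (Fs.j (nat_lit 1041) Fs.nil)) (Tr.I true Q.adt (nat_lit 257) (nat_lit 20) (nat_lit 24) (nat_lit 12) (nat_lit 0) (Fs.j (nat_lit 1041) Fs.nil))))))
def cS54 : Tr := (Tr.node (Tr.node (Tr.node (Tr.node (Tr.I false Q.adt (nat_lit 257) (nat_lit 12) (nat_lit 24) (nat_lit 20) (nat_lit 0) (Fs.j (nat_lit 1041) Fs.nil)) (Tr.I true Q.adt (nat_lit 8) (nat_lit 1649) (nat_lit 24) (nat_lit 0) (nat_lit 0) (Fs.j (nat_lit 1041) Fs.nil))) (Tr.node (Tr.I true Q.R (nat_lit 4) (nat_lit 8) (nat_lit 12) (nat_lit 16) (nat_lit 20) (Fs.j (nat_lit 2305) Fs.nil)) (Tr.I false Q.F (nat_lit 273) (nat_lit 12) (nat_lit 16) (nat_lit 20) (nat_lit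 0) (Fs.j (nat_lit 2305) Fs.nil)))) (Tr.node (Tr.node (Tr.I false Q.F (nat_lit 273) (nat_lit 12) (nat_lit 24) (nat_lit 20) (nat_lit 0) (Fs.j (nat_lit 1025) Fs.nil)) (Tr.I true Q.adt (nat_lit 273) (nat_lit 12) (nat_lit 24) (nat_lit 20) (nat_lit 0) (Fs.j (nat_lit 1025) Fs.nil))) (Tr.node (Tr.I false Q.adt (nat_lit 273) (nat_lit 20) (nat_lit 24) (nat_lit 12) (nat_lit 0) (Fs.j (nat_lit 1025) Fs.nil)) (Tr.I false Q.adt (nat_lit 8) (nat_lit 1649) (nat_lit 24) (nat_lit 4) (nat_lit 0) (Fs.j (nat_lit 1025) Fs.nil))))) (Tr.node (Tr.node (Tr.node (Tr.I false Q.K (nat_lit 1025) (nat_lit 4) (nat_lit 12) (nat_lit 20) (nat_lit 0) (Fs.j (nat_lit 2337) Fs.nil)) (Tr.I true Q.R (nat_lit 0) (nat_lit 16) (nat_lit 12) (nat_lit 24) (nat_lit 20) (Fs.j (nat_lit 273) Fs.nil))) (Tr.node (Tr.I true Q.adt (nat_lit 0) (nat_lit 1649) (nat_lit 24) (nat_lit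 16) (nat_lit 0) (Fs.j (nat_lit 273) Fs.nil)) (Tr.I true Q.adt (nat_lit 1025) (nat_lit 20) (nat_lit 24) (nat_lit 12) (nat_lit 0) (Fs.j (nat_lit 273) Fs.nil)))) (Tr.node (Tr.node (Tr.I false Q.adt (nat_lit 1649) (nat_lit 16) (nat_lit 24) (nat_lit 0) (nat_lit 0) (Fs.j (nat_lit 273) Fs.nil)) (Tr.I false Q.K (nat_lit 0) (nat_lit 1041) (nat_lit 12) (nat_lit 20) (nat_lit 0) (Fs.j (nat_lit 2337) Fs.nil))) (Tr.node (Tr.I false Q.R (nat_lit 4) (nat_lit 16) (nat_lit 12) (nat_lit 24) (nat_lit 20) (Fs.j (nat_lit 257) Fs.nil)) (Tr.I false Q.adt (nat_lit 4) (nat_lit 1649) (nat_lit 24) (nat_lit 16) (nat_lit 0) (Fs.j (nat_lit 257) Fs.nil))))))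
def cS55 : Tr := (Tr.node (Tr.node (Tr.node (Tr.node (Tr.I false Q.adt (nat_lit 1041) (nat_lit 20) (nat_lit 24) (nat_lit 12) (nat_lit 0) (Fs.j (nat_lit 257) Fs.nil)) (Tr.I true Q.adt (nat_lit 1649) (nat_lit 16) (nat_lit 24) (nat_lit 4) (nat_lit 0) (Fs.j (nat_lit 257) Fs.nil))) (Tr.node (Tr.I false Q.adt (nat_lit 1649) (nat_lit 16) (nat_lit 24) (nat_lit 8) (nat_lit 0) (Fs.j (nat_lit 65) Fs.nil)) (Tr.I true Q.R (nat_lit 8) (nat_lit 16) (nat_lit 12) (nat_lit 24) (nat_lit 20) (Fs.j (nat_lit 65) Fs.nil)))) (Tr.node (Tr.node (Tr.I false Q.adt (nat_lit 8) (nat_lit 1649) (nat_lit 24) (nat_lit 16) (nat_lit 0) (Fs.j (nat_lit 65) Fs.nil)) (Tr.I false Q.adt (nat_lit 1057) (nat_lit 12) (nat_lit 24) (nat_lit 20) (nat_lit 0) (Fs.j (nat_lit 65) Fs.nil))) (Tr.node (Tr.I true Q.adt (nat_lit 1057) (nat_lit 20) (nat_lit 24) (nat_lit 12) (nat_lit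 0) (Fs.j (nat_lit 65) Fs.nil)) (Tr.I false Q.adj (nat_lit 609) (nat_lit 30741014513767) (nat_lit 24) (nat_lit 0) (nat_lit 0) Fs.nil)))) (Tr.node (Tr.node (Tr.node (Tr.I false Q.adj (nat_lit 65) (nat_lit 30741191936711) (nat_lit 24) (nat_lit 0) (nat_lit 0) Fs.nil) (Tr.I false Q.K (nat_lit 65) (nat_lit 8) (nat_lit 16) (nat_lit 20) (nat_lit 0) (Fs.j (nat_lit 2353) Fs.nil))) (Tr.node (Tr.I true Q.K (nat_lit 65) (nat_lit 12) (nat_lit 16) (nat_lit 20) (nat_lit 0) (Fs.j (nat_lit 2337) Fs.nil)) (Tr.I true Q.F (nat_lit 0) (nat_lit 4) (nat_lit 1665) (nat_lit 24) (nat_lit 0) (Fs.j (nat_lit 609) Fs.nil)))) (Tr.node (Tr.node (Tr.I false Q.adt (nat_lit 65) (nat_lit 20) (nat_lit 24) (nat_lit 16) (nat_lit 0) (Fs.j (nat_lit 609) Fs.nil)) (Tr.I false Q.adt (nat_lit 4) (nat_lit 1665) (nat_lit 24) (nat_lit 0) (nat_lit 0) (Fs.j (nat_lit 609) Fs.nil)))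 (Tr.node (Tr.I true Q.F (nat_lit 65) (nat_lit 16) (nat_lit 24) (nat_lit 20) (nat_lit 0) (Fs.j (nat_lit 609) Fs.nil)) (Tr.I false Q.K (nat_lit 257) (nat_lit 4) (nat_lit 16) (nat_lit 20) (nat_lit 0) (Fs.j (nat_lit 2353) Fs.nil))))))
def cS56 : Tr := (Tr.node (Tr.node (Tr.node (Tr.node (Tr.I true Q.K (nat_lit 257) (nat_lit 12) (nat_lit 16) (nat_lit 20) (nat_lit 0) (Fs.j (nat_lit 2321) Fs.nil)) (Tr.I false Q.F (nat_lit 0) (nat_lit 8) (nat_lit 1665) (nat_lit 24) (nat_lit 0) (Fs.j (nat_lit 593) Fs.nil))) (Tr.node (Tr.I true Q.adt (nat_lit 8) (nat_lit 1665) (nat_lit 24) (nat_lit 0) (nat_lit 0) (Fs.j (nat_lit 593) Fs.nil)) (Tr.I false Q.F (nat_lit 257) (nat_lit 16) (nat_lit 24) (nat_lit 20) (nat_lit 0) (Fs.j (nat_lit 593) Fs.nil)))) (Tr.node (Tr.node (Tr.I true Q.adt (nat_lit 257) (nat_lit 20) (nat_lit 24) (nat_lit 16) (nat_lit 0)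 (Fs.j (nat_lit 593) Fs.nil)) (Tr.I true Q.adt (nat_lit 257) (nat_lit 16) (nat_lit 24) (nat_lit 20) (nat_lit 0) (Fs.j (nat_lit 593) Fs.nil))) (Tr.node (Tr.I false Q.K (nat_lit 273) (nat_lit 12) (nat_lit 16) (nat_lit 20) (nat_lit 0) (Fs.j (nat_lit 2305) Fs.nil)) (Tr.I true Q.F (nat_lit 4) (nat_lit 8) (nat_lit 1665) (nat_lit 24) (nat_lit 0) (Fs.j (nat_lit 577) Fs.nil))))) (Tr.node (Tr.node (Tr.node (Tr.I false Q.adt (nat_lit 273) (nat_lit 20) (nat_lit 24) (nat_lit 16) (nat_lit 0) (Fs.j (nat_lit 577) Fs.nil)) (Tr.I false Q.adt (nat_lit 8) (nat_lit 1665) (nat_lit 24) (nat_lit 4) (nat_lit 0) (Fs.j (nat_lit 577) Fs.nil))) (Tr.node (Tr.I true Q.F (nat_lit 273) (nat_lit 16) (nat_lit 24) (nat_lit 20) (nat_lit 0) (Fs.j (nat_lit 577) Fs.nil)) (Tr.I false Q.adt (nat_lit 273) (nat_lit 16) (nat_lit 24) (nat_lit 20) (nat_lit 0) (Fs.j (nat_lit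 577) Fs.nil)))) (Tr.node (Tr.node (Tr.I true Q.K (nat_lit 577) (nat_lit 4) (nat_lit 16) (nat_lit 20) (nat_lit 0) (Fs.j (nat_lit 2337) Fs.nil)) (Tr.I true Q.F (nat_lit 0) (nat_lit 12) (nat_lit 1665) (nat_lit 24) (nat_lit 0) (Fs.j (nat_lit 273) Fs.nil))) (Tr.node (Tr.I false Q.adt (nat_lit 12) (nat_lit 1665) (nat_lit 24) (nat_lit 0) (nat_lit 0) (Fs.j (nat_lit 273) Fs.nil)) (Tr.I true Q.F (nat_lit 577) (nat_lit 16) (nat_lit 24) (nat_lit 20) (nat_lit 0) (Fs.j (nat_lit 273) Fs.nil))))))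
def cS57 : Tr := (Tr.node (Tr.node (Tr.node (Tr.node (Tr.I false Q.adt (nat_lit 577) (nat_lit 20) (nat_lit 24) (nat_lit 16) (nat_lit 0) (Fs.j (nat_lit 273) Fs.nil)) (Tr.I false Q.adt (nat_lit 577) (nat_lit 16) (nat_lit 24) (nat_lit 20) (nat_lit 0) (Fs.j (nat_lit 273) Fs.nil))) (Tr.node (Tr.I true Q.K (nat_lit 0) (nat_lit 593) (nat_lit 16) (nat_lit 20) (nat_lit 0) (Fs.j (nat_lit 2337) Fs.nil)) (Tr.I false Q.K (nat_lit 593) (nat_lit 8) (nat_lit 16) (nat_lit 20) (nat_lit 0) (Fs.j (nat_lit 2305) Fs.nil)))) (Tr.node (Tr.node (Tr.I false Q.F (nat_lit 4) (nat_lit 12) (nat_lit 1665) (nat_lit 24) (nat_lit 0) (Fs.j (nat_lit 257) Fs.nil)) (Tr.I true Q.adt (nat_lit 12) (nat_lit 1665) (nat_lit 24) (nat_lit 4) (nat_lit 0) (Fs.j (nat_lit 257) Fs.nil))) (Tr.node (Tr.I false Q.F (nat_lit 593) (nat_lit 16) (nat_lit 24) (nat_lit 20) (nat_lit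 0) (Fs.j (nat_lit 257) Fs.nil)) (Tr.I true Q.adt (nat_lit 593) (nat_lit 20) (nat_lit 24) (nat_lit 16) (nat_lit 0) (Fs.j (nat_lit 257) Fs.nil))))) (Tr.node (Tr.node (Tr.node (Tr.I true Q.adt (nat_lit 593) (nat_lit 16) (nat_lit 24) (nat_lit 20) (nat_lit 0) (Fs.j (nat_lit 257) Fs.nil)) (Tr.I true Q.F (nat_lit 8) (nat_lit 12) (nat_lit 1665) (nat_lit 24) (nat_lit 0) (Fs.j (nat_lit 65) Fs.nil))) (Tr.node (Tr.I true Q.F (nat_lit 609) (nat_lit 16) (nat_lit 24) (nat_lit 20) (nat_lit 0) (Fs.j (nat_lit 65) Fs.nil)) (Tr.I false Q.adt (nat_lit 12) (nat_lit 1665) (nat_lit 24) (nat_lit 8) (nat_lit 0) (Fs.j (nat_lit 65) Fs.nil)))) (Tr.node (Tr.node (Tr.I false Q.adt (nat_lit 609) (nat_lit 20) (nat_lit 24) (nat_lit 16) (nat_lit 0) (Fs.j (nat_lit 65) Fs.nil)) (Tr.I true Q.F (nat_lit 0) (nat_lit 273) (nat_lit 24) (nat_lit 12) (nat_lit 0) (Fs.j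 (nat_lit 1665) Fs.nil))) (Tr.node (Tr.I true Q.R (nat_lit 4) (nat_lit 8) (nat_lit 0) (nat_lit 12) (nat_lit 24) (Fs.j (nat_lit 1665) Fs.nil)) (Tr.I true Q.R (nat_lit 4) (nat_lit 8) (nat_lit 0) (nat_lit 16) (nat_lit 24) (Fs.j (nat_lit 1649) Fs.nil))))))
def cS58 : Tr := (Tr.node (Tr.node (Tr.node (Tr.node (Tr.I false Q.F (nat_lit 0) (nat_lit 273) (nat_lit 24) (nat_lit 16) (nat_lit 0) (Fs.j (nat_lit 1649) Fs.nil)) (Tr.I true Q.R (nat_lit 0) (nat_lit 24) (nat_lit 4) (nat_lit 16) (nat_lit 8) (Fs.j (nat_lit 1649) Fs.nil))) (Tr.node (Tr.I false Q.R (nat_lit 4) (nat_lit 8) (nat_lit 0) (nat_lit 20) (nat_lit 24) (Fs.j (nat_lit 1073) Fs.nil)) (Tr.I true Q.F (nat_lit 0) (nat_lit 273) (nat_lit 24) (nat_lit 20) (nat_lit 0) (Fs.j (nat_lit 1073) Fs.nil)))) (Tr.node (Tr.node (Tr.I false Q.R (nat_lit 0) (nat_lit 24) (nat_lit 4) (nat_lit 20)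 (nat_lit 8) (Fs.j (nat_lit 1073) Fs.nil)) (Tr.I true Q.F (nat_lit 0) (nat_lit 593) (nat_lit 24) (nat_lit 8) (nat_lit 0) (Fs.j (nat_lit 1665) Fs.nil))) (Tr.node (Tr.I false Q.R (nat_lit 4) (nat_lit 12) (nat_lit 0) (nat_lit 16) (nat_lit 24) (Fs.j (nat_lit 1633) Fs.nil)) (Tr.I true Q.F (nat_lit 0) (nat_lit 593) (nat_lit 24) (nat_lit 16) (nat_lit 0) (Fs.j (nat_lit 1633) Fs.nil))))) (Tr.node (Tr.node (Tr.node (Tr.I false Q.R (nat_lit 0) (nat_lit 24) (nat_lit 4) (nat_lit 16) (nat_lit 12) (Fs.j (nat_lit 1633) Fs.nil)) (Tr.I true Q.R (nat_lit 4) (nat_lit 12) (nat_lit 0) (nat_lit 20) (nat_lit 24) (Fs.j (nat_lit 1057) Fs.nil))) (Tr.node (Tr.I false Q.F (nat_lit 0) (nat_lit 593) (nat_lit 24) (nat_lit 20) (nat_lit 0) (Fs.j (nat_lit 1057) Fs.nil)) (Tr.I true Q.R (nat_lit 0) (nat_lit 24) (nat_lit 4) (nat_lit 20) (nat_lit 12) (Fs.j (nat_lit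 1057) Fs.nil)))) (Tr.node (Tr.node (Tr.I false Q.F (nat_lit 0) (nat_lit 609) (nat_lit 24) (nat_lit 4) (nat_lit 0) (Fs.j (nat_lit 1665) Fs.nil)) (Tr.I true Q.R (nat_lit 8) (nat_lit 12) (nat_lit 0) (nat_lit 16) (nat_lit 24) (Fs.j (nat_lit 1617) Fs.nil))) (Tr.node (Tr.I false Q.F (nat_lit 0) (nat_lit 609) (nat_lit 24) (nat_lit 16) (nat_lit 0) (Fs.j (nat_lit 1617) Fs.nil)) (Tr.I true Q.R (nat_lit 0) (nat_lit 24) (nat_lit 8) (nat_lit 16) (nat_lit 12) (Fs.j (nat_lit 1617) Fs.nil))))))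
def cS59 : Tr := (Tr.node (Tr.node (Tr.node (Tr.node (Tr.I false Q.R (nat_lit 8) (nat_lit 12) (nat_lit 0) (nat_lit 20) (nat_lit 24) (Fs.j (nat_lit 1041) Fs.nil)) (Tr.I true Q.F (nat_lit 0) (nat_lit 609) (nat_lit 24) (nat_lit 20) (nat_lit 0) (Fs.j (nat_lit 1041) Fs.nil))) (Tr.node (Tr.I false Q.R (nat_lit 0) (nat_lit 24) (nat_lit 8) (nat_lit 20) (nat_lit 12) (Fs.j (nat_lit 1041) Fs.nil)) (Tr.I true Q.F (nat_lit 0) (nat_lit 1041) (nat_lit 24) (nat_lit 20) (nat_lit 0) (Fs.j (nat_lit 609) Fs.nil)))) (Tr.node (Tr.node (Tr.I true Q.R (nat_lit 0) (nat_lit 24) (nat_lit 4) (nat_lit 20) (nat_lit 16) (Fs.j (nat_lit 609) Fs.nil)) (Tr.I false Q.F (nat_lit 0) (nat_lit 1057) (nat_lit 24) (nat_lit 20) (nat_lit 0) (Fs.j (nat_lit 593) Fs.nil))) (Tr.node (Tr.I false Q.R (nat_lit 0) (nat_lit 24) (nat_lit 8) (nat_lit 20) (nat_lit 16) (Fs.j (nat_lit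 593) Fs.nil)) (Tr.I true Q.F (nat_lit 0) (nat_lit 1073) (nat_lit 24) (nat_lit 20) (nat_lit 0) (Fs.j (nat_lit 273) Fs.nil))))) (Tr.node (Tr.node (Tr.node (Tr.I true Q.R (nat_lit 0) (nat_lit 24) (nat_lit 12) (nat_lit 20) (nat_lit 16) (Fs.j (nat_lit 273) Fs.nil)) (Tr.I false Q.F (nat_lit 0) (nat_lit 1617) (nat_lit 24) (nat_lit 16) (nat_lit 0) (Fs.j (nat_lit 609) Fs.nil))) (Tr.node (Tr.I true Q.F (nat_lit 0) (nat_lit 1633) (nat_lit 24) (nat_lit 16) (nat_lit 0) (Fs.j (nat_lit 593) Fs.nil)) (Tr.I false Q.F (nat_lit 0) (nat_lit 1649) (nat_lit 24) (nat_lit 16) (nat_lit 0) (Fs.j (nat_lit 273) Fs.nil)))) (Tr.node (Tr.node (Tr.I false Q.F (nat_lit 0) (nat_lit 1665) (nat_lit 24) (nat_lit 4) (nat_lit 0) (Fs.j (nat_lit 609) Fs.nil)) (Tr.I true Q.F (nat_lit 0) (nat_lit 1665) (nat_lit 24) (nat_lit 8) (nat_lit 0) (Fs.j (nat_lit 593) Fs.nil)))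 (Tr.node (Tr.I false Q.F (nat_lit 0) (nat_lit 1665) (nat_lit 24) (nat_lit 12) (nat_lit 0) (Fs.j (nat_lit 273) Fs.nil)) (Tr.I true Q.F (nat_lit 257) (nat_lit 4) (nat_lit 12) (nat_lit 24) (nat_lit 0) (Fs.j (nat_lit 1665) Fs.nil))))))
def cS60 : Tr := (Tr.node (Tr.node (Tr.node (Tr.node (Tr.I false Q.R (nat_lit 0) (nat_lit 8) (nat_lit 4) (nat_lit 16) (nat_lit 24) (Fs.j (nat_lit 1649) Fs.nil)) (Tr.I false Q.F (nat_lit 257) (nat_lit 4) (nat_lit 16) (nat_lit 24) (nat_lit 0) (Fs.j (nat_lit 1649) Fs.nil))) (Tr.node (Tr.I true Q.R (nat_lit 0) (nat_lit 8) (nat_lit 4) (nat_lit 20) (nat_lit 24) (Fs.j (nat_lit 1073) Fs.nil)) (Tr.I true Q.F (nat_lit 257) (nat_lit 4) (nat_lit 20) (nat_lit 24) (nat_lit 0) (Fs.j (nat_lit 1073) Fs.nil)))) (Tr.node (Tr.node (Tr.I true Q.F (nat_lit 577) (nat_lit 4) (nat_lit 8) (nat_lit 24) (nat_lit 0) (Fs.j (nat_lit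 1665) Fs.nil)) (Tr.I true Q.R (nat_lit 0) (nat_lit 12) (nat_lit 4) (nat_lit 8) (nat_lit 24) (Fs.j (nat_lit 1665) Fs.nil))) (Tr.node (Tr.I true Q.R (nat_lit 0) (nat_lit 12) (nat_lit 4) (nat_lit 16) (nat_lit 24) (Fs.j (nat_lit 1633) Fs.nil)) (Tr.I true Q.F (nat_lit 577) (nat_lit 4) (nat_lit 16) (nat_lit 24) (nat_lit 0) (Fs.j (nat_lit 1633) Fs.nil))))) (Tr.node (Tr.node (Tr.node (Tr.I false Q.R (nat_lit 0) (nat_lit 12) (nat_lit 4) (nat_lit 20) (nat_lit 24) (Fs.j (nat_lit 1057) Fs.nil)) (Tr.I false Q.F (nat_lit 577) (nat_lit 4) (nat_lit 20) (nat_lit 24) (nat_lit 0) (Fs.j (nat_lit 1057) Fs.nil))) (Tr.node (Tr.I false Q.R (nat_lit 8) (nat_lit 12) (nat_lit 4) (nat_lit 16) (nat_lit 24) (Fs.j (nat_lit 1601) Fs.nil)) (Tr.I true Q.F (nat_lit 4) (nat_lit 609) (nat_lit 24) (nat_lit 16) (nat_lit 0) (Fs.j (nat_lit 1601) Fs.nil)))) (Tr.node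 (Tr.node (Tr.I false Q.R (nat_lit 4) (nat_lit 24) (nat_lit 8) (nat_lit 16) (nat_lit 12) (Fs.j (nat_lit 1601) Fs.nil)) (Tr.I true Q.R (nat_lit 8) (nat_lit 12) (nat_lit 4) (nat_lit 20) (nat_lit 24) (Fs.j (nat_lit 1025) Fs.nil))) (Tr.node (Tr.I false Q.F (nat_lit 4) (nat_lit 609) (nat_lit 24) (nat_lit 20) (nat_lit 0) (Fs.j (nat_lit 1025) Fs.nil)) (Tr.I true Q.R (nat_lit 4) (nat_lit 24) (nat_lit 8) (nat_lit 20) (nat_lit 12) (Fs.j (nat_lit 1025) Fs.nil))))))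
def cS61 : Tr := (Tr.node (Tr.node (Tr.node (Tr.node (Tr.I true Q.F (nat_lit 4) (nat_lit 1057) (nat_lit 24) (nat_lit 20) (nat_lit 0) (Fs.j (nat_lit 577) Fs.nil)) (Tr.I true Q.R (nat_lit 4) (nat_lit 24) (nat_lit 8) (nat_lit 20) (nat_lit 16) (Fs.j (nat_lit 577) Fs.nil))) (Tr.node (Tr.I false Q.R (nat_lit 4) (nat_lit 24) (nat_lit 12) (nat_lit 20) (nat_lit 16) (Fs.j (nat_lit 257) Fs.nil)) (Tr.I false Q.F (nat_lit 4) (nat_lit 1073) (nat_lit 24) (nat_lit 20) (nat_lit 0) (Fs.j (nat_lit 257) Fs.nil)))) (Tr.node (Tr.node (Tr.I true Q.F (nat_lit 1601) (nat_lit 4) (nat_lit 16) (nat_lit 24) (nat_lit 0) (Fs.j (nat_lit 609) Fs.nil)) (Tr.I false Q.F (nat_lit 4) (nat_lit 1633) (nat_lit 24) (nat_lit 16) (nat_lit 0) (Fs.j (nat_lit 577) Fs.nil))) (Tr.node (Tr.I true Q.K (nat_lit 0) (nat_lit 1649) (nat_lit 4) (nat_lit 24) (nat_lit 0) (Fs.j (nat_lit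 1057) Fs.nil)) (Tr.I true Q.F (nat_lit 4) (nat_lit 1649) (nat_lit 24) (nat_lit 16) (nat_lit 0) (Fs.j (nat_lit 257) Fs.nil))))) (Tr.node (Tr.node (Tr.node (Tr.I true Q.K (nat_lit 0) (nat_lit 1665) (nat_lit 4) (nat_lit 24) (nat_lit 0) (Fs.j (nat_lit 609) Fs.nil)) (Tr.I false Q.F (nat_lit 4) (nat_lit 1665) (nat_lit 24) (nat_lit 8) (nat_lit 0) (Fs.j (nat_lit 577) Fs.nil))) (Tr.node (Tr.I true Q.F (nat_lit 4) (nat_lit 1665) (nat_lit 24) (nat_lit 12) (nat_lit 0) (Fs.j (nat_lit 257) Fs.nil)) (Tr.I false Q.F (nat_lit 65) (nat_lit 8) (nat_lit 12) (nat_lit 24) (nat_lit 0) (Fs.j (nat_lit 1665) Fs.nil)))) (Tr.node (Tr.node (Tr.I true Q.R (nat_lit 0) (nat_lit 4) (nat_lit 8) (nat_lit 16) (nat_lit 24) (Fs.j (nat_lit 1649) Fs.nil)) (Tr.I true Q.F (nat_lit 65) (nat_lit 8) (nat_lit 16) (nat_lit 24) (nat_lit 0) (Fs.j (nat_lit 1649) Fs.nil)))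 (Tr.node (Tr.I false Q.R (nat_lit 0) (nat_lit 4) (nat_lit 8) (nat_lit 20) (nat_lit 24) (Fs.j (nat_lit 1073) Fs.nil)) (Tr.I false Q.F (nat_lit 65) (nat_lit 8) (nat_lit 20) (nat_lit 24) (nat_lit 0) (Fs.j (nat_lit 1073) Fs.nil))))))
def cS62 : Tr := (Tr.node (Tr.node (Tr.node (Tr.node (Tr.I false Q.K (nat_lit 577) (nat_lit 4) (nat_lit 8) (nat_lit 24) (nat_lit 0) (Fs.j (nat_lit 1665) Fs.nil)) (Tr.I false Q.R (nat_lit 0) (nat_lit 12) (nat_lit 8) (nat_lit 16) (nat_lit 24) (Fs.j (nat_lit 1617) Fs.nil))) (Tr.node (Tr.I false Q.F (nat_lit 577) (nat_lit 8) (nat_lit 16) (nat_lit 24) (nat_lit 0) (Fs.j (nat_lit 1617) Fs.nil)) (Tr.I true Q.R (nat_lit 0) (nat_lit 12) (nat_lit 8) (nat_lit 20) (nat_lit 24) (Fs.j (nat_lit 1041) Fs.nil)))) (Tr.node (Tr.node (Tr.I true Q.F (nat_lit 577) (nat_lit 8) (nat_lit 20) (nat_lit 24) (nat_lit 0) (Fs.j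 (nat_lit 1041) Fs.nil)) (Tr.I true Q.R (nat_lit 4) (nat_lit 12) (nat_lit 8) (nat_lit 16) (nat_lit 24) (Fs.j (nat_lit 1601) Fs.nil))) (Tr.node (Tr.I true Q.F (nat_lit 593) (nat_lit 8) (nat_lit 16) (nat_lit 24) (nat_lit 0) (Fs.j (nat_lit 1601) Fs.nil)) (Tr.I false Q.R (nat_lit 4) (nat_lit 12) (nat_lit 8) (nat_lit 20) (nat_lit 24) (Fs.j (nat_lit 1025) Fs.nil))))) (Tr.node (Tr.node (Tr.node (Tr.I false Q.F (nat_lit 593) (nat_lit 8) (nat_lit 20) (nat_lit 24) (nat_lit 0) (Fs.j (nat_lit 1025) Fs.nil)) (Tr.I false Q.K (nat_lit 1025) (nat_lit 4) (nat_lit 8) (nat_lit 24) (nat_lit 0) (Fs.j (nat_lit 1649) Fs.nil))) (Tr.node (Tr.I true Q.R (nat_lit 8) (nat_lit 24) (nat_lit 12) (nat_lit 20) (nat_lit 16) (Fs.j (nat_lit 65) Fs.nil)) (Tr.I true Q.F (nat_lit 8) (nat_lit 1073) (nat_lit 24) (nat_lit 20) (nat_lit 0) (Fs.j (nat_lit 65) Fs.nil))))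 (Tr.node (Tr.node (Tr.I true Q.K (nat_lit 1601) (nat_lit 4) (nat_lit 8) (nat_lit 24) (nat_lit 0) (Fs.j (nat_lit 1073) Fs.nil)) (Tr.I false Q.F (nat_lit 1601) (nat_lit 8) (nat_lit 16) (nat_lit 24) (nat_lit 0) (Fs.j (nat_lit 593) Fs.nil))) (Tr.node (Tr.I true Q.F (nat_lit 1617) (nat_lit 8) (nat_lit 16) (nat_lit 24) (nat_lit 0) (Fs.j (nat_lit 577) Fs.nil)) (Tr.I false Q.F (nat_lit 8) (nat_lit 1649) (nat_lit 24) (nat_lit 16) (nat_lit 0) (Fs.j (nat_lit 65) Fs.nil))))))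
def cS63 : Tr := (Tr.node (Tr.node (Tr.node (Tr.node (Tr.I false Q.K (nat_lit 0) (nat_lit 1665) (nat_lit 8) (nat_lit 24) (nat_lit 0) (Fs.j (nat_lit 593) Fs.nil)) (Tr.I true Q.K (nat_lit 4) (nat_lit 1665) (nat_lit 8) (nat_lit 24) (nat_lit 0) (Fs.j (nat_lit 577) Fs.nil))) (Tr.node (Tr.I false Q.F (nat_lit 8) (nat_lit 1665) (nat_lit 24) (nat_lit 12) (nat_lit 0) (Fs.j (nat_lit 65) Fs.nil)) (Tr.I false Q.R (nat_lit 0) (nat_lit 4) (nat_lit 12) (nat_lit 16) (nat_lit 24) (Fs.j (nat_lit 1633) Fs.nil)))) (Tr.node (Tr.node (Tr.I false Q.F (nat_lit 65) (nat_lit 12) (nat_lit 16) (nat_lit 24) (nat_lit 0) (Fs.j (nat_lit 1633) Fs.nil)) (Tr.I true Q.R (nat_lit 0) (nat_lit 4) (nat_lit 12) (nat_lit 20) (nat_lit 24) (Fs.j (nat_lit 1057) Fs.nil))) (Tr.node (Tr.I true Q.F (nat_lit 65) (nat_lit 12) (nat_lit 20) (nat_lit 24) (nat_lit 0) (Fs.j (nat_lit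 1057) Fs.nil)) (Tr.I true Q.R (nat_lit 0) (nat_lit 8) (nat_lit 12) (nat_lit 16) (nat_lit 24) (Fs.j (nat_lit 1617) Fs.nil))))) (Tr.node (Tr.node (Tr.node (Tr.I true Q.F (nat_lit 257) (nat_lit 12) (nat_lit 16) (nat_lit 24) (nat_lit 0) (Fs.j (nat_lit 1617) Fs.nil)) (Tr.I false Q.R (nat_lit 0) (nat_lit 8) (nat_lit 12) (nat_lit 20) (nat_lit 24) (Fs.j (nat_lit 1041) Fs.nil))) (Tr.node (Tr.I false Q.F (nat_lit 257) (nat_lit 12) (nat_lit 20) (nat_lit 24) (nat_lit 0) (Fs.j (nat_lit 1041) Fs.nil)) (Tr.I true Q.K (nat_lit 0) (nat_lit 273) (nat_lit 12) (nat_lit 24) (nat_lit 0) (Fs.j (nat_lit 1665) Fs.nil)))) (Tr.node (Tr.node (Tr.I false Q.R (nat_lit 4) (nat_lit 8) (nat_lit 12) (nat_lit 16) (nat_lit 24) (Fs.j (nat_lit 1601) Fs.nil)) (Tr.I false Q.F (nat_lit 273) (nat_lit 12) (nat_lit 16) (nat_lit 24) (nat_lit 0) (Fs.j (nat_lit 1601) Fs.nil)))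 (Tr.node (Tr.I true Q.R (nat_lit 4) (nat_lit 8) (nat_lit 12) (nat_lit 20) (nat_lit 24) (Fs.j (nat_lit 1025) Fs.nil)) (Tr.I true Q.F (nat_lit 273) (nat_lit 12) (nat_lit 20) (nat_lit 24) (nat_lit 0) (Fs.j (nat_lit 1025) Fs.nil))))))
def cS64 : Tr := (Tr.node (Tr.node (Tr.node (Tr.node (Tr.I true Q.K (nat_lit 1025) (nat_lit 4) (nat_lit 12) (nat_lit 24) (nat_lit 0) (Fs.j (nat_lit 1633) Fs.nil)) (Tr.I false Q.K (nat_lit 1025) (nat_lit 8) (nat_lit 12) (nat_lit 24) (nat_lit 0) (Fs.j (nat_lit 1617) Fs.nil))) (Tr.node (Tr.I true Q.K (nat_lit 1041) (nat_lit 8) (nat_lit 12) (nat_lit 24) (nat_lit 0) (Fs.j (nat_lit 1601) Fs.nil)) (Tr.I true Q.K (nat_lit 1601) (nat_lit 4) (nat_lit 12) (nat_lit 24) (nat_lit 0) (Fs.j (nat_lit 1057) Fs.nil)))) (Tr.node (Tr.node (Tr.I true Q.K (nat_lit 1601) (nat_lit 8) (nat_lit 12) (nat_lit 24) (nat_lit 0)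 (Fs.j (nat_lit 1041) Fs.nil)) (Tr.I true Q.F (nat_lit 1601) (nat_lit 12) (nat_lit 16) (nat_lit 24) (nat_lit 0) (Fs.j (nat_lit 273) Fs.nil))) (Tr.node (Tr.I false Q.K (nat_lit 0) (nat_lit 1617) (nat_lit 12) (nat_lit 24) (nat_lit 0) (Fs.j (nat_lit 1057) Fs.nil)) (Tr.I false Q.K (nat_lit 1617) (nat_lit 8) (nat_lit 12) (nat_lit 24) (nat_lit 0) (Fs.j (nat_lit 1025) Fs.nil))))) (Tr.node (Tr.node (Tr.node (Tr.I false Q.F (nat_lit 1617) (nat_lit 12) (nat_lit 16) (nat_lit 24) (nat_lit 0) (Fs.j (nat_lit 257) Fs.nil)) (Tr.I true Q.F (nat_lit 1633) (nat_lit 12) (nat_lit 16) (nat_lit 24) (nat_lit 0) (Fs.j (nat_lit 65) Fs.nil))) (Tr.node (Tr.I true Q.K (nat_lit 0) (nat_lit 1665) (nat_lit 12) (nat_lit 24) (nat_lit 0) (Fs.j (nat_lit 273) Fs.nil)) (Tr.I false Q.K (nat_lit 4) (nat_lit 1665) (nat_lit 12) (nat_lit 24) (nat_lit 0) (Fs.j (nat_lit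 257) Fs.nil)))) (Tr.node (Tr.node (Tr.I true Q.K (nat_lit 8) (nat_lit 1665) (nat_lit 12) (nat_lit 24) (nat_lit 0) (Fs.j (nat_lit 65) Fs.nil)) (Tr.I true Q.R (nat_lit 0) (nat_lit 4) (nat_lit 16) (nat_lit 20) (nat_lit 24) (Fs.j (nat_lit 609) Fs.nil))) (Tr.node (Tr.I false Q.R (nat_lit 0) (nat_lit 8) (nat_lit 16) (nat_lit 20) (nat_lit 24) (Fs.j (nat_lit 593) Fs.nil)) (Tr.I true Q.R (nat_lit 4) (nat_lit 8) (nat_lit 16) (nat_lit 20) (nat_lit 24) (Fs.j (nat_lit 577) Fs.nil))))))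
def cS65 : Tr := (Tr.node (Tr.node (Tr.node (Tr.node (Tr.I true Q.R (nat_lit 0) (nat_lit 12) (nat_lit 16) (nat_lit 20) (nat_lit 24) (Fs.j (nat_lit 273) Fs.nil)) (Tr.I false Q.R (nat_lit 4) (nat_lit 12) (nat_lit 16) (nat_lit 20) (nat_lit 24) (Fs.j (nat_lit 257) Fs.nil))) (Tr.node (Tr.I true Q.R (nat_lit 8) (nat_lit 12) (nat_lit 16) (nat_lit 20) (nat_lit 24) (Fs.j (nat_lit 65) Fs.nil)) (Tr.I false Q.K (nat_lit 1601) (nat_lit 4) (nat_lit 16) (nat_lit 24) (nat_lit 0) (Fs.j (nat_lit 609) Fs.nil)))) (Tr.node (Tr.node (Tr.I false Q.K (nat_lit 0) (nat_lit 1633) (nat_lit 16) (nat_lit 24) (nat_lit 0) (Fs.j (nat_lit 593) Fs.nil)) (Tr.I true Q.K (nat_lit 4) (nat_lit 1633) (nat_lit 16) (nat_lit 24) (nat_lit 0) (Fs.j (nat_lit 577) Fs.nil))) (Tr.node (Tr.I false Q.K (nat_lit 1633) (nat_lit 12) (nat_lit 16) (nat_lit 24) (nat_lit 0) (Fs.j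 (nat_lit 65) Fs.nil)) (Tr.I true Q.K (nat_lit 0) (nat_lit 1649) (nat_lit 16) (nat_lit 24) (nat_lit 0) (Fs.j (nat_lit 273) Fs.nil))))) (Tr.node (Tr.node (Tr.node (Tr.I false Q.K (nat_lit 4) (nat_lit 1649) (nat_lit 16) (nat_lit 24) (nat_lit 0) (Fs.j (nat_lit 257) Fs.nil)) (Tr.I false Q.K (nat_lit 65) (nat_lit 12) (nat_lit 20) (nat_lit 24) (nat_lit 0) (Fs.j (nat_lit 1057) Fs.nil))) (Tr.node (Tr.I false Q.K (nat_lit 257) (nat_lit 16) (nat_lit 20) (nat_lit 24) (nat_lit 0) (Fs.j (nat_lit 593) Fs.nil)) (Tr.I true Q.K (nat_lit 273) (nat_lit 16) (nat_lit 20) (nat_lit 24) (nat_lit 0) (Fs.j (nat_lit 577) Fs.nil)))) (Tr.node (Tr.node (Tr.I true Q.K (nat_lit 577) (nat_lit 4) (nat_lit 20) (nat_lit 24) (nat_lit 0) (Fs.j (nat_lit 1057) Fs.nil)) (Tr.I true Q.K (nat_lit 577) (nat_lit 16) (nat_lit 20) (nat_lit 24) (nat_lit 0) (Fs.j (nat_lit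 273) Fs.nil))) (Tr.node (Tr.I true Q.K (nat_lit 0) (nat_lit 593) (nat_lit 20) (nat_lit 24) (nat_lit 0) (Fs.j (nat_lit 1057) Fs.nil)) (Tr.I false Q.K (nat_lit 593) (nat_lit 16) (nat_lit 20) (nat_lit 24) (nat_lit 0) (Fs.j (nat_lit 257) Fs.nil))))))
def cS66 : Tr := (Tr.node (Tr.node (Tr.node (Tr.node (Tr.I false Q.K (nat_lit 1025) (nat_lit 4) (nat_lit 20) (nat_lit 24) (nat_lit 0) (Fs.j (nat_lit 609) Fs.nil)) (Tr.I false Q.K (nat_lit 1025) (nat_lit 8) (nat_lit 20) (nat_lit 24) (nat_lit 0) (Fs.j (nat_lit 593) Fs.nil))) (Tr.node (Tr.I true Q.K (nat_lit 1025) (nat_lit 12) (nat_lit 20) (nat_lit 24) (nat_lit 0) (Fs.j (nat_lit 273) Fs.nil)) (Tr.I false Q.K (nat_lit 0) (nat_lit 1041) (nat_lit 20) (nat_lit 24) (nat_lit 0) (Fs.j (nat_lit 609) Fs.nil)))) (Tr.node (Tr.node (Tr.I true Q.K (nat_lit 1041) (nat_lit 8) (nat_lit 20) (nat_lit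 24) (nat_lit 0) (Fs.j (nat_lit 577) Fs.nil)) (Tr.I false Q.K (nat_lit 1041) (nat_lit 12) (nat_lit 20) (nat_lit 24) (nat_lit 0) (Fs.j (nat_lit 257) Fs.nil))) (Tr.node (Tr.I false Q.K (nat_lit 0) (nat_lit 1057) (nat_lit 20) (nat_lit 24) (nat_lit 0) (Fs.j (nat_lit 593) Fs.nil)) (Tr.I true Q.K (nat_lit 4) (nat_lit 1057) (nat_lit 20) (nat_lit 24) (nat_lit 0) (Fs.j (nat_lit 577) Fs.nil))))) (Tr.node (Tr.node (Tr.node (Tr.I false Q.K (nat_lit 1057) (nat_lit 12) (nat_lit 20) (nat_lit 24) (nat_lit 0) (Fs.j (nat_lit 65) Fs.nil)) (Tr.I true Q.K (nat_lit 0) (nat_lit 1073) (nat_lit 20) (nat_lit 24) (nat_lit 0) (Fs.j (nat_lit 273) Fs.nil))) (Tr.node (Tr.I false Q.K (nat_lit 4) (nat_lit 1073) (nat_lit 20) (nat_lit 24) (nat_lit 0) (Fs.j (nat_lit 257) Fs.nil)) (Tr.I false Q.K (nat_lit 8) (nat_lit 1073) (nat_lit 20) (nat_lit 24) (nat_lit 0)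 (Fs.j (nat_lit 65) Fs.nil)))) (Tr.node (Tr.node (Tr.I false Q.G (nat_lit 11088901) (nat_lit 4) (nat_lit 8) (nat_lit 12) (nat_lit 24) Fs.nil) (Tr.I true Q.G (nat_lit 11088901) (nat_lit 4) (nat_lit 8) (nat_lit 24) (nat_lit 12) Fs.nil)) (Tr.node (Tr.I false Q.G (nat_lit 11088917) (nat_lit 0) (nat_lit 8) (nat_lit 24) (nat_lit 12) Fs.nil) (Tr.I true Q.G (nat_lit 11088917) (nat_lit 0) (nat_lit 8) (nat_lit 12) (nat_lit 24) Fs.nil)))))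
def cS67 : Tr := (Tr.node (Tr.node (Tr.node (Tr.node (Tr.I false Q.G (nat_lit 11088933) (nat_lit 24) (nat_lit 0) (nat_lit 4) (nat_lit 12) Fs.nil) (Tr.I true Q.G (nat_lit 11088933) (nat_lit 0) (nat_lit 4) (nat_lit 24) (nat_lit 12) Fs.nil)) (Tr.node (Tr.I false Q.G (nat_lit 11088949) (nat_lit 24) (nat_lit 0) (nat_lit 8) (nat_lit 4) Fs.nil) (Tr.I true Q.G (nat_lit 11088949) (nat_lit 24) (nat_lit 4) (nat_lit 8) (nat_lit 0) Fs.nil))) (Tr.node (Tr.node (Tr.I true Q.G (nat_lit 11088949) (nat_lit 4) (nat_lit 8) (nat_lit 24) (nat_lit 0) Fs.nil) (Tr.I false Q.G (nat_lit 11088949) (nat_lit 0) (nat_lit 8) (nat_lit 24) (nat_lit 4) Fs.nil)) (Tr.node (Tr.I false Q.G (nat_lit 11088997) (nat_lit 12) (nat_lit 0) (nat_lit 8) (nat_lit 4) Fs.nil) (Tr.I true Q.G (nat_lit 11088997) (nat_lit 8) (nat_lit 0) (nat_lit 4) (nat_lit 12) Fs.nil)))) (Tr.node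 (Tr.node (Tr.node (Tr.I true Q.G (nat_lit 11088997) (nat_lit 0) (nat_lit 4) (nat_lit 8) (nat_lit 12) Fs.nil) (Tr.I true Q.F (nat_lit 0) (nat_lit 4) (nat_lit 8) (nat_lit 12) (nat_lit 0) (Fs.b (nat_lit 24) (Fs.j (nat_lit 1665) Fs.nil)))) (Tr.node (Tr.I false Q.F (nat_lit 0) (nat_lit 4) (nat_lit 8) (nat_lit 16) (nat_lit 0) (Fs.b (nat_lit 20) (Fs.j (nat_lit 2353) Fs.nil))) (Tr.I false Q.adt (nat_lit 0) (nat_lit 12) (nat_lit 16) (nat_lit 4) (nat_lit 0) (Fs.b (nat_lit 8) (Fs.j (nat_lit 2385) Fs.nil))))) (Tr.node (Tr.node (Tr.I true Q.F (nat_lit 0) (nat_lit 4) (nat_lit 12) (nat_lit 16) (nat_lit 0) (Fs.b (nat_lit 20) (Fs.j (nat_lit 2337) Fs.nil))) (Tr.I true Q.adt (nat_lit 0) (nat_lit 8) (nat_lit 20) (nat_lit 4) (nat_lit 0) (Fs.b (nat_lit 16) (Fs.j (nat_lit 2353) Fs.nil)))) (Tr.node (Tr.I true Q.adt (nat_lit 0) (nat_lit 12) (nat_lit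 20) (nat_lit 4) (nat_lit 0) (Fs.b (nat_lit 8) (Fs.j (nat_lit 2369) Fs.nil))) (Tr.I false Q.adt (nat_lit 0) (nat_lit 12) (nat_lit 20) (nat_lit 4) (nat_lit 0) (Fs.b (nat_lit 16) (Fs.j (nat_lit 2337) Fs.nil)))))))
def cS68 : Tr := (Tr.node (Tr.node (Tr.node (Tr.node (Tr.I false Q.F (nat_lit 0) (nat_lit 4) (nat_lit 12) (nat_lit 20) (nat_lit 0) (Fs.b (nat_lit 24) (Fs.j (nat_lit 1057) Fs.nil))) (Tr.I true Q.adt (nat_lit 0) (nat_lit 16) (nat_lit 20) (nat_lit 4) (nat_lit 0) (Fs.b (nat_lit 8) (Fs.j (nat_lit 2353) Fs.nil)))) (Tr.node (Tr.I false Q.adt (nat_lit 0) (nat_lit 16) (nat_lit 20) (nat_lit 4) (nat_lit 0) (Fs.b (nat_lit 12) (Fs.j (nat_lit 2337) Fs.nil))) (Tr.I true Q.F (nat_lit 0) (nat_lit 4) (nat_lit 16) (nat_lit 20) (nat_lit 0) (Fs.b (nat_lit 24) (Fs.j (nat_lit 609) Fs.nil))))) (Tr.node (Tr.node (Tr.I true Q.tdj (nat_lit 65)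 (nat_lit 609) (nat_lit 16) (nat_lit 20) (nat_lit 0) (Fs.b (nat_lit 24) Fs.nil)) (Tr.I true Q.adt (nat_lit 4) (nat_lit 12) (nat_lit 24) (nat_lit 0) (nat_lit 0) (Fs.b (nat_lit 20) (Fs.j (nat_lit 1057) Fs.nil)))) (Tr.node (Tr.I false Q.adt (nat_lit 0) (nat_lit 16) (nat_lit 24) (nat_lit 4) (nat_lit 0) (Fs.b (nat_lit 8) (Fs.j (nat_lit 1649) Fs.nil))) (Tr.I true Q.adt (nat_lit 0) (nat_lit 16) (nat_lit 24) (nat_lit 4) (nat_lit 0) (Fs.b (nat_lit 12) (Fs.j (nat_lit 1633) Fs.nil)))))) (Tr.node (Tr.node (Tr.node (Tr.I true Q.adt (nat_lit 4) (nat_lit 16) (nat_lit 24) (nat_lit 0) (nat_lit 0) (Fs.b (nat_lit 20) (Fs.j (nat_lit 609) Fs.nil))) (Tr.I true Q.adt (nat_lit 0) (nat_lit 20) (nat_lit 24) (nat_lit 4) (nat_lit 0) (Fs.b (nat_lit 8) (Fs.j (nat_lit 1073) Fs.nil)))) (Tr.node (Tr.I false Q.adt (nat_lit 0) (nat_lit 20) (nat_lit 24) (nat_lit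 4) (nat_lit 0) (Fs.b (nat_lit 12) (Fs.j (nat_lit 1057) Fs.nil))) (Tr.I false Q.adt (nat_lit 4) (nat_lit 20) (nat_lit 24) (nat_lit 0) (nat_lit 0) (Fs.b (nat_lit 12) (Fs.j (nat_lit 1057) Fs.nil))))) (Tr.node (Tr.node (Tr.I false Q.adt (nat_lit 4) (nat_lit 20) (nat_lit 24) (nat_lit 0) (nat_lit 0) (Fs.b (nat_lit 16) (Fs.j (nat_lit 609) Fs.nil))) (Tr.I false Q.adt (nat_lit 0) (nat_lit 20) (nat_lit 24) (nat_lit 4) (nat_lit 0) (Fs.b (nat_lit 16) (Fs.j (nat_lit 609) Fs.nil)))) (Tr.node (Tr.I true Q.jac (nat_lit 0) (nat_lit 4) (nat_lit 8) (nat_lit 0) (nat_lit 0) (Fs.t (nat_lit 12) (nat_lit 16) (Fs.j (nat_lit 2385) Fs.nil))) (Tr.I false Q.jac (nat_lit 0) (nat_lit 4) (nat_lit 8) (nat_lit 0) (nat_lit 0) (Fs.t (nat_lit 12) (nat_lit 20) (Fs.j (nat_lit 2369) Fs.nil)))))))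
def cS69 : Tr := (Tr.node (Tr.node (Tr.node (Tr.node (Tr.I false Q.jac (nat_lit 0) (nat_lit 4) (nat_lit 8) (nat_lit 0) (nat_lit 0) (Fs.t (nat_lit 16) (nat_lit 20) (Fs.j (nat_lit 2353) Fs.nil))) (Tr.I false Q.jac (nat_lit 0) (nat_lit 4) (nat_lit 8) (nat_lit 0) (nat_lit 0) (Fs.t (nat_lit 12) (nat_lit 24) (Fs.j (nat_lit 1665) Fs.nil)))) (Tr.node (Tr.I true Q.jac (nat_lit 0) (nat_lit 4) (nat_lit 12) (nat_lit 0) (nat_lit 0) (Fs.t (nat_lit 16) (nat_lit 20) (Fs.j (nat_lit 2337) Fs.nil))) (Tr.I true Q.jac (nat_lit 0) (nat_lit 4) (nat_lit 12) (nat_lit 0) (nat_lit 0) (Fs.t (nat_lit 8) (nat_lit 24) (Fs.j (nat_lit 1665) Fs.nil))))) (Tr.node (Tr.node (Tr.I true Q.jac (nat_lit 0) (nat_lit 4) (nat_lit 16) (nat_lit 0) (nat_lit 0) (Fs.t (nat_lit 20) (nat_lit 24) (Fs.j (nat_lit 609) Fs.nil))) (Tr.I true Q.G (nat_lit 8) (nat_lit 20) (nat_lit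 12) (nat_lit 16) (nat_lit 16997) Fs.nil)) (Tr.node (Tr.I false Q.G (nat_lit 8) (nat_lit 16) (nat_lit 12) (nat_lit 20) (nat_lit 16997) Fs.nil) (Tr.I true Q.F (nat_lit 0) (nat_lit 8) (nat_lit 12) (nat_lit 4) (nat_lit 0) (Fs.b (nat_lit 24) (Fs.j (nat_lit 1665) Fs.nil)))))) (Tr.node (Tr.node (Tr.node (Tr.I true Q.adt (nat_lit 0) (nat_lit 12) (nat_lit 16) (nat_lit 8) (nat_lit 0) (Fs.b (nat_lit 4) (Fs.j (nat_lit 2385) Fs.nil))) (Tr.I true Q.F (nat_lit 0) (nat_lit 8) (nat_lit 12) (nat_lit 16) (nat_lit 0) (Fs.b (nat_lit 20) (Fs.j (nat_lit 2321) Fs.nil)))) (Tr.node (Tr.I true Q.F (nat_lit 0) (nat_lit 8) (nat_lit 20) (nat_lit 4) (nat_lit 0) (Fs.b (nat_lit 16) (Fs.j (nat_lit 2353) Fs.nil))) (Tr.I false Q.adt (nat_lit 0) (nat_lit 12) (nat_lit 20) (nat_lit 8) (nat_lit 0) (Fs.b (nat_lit 4) (Fs.j (nat_lit 2369) Fs.nil))))) (Tr.node (Tr.node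 (Tr.I false Q.adt (nat_lit 0) (nat_lit 12) (nat_lit 20) (nat_lit 8) (nat_lit 0) (Fs.b (nat_lit 16) (Fs.j (nat_lit 2321) Fs.nil))) (Tr.I true Q.adt (nat_lit 0) (nat_lit 16) (nat_lit 20) (nat_lit 8) (nat_lit 0) (Fs.b (nat_lit 4) (Fs.j (nat_lit 2353) Fs.nil)))) (Tr.node (Tr.I true Q.F (nat_lit 0) (nat_lit 8) (nat_lit 16) (nat_lit 20) (nat_lit 0) (Fs.b (nat_lit 24) (Fs.j (nat_lit 593) Fs.nil))) (Tr.I false Q.tdj (nat_lit 257) (nat_lit 593) (nat_lit 16) (nat_lit 20) (nat_lit 0) (Fs.b (nat_lit 24) Fs.nil))))))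
def cS70 : Tr := (Tr.node (Tr.node (Tr.node (Tr.node (Tr.I true Q.adt (nat_lit 0) (nat_lit 16) (nat_lit 24) (nat_lit 8) (nat_lit 0) (Fs.b (nat_lit 4) (Fs.j (nat_lit 1649) Fs.nil))) (Tr.I false Q.adt (nat_lit 0) (nat_lit 16) (nat_lit 24) (nat_lit 8) (nat_lit 0) (Fs.b (nat_lit 12) (Fs.j (nat_lit 1617) Fs.nil)))) (Tr.node (Tr.I false Q.adt (nat_lit 8) (nat_lit 16) (nat_lit 24) (nat_lit 0) (nat_lit 0) (Fs.b (nat_lit 20) (Fs.j (nat_lit 593) Fs.nil))) (Tr.I false Q.adt (nat_lit 0) (nat_lit 20) (nat_lit 24) (nat_lit 8) (nat_lit 0) (Fs.b (nat_lit 4) (Fs.j (nat_lit 1073) Fs.nil))))) (Tr.node (Tr.node (Tr.I true Q.adt (nat_lit 0) (nat_lit 20) (nat_lit 24) (nat_lit 8) (nat_lit 0) (Fs.b (nat_lit 12) (Fs.j (nat_lit 1041) Fs.nil))) (Tr.I true Q.adt (nat_lit 0) (nat_lit 20) (nat_lit 24) (nat_lit 8) (nat_lit 0) (Fs.b (nat_lit 16) (Fs.j (nat_lit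 593) Fs.nil)))) (Tr.node (Tr.I true Q.adt (nat_lit 8) (nat_lit 20) (nat_lit 24) (nat_lit 0) (nat_lit 0) (Fs.b (nat_lit 16) (Fs.j (nat_lit 593) Fs.nil))) (Tr.I false Q.K (nat_lit 0) (nat_lit 16) (nat_lit 4) (nat_lit 8) (nat_lit 0) (Fs.b (nat_lit 12) (Fs.j (nat_lit 2385) Fs.nil)))))) (Tr.node (Tr.node (Tr.node (Tr.I false Q.F (nat_lit 4) (nat_lit 8) (nat_lit 12) (nat_lit 16) (nat_lit 0) (Fs.b (nat_lit 20) (Fs.j (nat_lit 2305) Fs.nil))) (Tr.I true Q.K (nat_lit 0) (nat_lit 20) (nat_lit 4) (nat_lit 8) (nat_lit 0) (Fs.b (nat_lit 12) (Fs.j (nat_lit 2369) Fs.nil)))) (Tr.node (Tr.I true Q.K (nat_lit 0) (nat_lit 20) (nat_lit 4) (nat_lit 8) (nat_lit 0) (Fs.b (nat_lit 16) (Fs.j (nat_lit 2353) Fs.nil))) (Tr.I true Q.adt (nat_lit 4) (nat_lit 12) (nat_lit 20) (nat_lit 8) (nat_lit 0) (Fs.b (nat_lit 16) (Fs.j (nat_lit 2305) Fs.nil))))) (Tr.node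 (Tr.node (Tr.I false Q.F (nat_lit 4) (nat_lit 8) (nat_lit 16) (nat_lit 20) (nat_lit 0) (Fs.b (nat_lit 24) (Fs.j (nat_lit 577) Fs.nil))) (Tr.I true Q.tdj (nat_lit 273) (nat_lit 577) (nat_lit 16) (nat_lit 20) (nat_lit 0) (Fs.b (nat_lit 24) Fs.nil))) (Tr.node (Tr.I false Q.K (nat_lit 0) (nat_lit 24) (nat_lit 4) (nat_lit 8) (nat_lit 0) (Fs.b (nat_lit 16) (Fs.j (nat_lit 1649) Fs.nil))) (Tr.I true Q.K (nat_lit 0) (nat_lit 24) (nat_lit 4) (nat_lit 8) (nat_lit 0) (Fs.b (nat_lit 20) (Fs.j (nat_lit 1073) Fs.nil)))))))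
def cS71 : Tr := (Tr.node (Tr.node (Tr.node (Tr.node (Tr.I true Q.adt (nat_lit 4) (nat_lit 16) (nat_lit 24) (nat_lit 8) (nat_lit 0) (Fs.b (nat_lit 12) (Fs.j (nat_lit 1601) Fs.nil))) (Tr.I true Q.adt (nat_lit 8) (nat_lit 16) (nat_lit 24) (nat_lit 4) (nat_lit 0) (Fs.b (nat_lit 20) (Fs.j (nat_lit 577) Fs.nil)))) (Tr.node (Tr.I false Q.adt (nat_lit 4) (nat_lit 20) (nat_lit 24) (nat_lit 8) (nat_lit 0) (Fs.b (nat_lit 12) (Fs.j (nat_lit 1025) Fs.nil))) (Tr.I false Q.adt (nat_lit 8) (nat_lit 20) (nat_lit 24) (nat_lit 4) (nat_lit 0) (Fs.b (nat_lit 16) (Fs.j (nat_lit 577) Fs.nil))))) (Tr.node (Tr.node (Tr.I false Q.adt (nat_lit 4) (nat_lit 20) (nat_lit 24) (nat_lit 8) (nat_lit 0) (Fs.b (nat_lit 16) (Fs.j (nat_lit 577) Fs.nil))) (Tr.I false Q.jac (nat_lit 0) (nat_lit 8) (nat_lit 12) (nat_lit 0) (nat_lit 0) (Fs.t (nat_lit 4) (nat_lit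 24) (Fs.j (nat_lit 1665) Fs.nil)))) (Tr.node (Tr.I false Q.jac (nat_lit 0) (nat_lit 8) (nat_lit 16) (nat_lit 0) (nat_lit 0) (Fs.t (nat_lit 4) (nat_lit 20) (Fs.j (nat_lit 2353) Fs.nil))) (Tr.I false Q.jac (nat_lit 0) (nat_lit 8) (nat_lit 16) (nat_lit 0) (nat_lit 0) (Fs.t (nat_lit 12) (nat_lit 20) (Fs.j (nat_lit 2321) Fs.nil)))))) (Tr.node (Tr.node (Tr.node (Tr.I true Q.jac (nat_lit 0) (nat_lit 8) (nat_lit 16) (nat_lit 0) (nat_lit 0) (Fs.t (nat_lit 20) (nat_lit 24) (Fs.j (nat_lit 593) Fs.nil))) (Tr.I true Q.jac (nat_lit 0) (nat_lit 8) (nat_lit 20) (nat_lit 0) (nat_lit 0) (Fs.t (nat_lit 4) (nat_lit 16) (Fs.j (nat_lit 2353) Fs.nil)))) (Tr.node (Tr.I true Q.jac (nat_lit 0) (nat_lit 8) (nat_lit 20) (nat_lit 0) (nat_lit 0) (Fs.t (nat_lit 16) (nat_lit 24) (Fs.j (nat_lit 593) Fs.nil))) (Tr.I false Q.G (nat_lit 4) (nat_lit 20) (nat_lit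 12) (nat_lit 16) (nat_lit 264293) Fs.nil))) (Tr.node (Tr.node (Tr.I true Q.G (nat_lit 4) (nat_lit 16) (nat_lit 12) (nat_lit 20) (nat_lit 264293) Fs.nil) (Tr.I true Q.jac (nat_lit 4) (nat_lit 8) (nat_lit 12) (nat_lit 0) (nat_lit 0) (Fs.t (nat_lit 0) (nat_lit 24) (Fs.j (nat_lit 1665) Fs.nil)))) (Tr.node (Tr.I true Q.jac (nat_lit 4) (nat_lit 8) (nat_lit 16) (nat_lit 0) (nat_lit 0) (Fs.t (nat_lit 0) (nat_lit 20) (Fs.j (nat_lit 2353) Fs.nil))) (Tr.I true Q.jac (nat_lit 4) (nat_lit 8) (nat_lit 16) (nat_lit 0) (nat_lit 0) (Fs.t (nat_lit 12) (nat_lit 20) (Fs.j (nat_lit 2305) Fs.nil)))))))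
def cS72 : Tr := (Tr.node (Tr.node (Tr.node (Tr.node (Tr.I false Q.jac (nat_lit 4) (nat_lit 8) (nat_lit 16) (nat_lit 0) (nat_lit 0) (Fs.t (nat_lit 20) (nat_lit 24) (Fs.j (nat_lit 577) Fs.nil))) (Tr.I false Q.jac (nat_lit 4) (nat_lit 8) (nat_lit 20) (nat_lit 0) (nat_lit 0) (Fs.t (nat_lit 16) (nat_lit 24) (Fs.j (nat_lit 577) Fs.nil)))) (Tr.node (Tr.I true Q.G (nat_lit 0) (nat_lit 20) (nat_lit 12) (nat_lit 16) (nat_lit 298213) Fs.nil) (Tr.I false Q.G (nat_lit 0) (nat_lit 16) (nat_lit 12) (nat_lit 20) (nat_lit 298213) Fs.nil))) (Tr.node (Tr.node (Tr.I true Q.K (nat_lit 0) (nat_lit 16) (nat_lit 4) (nat_lit 12) (nat_lit 0) (Fs.b (nat_lit 8) (Fs.j (nat_lit 2385) Fs.nil))) (Tr.I false Q.K (nat_lit 0) (nat_lit 16) (nat_lit 8) (nat_lit 12) (nat_lit 0) (Fs.b (nat_lit 4) (Fs.j (nat_lit 2385) Fs.nil)))) (Tr.node (Tr.I false Q.F (nat_lit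 0) (nat_lit 12) (nat_lit 16) (nat_lit 4) (nat_lit 0) (Fs.b (nat_lit 8) (Fs.j (nat_lit 2385) Fs.nil))) (Tr.I true Q.F (nat_lit 0) (nat_lit 12) (nat_lit 16) (nat_lit 8) (nat_lit 0) (Fs.b (nat_lit 4) (Fs.j (nat_lit 2385) Fs.nil)))))) (Tr.node (Tr.node (Tr.node (Tr.I true Q.F (nat_lit 0) (nat_lit 12) (nat_lit 16) (nat_lit 8) (nat_lit 0) (Fs.b (nat_lit 20) (Fs.j (nat_lit 2321) Fs.nil))) (Tr.I true Q.F (nat_lit 0) (nat_lit 12) (nat_lit 20) (nat_lit 4) (nat_lit 0) (Fs.b (nat_lit 8) (Fs.j (nat_lit 2369) Fs.nil)))) (Tr.node (Tr.I false Q.F (nat_lit 0) (nat_lit 12) (nat_lit 20) (nat_lit 4) (nat_lit 0) (Fs.b (nat_lit 16) (Fs.j (nat_lit 2337) Fs.nil))) (Tr.I true Q.F (nat_lit 0) (nat_lit 12) (nat_lit 20) (nat_lit 4) (nat_lit 0) (Fs.b (nat_lit 24) (Fs.j (nat_lit 1057) Fs.nil))))) (Tr.node (Tr.node (Tr.I false Q.F (nat_lit 0) (nat_lit 12)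 (nat_lit 20) (nat_lit 8) (nat_lit 0) (Fs.b (nat_lit 4) (Fs.j (nat_lit 2369) Fs.nil))) (Tr.I false Q.F (nat_lit 0) (nat_lit 12) (nat_lit 20) (nat_lit 8) (nat_lit 0) (Fs.b (nat_lit 16) (Fs.j (nat_lit 2321) Fs.nil)))) (Tr.node (Tr.I false Q.adt (nat_lit 0) (nat_lit 16) (nat_lit 20) (nat_lit 12) (nat_lit 0) (Fs.b (nat_lit 4) (Fs.j (nat_lit 2337) Fs.nil))) (Tr.I true Q.adt (nat_lit 0) (nat_lit 16) (nat_lit 20) (nat_lit 12) (nat_lit 0) (Fs.b (nat_lit 8) (Fs.j (nat_lit 2321) Fs.nil)))))))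
def cS73 : Tr := (Tr.node (Tr.node (Tr.node (Tr.node (Tr.I false Q.F (nat_lit 0) (nat_lit 12) (nat_lit 16) (nat_lit 20) (nat_lit 0) (Fs.b (nat_lit 24) (Fs.j (nat_lit 273) Fs.nil))) (Tr.I false Q.adt (nat_lit 0) (nat_lit 16) (nat_lit 24) (nat_lit 12) (nat_lit 0) (Fs.b (nat_lit 4) (Fs.j (nat_lit 1633) Fs.nil)))) (Tr.node (Tr.I true Q.adt (nat_lit 0) (nat_lit 16) (nat_lit 24) (nat_lit 12) (nat_lit 0) (Fs.b (nat_lit 8) (Fs.j (nat_lit 1617) Fs.nil))) (Tr.I true Q.adt (nat_lit 12) (nat_lit 16) (nat_lit 24) (nat_lit 0) (nat_lit 0) (Fs.b (nat_lit 20) (Fs.j (nat_lit 273) Fs.nil))))) (Tr.node (Tr.node (Tr.I true Q.adt (nat_lit 0) (nat_lit 20) (nat_lit 24) (nat_lit 12) (nat_lit 0) (Fs.b (nat_lit 4) (Fs.j (nat_lit 1057) Fs.nil))) (Tr.I true Q.adt (nat_lit 12) (nat_lit 20) (nat_lit 24) (nat_lit 0) (nat_lit 0) (Fs.b (nat_lit 4) (Fs.j (nat_lit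 1057) Fs.nil)))) (Tr.node (Tr.I false Q.adt (nat_lit 0) (nat_lit 20) (nat_lit 24) (nat_lit 12) (nat_lit 0) (Fs.b (nat_lit 8) (Fs.j (nat_lit 1041) Fs.nil))) (Tr.I false Q.adt (nat_lit 0) (nat_lit 20) (nat_lit 24) (nat_lit 12) (nat_lit 0) (Fs.b (nat_lit 16) (Fs.j (nat_lit 273) Fs.nil)))))) (Tr.node (Tr.node (Tr.node (Tr.I false Q.adt (nat_lit 12) (nat_lit 20) (nat_lit 24) (nat_lit 0) (nat_lit 0) (Fs.b (nat_lit 16) (Fs.j (nat_lit 273) Fs.nil))) (Tr.I false Q.F (nat_lit 4) (nat_lit 12) (nat_lit 16) (nat_lit 8) (nat_lit 0) (Fs.b (nat_lit 20) (Fs.j (nat_lit 2305) Fs.nil)))) (Tr.node (Tr.I false Q.K (nat_lit 0) (nat_lit 20) (nat_lit 4) (nat_lit 12) (nat_lit 0) (Fs.b (nat_lit 8) (Fs.j (nat_lit 2369) Fs.nil))) (Tr.I false Q.K (nat_lit 0) (nat_lit 20) (nat_lit 4) (nat_lit 12) (nat_lit 0) (Fs.b (nat_lit 16) (Fs.j (nat_lit 2337) Fs.nil)))))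 (Tr.node (Tr.node (Tr.I true Q.F (nat_lit 4) (nat_lit 12) (nat_lit 20) (nat_lit 8) (nat_lit 0) (Fs.b (nat_lit 16) (Fs.j (nat_lit 2305) Fs.nil))) (Tr.I false Q.adt (nat_lit 4) (nat_lit 16) (nat_lit 20) (nat_lit 12) (nat_lit 0) (Fs.b (nat_lit 8) (Fs.j (nat_lit 2305) Fs.nil)))) (Tr.node (Tr.I true Q.F (nat_lit 4) (nat_lit 12) (nat_lit 16) (nat_lit 20) (nat_lit 0) (Fs.b (nat_lit 24) (Fs.j (nat_lit 257) Fs.nil))) (Tr.I true Q.K (nat_lit 0) (nat_lit 24) (nat_lit 4) (nat_lit 12) (nat_lit 0) (Fs.b (nat_lit 16) (Fs.j (nat_lit 1633) Fs.nil)))))))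
def cS74 : Tr := (Tr.node (Tr.node (Tr.node (Tr.node (Tr.I false Q.adt (nat_lit 4) (nat_lit 16) (nat_lit 24) (nat_lit 12) (nat_lit 0) (Fs.b (nat_lit 8) (Fs.j (nat_lit 1601) Fs.nil))) (Tr.I false Q.adt (nat_lit 12) (nat_lit 16) (nat_lit 24) (nat_lit 4) (nat_lit 0) (Fs.b (nat_lit 20) (Fs.j (nat_lit 257) Fs.nil)))) (Tr.node (Tr.I false Q.adt (nat_lit 12) (nat_lit 20) (nat_lit 24) (nat_lit 4) (nat_lit 0) (Fs.b (nat_lit 0) (Fs.j (nat_lit 1057) Fs.nil))) (Tr.I true Q.adt (nat_lit 4) (nat_lit 20) (nat_lit 24) (nat_lit 12) (nat_lit 0) (Fs.b (nat_lit 8) (Fs.j (nat_lit 1025) Fs.nil))))) (Tr.node (Tr.node (Tr.I true Q.adt (nat_lit 4) (nat_lit 20) (nat_lit 24) (nat_lit 12) (nat_lit 0) (Fs.b (nat_lit 16) (Fs.j (nat_lit 257) Fs.nil))) (Tr.I true Q.adt (nat_lit 12) (nat_lit 20) (nat_lit 24) (nat_lit 4) (nat_lit 0) (Fs.b (nat_lit 16) (Fs.j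 (nat_lit 257) Fs.nil)))) (Tr.node (Tr.I true Q.K (nat_lit 0) (nat_lit 20) (nat_lit 8) (nat_lit 12) (nat_lit 0) (Fs.b (nat_lit 4) (Fs.j (nat_lit 2369) Fs.nil))) (Tr.I true Q.F (nat_lit 8) (nat_lit 12) (nat_lit 16) (nat_lit 20) (nat_lit 0) (Fs.b (nat_lit 24) (Fs.j (nat_lit 65) Fs.nil)))))) (Tr.node (Tr.node (Tr.node (Tr.I false Q.K (nat_lit 0) (nat_lit 24) (nat_lit 8) (nat_lit 12) (nat_lit 0) (Fs.b (nat_lit 16) (Fs.j (nat_lit 1617) Fs.nil))) (Tr.I true Q.K (nat_lit 0) (nat_lit 24) (nat_lit 8) (nat_lit 12) (nat_lit 0) (Fs.b (nat_lit 20) (Fs.j (nat_lit 1041) Fs.nil)))) (Tr.node (Tr.I true Q.K (nat_lit 4) (nat_lit 24) (nat_lit 8) (nat_lit 12) (nat_lit 0) (Fs.b (nat_lit 16) (Fs.j (nat_lit 1601) Fs.nil))) (Tr.I false Q.K (nat_lit 4) (nat_lit 24) (nat_lit 8) (nat_lit 12) (nat_lit 0) (Fs.b (nat_lit 20) (Fs.j (nat_lit 1025) Fs.nil)))))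 (Tr.node (Tr.node (Tr.I true Q.adt (nat_lit 12) (nat_lit 16) (nat_lit 24) (nat_lit 8) (nat_lit 0) (Fs.b (nat_lit 20) (Fs.j (nat_lit 65) Fs.nil))) (Tr.I false Q.adt (nat_lit 12) (nat_lit 20) (nat_lit 24) (nat_lit 8) (nat_lit 0) (Fs.b (nat_lit 16) (Fs.j (nat_lit 65) Fs.nil)))) (Tr.node (Tr.I false Q.adt (nat_lit 8) (nat_lit 20) (nat_lit 24) (nat_lit 12) (nat_lit 0) (Fs.b (nat_lit 16) (Fs.j (nat_lit 65) Fs.nil))) (Tr.I false Q.K (nat_lit 0) (nat_lit 20) (nat_lit 4) (nat_lit 16) (nat_lit 0) (Fs.b (nat_lit 8) (Fs.j (nat_lit 2353) Fs.nil)))))))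
def cS75 : Tr := (Tr.node (Tr.node (Tr.node (Tr.node (Tr.I true Q.K (nat_lit 0) (nat_lit 20) (nat_lit 4) (nat_lit 16) (nat_lit 0) (Fs.b (nat_lit 12) (Fs.j (nat_lit 2337) Fs.nil))) (Tr.I true Q.jac (nat_lit 0) (nat_lit 12) (nat_lit 16) (nat_lit 0) (nat_lit 0) (Fs.t (nat_lit 4) (nat_lit 20) (Fs.j (nat_lit 2337) Fs.nil)))) (Tr.node (Tr.I false Q.jac (nat_lit 0) (nat_lit 12) (nat_lit 16) (nat_lit 0) (nat_lit 0) (Fs.t (nat_lit 8) (nat_lit 20) (Fs.j (nat_lit 2321) Fs.nil))) (Tr.I false Q.jac (nat_lit 0) (nat_lit 12) (nat_lit 16) (nat_lit 0) (nat_lit 0) (Fs.t (nat_lit 20) (nat_lit 24) (Fs.j (nat_lit 273) Fs.nil))))) (Tr.node (Tr.node (Tr.I false Q.jac (nat_lit 0) (nat_lit 12) (nat_lit 20) (nat_lit 0) (nat_lit 0) (Fs.t (nat_lit 4) (nat_lit 16) (Fs.j (nat_lit 2337) Fs.nil))) (Tr.I false Q.jac (nat_lit 0) (nat_lit 12) (nat_lit 20) (nat_lit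 0) (nat_lit 0) (Fs.t (nat_lit 16) (nat_lit 24) (Fs.j (nat_lit 273) Fs.nil)))) (Tr.node (Tr.I true Q.G (nat_lit 4) (nat_lit 20) (nat_lit 8) (nat_lit 16) (nat_lit 1331813) Fs.nil) (Tr.I false Q.G (nat_lit 4) (nat_lit 16) (nat_lit 8) (nat_lit 20) (nat_lit 1331813) Fs.nil)))) (Tr.node (Tr.node (Tr.node (Tr.I true Q.K (nat_lit 0) (nat_lit 20) (nat_lit 12) (nat_lit 16) (nat_lit 0) (Fs.b (nat_lit 8) (Fs.j (nat_lit 2321) Fs.nil))) (Tr.I false Q.K (nat_lit 4) (nat_lit 20) (nat_lit 12) (nat_lit 16) (nat_lit 0) (Fs.b (nat_lit 8) (Fs.j (nat_lit 2305) Fs.nil)))) (Tr.node (Tr.I false Q.jac (nat_lit 4) (nat_lit 12) (nat_lit 16) (nat_lit 0) (nat_lit 0) (Fs.t (nat_lit 0) (nat_lit 20) (Fs.j (nat_lit 2337) Fs.nil))) (Tr.I true Q.jac (nat_lit 4) (nat_lit 12) (nat_lit 16) (nat_lit 0) (nat_lit 0) (Fs.t (nat_lit 8) (nat_lit 20) (Fs.j (nat_lit 2305)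 Fs.nil))))) (Tr.node (Tr.node (Tr.I true Q.jac (nat_lit 4) (nat_lit 12) (nat_lit 16) (nat_lit 0) (nat_lit 0) (Fs.t (nat_lit 20) (nat_lit 24) (Fs.j (nat_lit 257) Fs.nil))) (Tr.I true Q.jac (nat_lit 4) (nat_lit 12) (nat_lit 20) (nat_lit 0) (nat_lit 0) (Fs.t (nat_lit 16) (nat_lit 24) (Fs.j (nat_lit 257) Fs.nil)))) (Tr.node (Tr.I false Q.G (nat_lit 0) (nat_lit 20) (nat_lit 8) (nat_lit 16) (nat_lit 1406693) Fs.nil) (Tr.I true Q.G (nat_lit 0) (nat_lit 16) (nat_lit 8) (nat_lit 20) (nat_lit 1406693) Fs.nil)))))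
def cS76 : Tr := (Tr.node (Tr.node (Tr.node (Tr.node (Tr.I true Q.G (nat_lit 0) (nat_lit 12) (nat_lit 4) (nat_lit 8) (nat_lit 1420931) Fs.nil) (Tr.I false Q.G (nat_lit 0) (nat_lit 4) (nat_lit 8) (nat_lit 12) (nat_lit 1420931) Fs.nil)) (Tr.node (Tr.I true Q.jac (nat_lit 8) (nat_lit 12) (nat_lit 16) (nat_lit 0) (nat_lit 0) (Fs.t (nat_lit 0) (nat_lit 20) (Fs.j (nat_lit 2321) Fs.nil))) (Tr.I false Q.jac (nat_lit 8) (nat_lit 12) (nat_lit 16) (nat_lit 0) (nat_lit 0) (Fs.t (nat_lit 4) (nat_lit 20) (Fs.j (nat_lit 2305) Fs.nil))))) (Tr.node (Tr.node (Tr.I true Q.jac (nat_lit 8) (nat_lit 12) (nat_lit 16) (nat_lit 0) (nat_lit 0) (Fs.t (nat_lit 20) (nat_lit 24) (Fs.j (nat_lit 65) Fs.nil))) (Tr.I true Q.G (nat_lit 0) (nat_lit 20) (nat_lit 4) (nat_lit 16) (nat_lit 1483621) Fs.nil)) (Tr.node (Tr.I false Q.G (nat_lit 0) (nat_lit 16) (nat_lit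 4) (nat_lit 20) (nat_lit 1483621) Fs.nil) (Tr.I true Q.F (nat_lit 0) (nat_lit 16) (nat_lit 20) (nat_lit 4) (nat_lit 0) (Fs.b (nat_lit 8) (Fs.j (nat_lit 2353) Fs.nil)))))) (Tr.node (Tr.node (Tr.node (Tr.I false Q.F (nat_lit 0) (nat_lit 16) (nat_lit 20) (nat_lit 4) (nat_lit 0) (Fs.b (nat_lit 12) (Fs.j (nat_lit 2337) Fs.nil))) (Tr.I true Q.F (nat_lit 0) (nat_lit 16) (nat_lit 20) (nat_lit 4) (nat_lit 0) (Fs.b (nat_lit 24) (Fs.j (nat_lit 609) Fs.nil)))) (Tr.node (Tr.I true Q.F (nat_lit 0) (nat_lit 16) (nat_lit 20) (nat_lit 8) (nat_lit 0) (Fs.b (nat_lit 4) (Fs.j (nat_lit 2353) Fs.nil))) (Tr.I false Q.F (nat_lit 0) (nat_lit 16) (nat_lit 20) (nat_lit 12) (nat_lit 0) (Fs.b (nat_lit 4) (Fs.j (nat_lit 2337) Fs.nil))))) (Tr.node (Tr.node (Tr.I true Q.F (nat_lit 0) (nat_lit 16) (nat_lit 20) (nat_lit 12) (nat_lit 0) (Fs.b (nat_lit 8) (Fs.j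 (nat_lit 2321) Fs.nil))) (Tr.I false Q.F (nat_lit 0) (nat_lit 16) (nat_lit 24) (nat_lit 4) (nat_lit 0) (Fs.b (nat_lit 8) (Fs.j (nat_lit 1649) Fs.nil)))) (Tr.node (Tr.I true Q.F (nat_lit 0) (nat_lit 16) (nat_lit 24) (nat_lit 4) (nat_lit 0) (Fs.b (nat_lit 12) (Fs.j (nat_lit 1633) Fs.nil))) (Tr.I true Q.F (nat_lit 0) (nat_lit 16) (nat_lit 24) (nat_lit 8) (nat_lit 0) (Fs.b (nat_lit 4) (Fs.j (nat_lit 1649) Fs.nil)))))))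
def cS77 : Tr := (Tr.node (Tr.node (Tr.node (Tr.node (Tr.I false Q.F (nat_lit 0) (nat_lit 16) (nat_lit 24) (nat_lit 8) (nat_lit 0) (Fs.b (nat_lit 12) (Fs.j (nat_lit 1617) Fs.nil))) (Tr.I false Q.F (nat_lit 0) (nat_lit 16) (nat_lit 24) (nat_lit 12) (nat_lit 0) (Fs.b (nat_lit 4) (Fs.j (nat_lit 1633) Fs.nil)))) (Tr.node (Tr.I true Q.F (nat_lit 0) (nat_lit 16) (nat_lit 24) (nat_lit 12) (nat_lit 0) (Fs.b (nat_lit 8) (Fs.j (nat_lit 1617) Fs.nil))) (Tr.I true Q.adt (nat_lit 16) (nat_lit 20) (nat_lit 24) (nat_lit 0) (nat_lit 0) (Fs.b (nat_lit 4) (Fs.j (nat_lit 609) Fs.nil))))) (Tr.node (Tr.node (Tr.I true Q.adt (nat_lit 0) (nat_lit 20) (nat_lit 24) (nat_lit 16) (nat_lit 0) (Fs.b (nat_lit 4) (Fs.j (nat_lit 609) Fs.nil))) (Tr.I false Q.adt (nat_lit 16) (nat_lit 20) (nat_lit 24) (nat_lit 0) (nat_lit 0) (Fs.b (nat_lit 8) (Fs.j (nat_lit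 593) Fs.nil)))) (Tr.node (Tr.I false Q.adt (nat_lit 0) (nat_lit 20) (nat_lit 24) (nat_lit 16) (nat_lit 0) (Fs.b (nat_lit 8) (Fs.j (nat_lit 593) Fs.nil))) (Tr.I true Q.adt (nat_lit 16) (nat_lit 20) (nat_lit 24) (nat_lit 0) (nat_lit 0) (Fs.b (nat_lit 12) (Fs.j (nat_lit 273) Fs.nil)))))) (Tr.node (Tr.node (Tr.node (Tr.I true Q.adt (nat_lit 0) (nat_lit 20) (nat_lit 24) (nat_lit 16) (nat_lit 0) (Fs.b (nat_lit 12) (Fs.j (nat_lit 273) Fs.nil))) (Tr.I false Q.F (nat_lit 4) (nat_lit 16) (nat_lit 20) (nat_lit 12) (nat_lit 0) (Fs.b (nat_lit 8) (Fs.j (nat_lit 2305) Fs.nil)))) (Tr.node (Tr.I true Q.K (nat_lit 0) (nat_lit 24) (nat_lit 4) (nat_lit 16) (nat_lit 0) (Fs.b (nat_lit 8) (Fs.j (nat_lit 1649) Fs.nil))) (Tr.I false Q.K (nat_lit 0) (nat_lit 24) (nat_lit 4) (nat_lit 16) (nat_lit 0) (Fs.b (nat_lit 12) (Fs.j (nat_lit 1633) Fs.nil)))))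 (Tr.node (Tr.node (Tr.I true Q.F (nat_lit 4) (nat_lit 16) (nat_lit 24) (nat_lit 8) (nat_lit 0) (Fs.b (nat_lit 12) (Fs.j (nat_lit 1601) Fs.nil))) (Tr.I false Q.F (nat_lit 4) (nat_lit 16) (nat_lit 24) (nat_lit 12) (nat_lit 0) (Fs.b (nat_lit 8) (Fs.j (nat_lit 1601) Fs.nil)))) (Tr.node (Tr.I false Q.adt (nat_lit 16) (nat_lit 20) (nat_lit 24) (nat_lit 4) (nat_lit 0) (Fs.b (nat_lit 0) (Fs.j (nat_lit 609) Fs.nil))) (Tr.I true Q.adt (nat_lit 16) (nat_lit 20) (nat_lit 24) (nat_lit 4) (nat_lit 0) (Fs.b (nat_lit 8) (Fs.j (nat_lit 577) Fs.nil)))))))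
def cS78 : Tr := (Tr.node (Tr.node (Tr.node (Tr.node (Tr.I true Q.adt (nat_lit 4) (nat_lit 20) (nat_lit 24) (nat_lit 16) (nat_lit 0) (Fs.b (nat_lit 8) (Fs.j (nat_lit 577) Fs.nil))) (Tr.I false Q.adt (nat_lit 16) (nat_lit 20) (nat_lit 24) (nat_lit 4) (nat_lit 0) (Fs.b (nat_lit 12) (Fs.j (nat_lit 257) Fs.nil)))) (Tr.node (Tr.I false Q.adt (nat_lit 4) (nat_lit 20) (nat_lit 24) (nat_lit 16) (nat_lit 0) (Fs.b (nat_lit 12) (Fs.j (nat_lit 257) Fs.nil))) (Tr.I true Q.F (nat_lit 8) (nat_lit 16) (nat_lit 20) (nat_lit 12) (nat_lit 0) (Fs.b (nat_lit 24) (Fs.j (nat_lit 65) Fs.nil))))) (Tr.node (Tr.node (Tr.I false Q.K (nat_lit 0) (nat_lit 24) (nat_lit 8) (nat_lit 16) (nat_lit 0) (Fs.b (nat_lit 4) (Fs.j (nat_lit 1649) Fs.nil))) (Tr.I true Q.K (nat_lit 0) (nat_lit 24) (nat_lit 8) (nat_lit 16) (nat_lit 0) (Fs.b (nat_lit 12) (Fs.j (nat_lit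 1617) Fs.nil)))) (Tr.node (Tr.I false Q.K (nat_lit 4) (nat_lit 24) (nat_lit 8) (nat_lit 16) (nat_lit 0) (Fs.b (nat_lit 12) (Fs.j (nat_lit 1601) Fs.nil))) (Tr.I true Q.adt (nat_lit 16) (nat_lit 20) (nat_lit 24) (nat_lit 8) (nat_lit 0) (Fs.b (nat_lit 0) (Fs.j (nat_lit 593) Fs.nil)))))) (Tr.node (Tr.node (Tr.node (Tr.I false Q.adt (nat_lit 16) (nat_lit 20) (nat_lit 24) (nat_lit 8) (nat_lit 0) (Fs.b (nat_lit 4) (Fs.j (nat_lit 577) Fs.nil))) (Tr.I true Q.adt (nat_lit 16) (nat_lit 20) (nat_lit 24) (nat_lit 8) (nat_lit 0) (Fs.b (nat_lit 12) (Fs.j (nat_lit 65) Fs.nil)))) (Tr.node (Tr.I true Q.adt (nat_lit 8) (nat_lit 20) (nat_lit 24) (nat_lit 16) (nat_lit 0) (Fs.b (nat_lit 12) (Fs.j (nat_lit 65) Fs.nil))) (Tr.I true Q.K (nat_lit 0) (nat_lit 24) (nat_lit 12) (nat_lit 16) (nat_lit 0) (Fs.b (nat_lit 4) (Fs.j (nat_lit 1633) Fs.nil)))))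 (Tr.node (Tr.node (Tr.I false Q.K (nat_lit 0) (nat_lit 24) (nat_lit 12) (nat_lit 16) (nat_lit 0) (Fs.b (nat_lit 8) (Fs.j (nat_lit 1617) Fs.nil))) (Tr.I true Q.K (nat_lit 4) (nat_lit 24) (nat_lit 12) (nat_lit 16) (nat_lit 0) (Fs.b (nat_lit 8) (Fs.j (nat_lit 1601) Fs.nil)))) (Tr.node (Tr.I false Q.adt (nat_lit 16) (nat_lit 20) (nat_lit 24) (nat_lit 12) (nat_lit 0) (Fs.b (nat_lit 0) (Fs.j (nat_lit 273) Fs.nil))) (Tr.I true Q.adt (nat_lit 16) (nat_lit 20) (nat_lit 24) (nat_lit 12) (nat_lit 0) (Fs.b (nat_lit 4) (Fs.j (nat_lit 257) Fs.nil)))))))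
def cS79 : Tr := (Tr.node (Tr.node (Tr.node (Tr.node (Tr.I false Q.adt (nat_lit 16) (nat_lit 20) (nat_lit 24) (nat_lit 12) (nat_lit 0) (Fs.b (nat_lit 8) (Fs.j (nat_lit 65) Fs.nil))) (Tr.I false Q.K (nat_lit 0) (nat_lit 24) (nat_lit 4) (nat_lit 20) (nat_lit 0) (Fs.b (nat_lit 8) (Fs.j (nat_lit 1073) Fs.nil)))) (Tr.node (Tr.I true Q.K (nat_lit 0) (nat_lit 24) (nat_lit 8) (nat_lit 20) (nat_lit 0) (Fs.b (nat_lit 4) (Fs.j (nat_lit 1073) Fs.nil))) (Tr.I false Q.K (nat_lit 0) (nat_lit 24) (nat_lit 8) (nat_lit 20) (nat_lit 0) (Fs.b (nat_lit 12) (Fs.j (nat_lit 1041) Fs.nil))))) (Tr.node (Tr.node (Tr.I true Q.K (nat_lit 4) (nat_lit 24) (nat_lit 8) (nat_lit 20) (nat_lit 0) (Fs.b (nat_lit 12) (Fs.j (nat_lit 1025) Fs.nil))) (Tr.I true Q.K (nat_lit 0) (nat_lit 24) (nat_lit 12) (nat_lit 20) (nat_lit 0) (Fs.b (nat_lit 8) (Fs.j (nat_lit 1041)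 Fs.nil)))) (Tr.node (Tr.I false Q.K (nat_lit 4) (nat_lit 24) (nat_lit 12) (nat_lit 20) (nat_lit 0) (Fs.b (nat_lit 0) (Fs.j (nat_lit 1057) Fs.nil))) (Tr.I false Q.K (nat_lit 4) (nat_lit 24) (nat_lit 12) (nat_lit 20) (nat_lit 0) (Fs.b (nat_lit 8) (Fs.j (nat_lit 1025) Fs.nil)))))) (Tr.node (Tr.node (Tr.node (Tr.I false Q.K (nat_lit 4) (nat_lit 24) (nat_lit 16) (nat_lit 20) (nat_lit 0) (Fs.b (nat_lit 0) (Fs.j (nat_lit 609) Fs.nil))) (Tr.I true Q.K (nat_lit 8) (nat_lit 24) (nat_lit 16) (nat_lit 20) (nat_lit 0) (Fs.b (nat_lit 0) (Fs.j (nat_lit 593) Fs.nil)))) (Tr.node (Tr.I false Q.K (nat_lit 8) (nat_lit 24) (nat_lit 16) (nat_lit 20) (nat_lit 0) (Fs.b (nat_lit 4) (Fs.j (nat_lit 577) Fs.nil))) (Tr.I false Q.K (nat_lit 12) (nat_lit 24) (nat_lit 16) (nat_lit 20) (nat_lit 0) (Fs.b (nat_lit 0) (Fs.j (nat_lit 273) Fs.nil))))) (Tr.node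 (Tr.node (Tr.I true Q.K (nat_lit 12) (nat_lit 24) (nat_lit 16) (nat_lit 20) (nat_lit 0) (Fs.b (nat_lit 4) (Fs.j (nat_lit 257) Fs.nil))) (Tr.I false Q.K (nat_lit 12) (nat_lit 24) (nat_lit 16) (nat_lit 20) (nat_lit 0) (Fs.b (nat_lit 8) (Fs.j (nat_lit 65) Fs.nil)))) (Tr.node (Tr.I true Q.jac (nat_lit 0) (nat_lit 16) (nat_lit 20) (nat_lit 0) (nat_lit 0) (Fs.t (nat_lit 8) (nat_lit 12) (Fs.j (nat_lit 2321) Fs.nil))) (Tr.I false Q.jac (nat_lit 0) (nat_lit 16) (nat_lit 20) (nat_lit 0) (nat_lit 0) (Fs.t (nat_lit 4) (nat_lit 24) (Fs.j (nat_lit 609) Fs.nil)))))))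
def cS80 : Tr := (Tr.node (Tr.node (Tr.node (Tr.node (Tr.I false Q.jac (nat_lit 4) (nat_lit 16) (nat_lit 20) (nat_lit 0) (nat_lit 0) (Fs.t (nat_lit 8) (nat_lit 12) (Fs.j (nat_lit 2305) Fs.nil))) (Tr.I true Q.jac (nat_lit 4) (nat_lit 16) (nat_lit 20) (nat_lit 0) (nat_lit 0) (Fs.t (nat_lit 0) (nat_lit 24) (Fs.j (nat_lit 609) Fs.nil)))) (Tr.node (Tr.I true Q.jac (nat_lit 8) (nat_lit 16) (nat_lit 20) (nat_lit 0) (nat_lit 0) (Fs.t (nat_lit 0) (nat_lit 4) (Fs.j (nat_lit 2353) Fs.nil))) (Tr.I false Q.jac (nat_lit 8) (nat_lit 16) (nat_lit 20) (nat_lit 0) (nat_lit 0) (Fs.t (nat_lit 12) (nat_lit 24) (Fs.j (nat_lit 65) Fs.nil))))) (Tr.node (Tr.node (Tr.I false Q.jac (nat_lit 12) (nat_lit 16) (nat_lit 20) (nat_lit 0) (nat_lit 0) (Fs.t (nat_lit 0) (nat_lit 4) (Fs.j (nat_lit 2337) Fs.nil))) (Tr.I true Q.jac (nat_lit 12) (nat_lit 16) (nat_lit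 20) (nat_lit 0) (nat_lit 0) (Fs.t (nat_lit 8) (nat_lit 24) (Fs.j (nat_lit 65) Fs.nil)))) (Tr.node (Tr.I true Q.F (nat_lit 0) (nat_lit 20) (nat_lit 24) (nat_lit 4) (nat_lit 0) (Fs.b (nat_lit 8) (Fs.j (nat_lit 1073) Fs.nil))) (Tr.I false Q.F (nat_lit 0) (nat_lit 20) (nat_lit 24) (nat_lit 4) (nat_lit 0) (Fs.b (nat_lit 12) (Fs.j (nat_lit 1057) Fs.nil)))))) (Tr.node (Tr.node (Tr.node (Tr.I false Q.F (nat_lit 0) (nat_lit 20) (nat_lit 24) (nat_lit 4) (nat_lit 0) (Fs.b (nat_lit 16) (Fs.j (nat_lit 609) Fs.nil))) (Tr.I false Q.F (nat_lit 0) (nat_lit 20) (nat_lit 24) (nat_lit 8) (nat_lit 0) (Fs.b (nat_lit 4) (Fs.j (nat_lit 1073) Fs.nil)))) (Tr.node (Tr.I true Q.F (nat_lit 0) (nat_lit 20) (nat_lit 24) (nat_lit 8) (nat_lit 0) (Fs.b (nat_lit 12) (Fs.j (nat_lit 1041) Fs.nil))) (Tr.I true Q.F (nat_lit 0) (nat_lit 20) (nat_lit 24) (nat_lit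 8) (nat_lit 0) (Fs.b (nat_lit 16) (Fs.j (nat_lit 593) Fs.nil))))) (Tr.node (Tr.node (Tr.I true Q.F (nat_lit 0) (nat_lit 20) (nat_lit 24) (nat_lit 12) (nat_lit 0) (Fs.b (nat_lit 4) (Fs.j (nat_lit 1057) Fs.nil))) (Tr.I false Q.F (nat_lit 0) (nat_lit 20) (nat_lit 24) (nat_lit 12) (nat_lit 0) (Fs.b (nat_lit 8) (Fs.j (nat_lit 1041) Fs.nil)))) (Tr.node (Tr.I false Q.F (nat_lit 0) (nat_lit 20) (nat_lit 24) (nat_lit 12) (nat_lit 0) (Fs.b (nat_lit 16) (Fs.j (nat_lit 273) Fs.nil))) (Tr.I true Q.F (nat_lit 0) (nat_lit 20) (nat_lit 24) (nat_lit 16) (nat_lit 0) (Fs.b (nat_lit 4) (Fs.j (nat_lit 609) Fs.nil)))))))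
def cS81 : Tr := (Tr.node (Tr.node (Tr.node (Tr.I false Q.F (nat_lit 0) (nat_lit 20) (nat_lit 24) (nat_lit 16) (nat_lit 0) (Fs.b (nat_lit 8) (Fs.j (nat_lit 593) Fs.nil))) (Tr.node (Tr.I true Q.F (nat_lit 0) (nat_lit 20) (nat_lit 24) (nat_lit 16) (nat_lit 0) (Fs.b (nat_lit 12) (Fs.j (nat_lit 273) Fs.nil))) (Tr.I false Q.F (nat_lit 4) (nat_lit 20) (nat_lit 24) (nat_lit 8) (nat_lit 0) (Fs.b (nat_lit 12) (Fs.j (nat_lit 1025) Fs.nil))))) (Tr.node (Tr.I false Q.F (nat_lit 4) (nat_lit 20) (nat_lit 24) (nat_lit 8) (nat_lit 0) (Fs.b (nat_lit 16) (Fs.j (nat_lit 577) Fs.nil))) (Tr.node (Tr.I true Q.F (nat_lit 4) (nat_lit 20) (nat_lit 24) (nat_lit 12) (nat_lit 0) (Fs.b (nat_lit 8) (Fs.j (nat_lit 1025) Fs.nil))) (Tr.I true Q.F (nat_lit 4) (nat_lit 20) (nat_lit 24) (nat_lit 12) (nat_lit 0) (Fs.b (nat_lit 16) (Fs.j (nat_lit 257) Fs.nil))))))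 (Tr.node (Tr.node (Tr.I true Q.F (nat_lit 4) (nat_lit 20) (nat_lit 24) (nat_lit 16) (nat_lit 0) (Fs.b (nat_lit 8) (Fs.j (nat_lit 577) Fs.nil))) (Tr.node (Tr.I false Q.F (nat_lit 4) (nat_lit 20) (nat_lit 24) (nat_lit 16) (nat_lit 0) (Fs.b (nat_lit 12) (Fs.j (nat_lit 257) Fs.nil))) (Tr.I false Q.F (nat_lit 8) (nat_lit 20) (nat_lit 24) (nat_lit 12) (nat_lit 0) (Fs.b (nat_lit 16) (Fs.j (nat_lit 65) Fs.nil))))) (Tr.node (Tr.node (Tr.I true Q.F (nat_lit 8) (nat_lit 20) (nat_lit 24) (nat_lit 16) (nat_lit 0) (Fs.b (nat_lit 12) (Fs.j (nat_lit 65) Fs.nil))) (Tr.I false Q.G (nat_lit 0) (nat_lit 24) (nat_lit 4) (nat_lit 12) (nat_lit 11088933) Fs.nil)) (Tr.node (Tr.I true Q.G (nat_lit 0) (nat_lit 4) (nat_lit 12) (nat_lit 24) (nat_lit 11088933) Fs.nil) (Tr.I false Q.G (nat_lit 0) (nat_lit 4) (nat_lit 8) (nat_lit 12) (nat_lit 11088997) Fs.nil)))))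
def cSn1 : Tr := Tr.node cS0 cS1
def cSn2 : Tr := Tr.node cS3 cS4
def cSn3 : Tr := Tr.node cS2 cSn2
def cSn4 : Tr := Tr.node cSn1 cSn3
def cSn5 : Tr := Tr.node cS5 cS6
def cSn6 : Tr := Tr.node cS8 cS9
def cSn7 : Tr := Tr.node cS7 cSn6
def cSn8 : Tr := Tr.node cSn5 cSn7
def cSn9 : Tr := Tr.node cSn4 cSn8
def cSn10 : Tr := Tr.node cS10 cS11
def cSn11 : Tr := Tr.node cS13 cS14
def cSn12 : Tr := Tr.node cS12 cSn11
def cSn13 : Tr := Tr.node cSn10 cSn12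
def cSn14 : Tr := Tr.node cS15 cS16
def cSn15 : Tr := Tr.node cS18 cS19
def cSn16 : Tr := Tr.node cS17 cSn15
def cSn17 : Tr := Tr.node cSn14 cSn16
def cSn18 : Tr := Tr.node cSn13 cSn17
def cSn19 : Tr := Tr.node cSn9 cSn18
def cSn20 : Tr := Tr.node cS20 cS21
def cSn21 : Tr := Tr.node cS23 cS24
def cSn22 : Tr := Tr.node cS22 cSn21
def cSn23 : Tr := Tr.node cSn20 cSn22
def cSn24 : Tr := Tr.node cS25 cS26
def cSn25 : Tr := Tr.node cS28 cS29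
def cSn26 : Tr := Tr.node cS27 cSn25
def cSn27 : Tr := Tr.node cSn24 cSn26
def cSn28 : Tr := Tr.node cSn23 cSn27
def cSn29 : Tr := Tr.node cS30 cS31
def cSn30 : Tr := Tr.node cS33 cS34
def cSn31 : Tr := Tr.node cS32 cSn30
def cSn32 : Tr := Tr.node cSn29 cSn31
def cSn33 : Tr := Tr.node cS36 cS37
def cSn34 : Tr := Tr.node cS35 cSn33
def cSn35 : Tr := Tr.node cS39 cS40
def cSn36 : Tr := Tr.node cS38 cSn35
def cSn37 : Tr := Tr.node cSn34 cSn36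
def cSn38 : Tr := Tr.node cSn32 cSn37
def cSn39 : Tr := Tr.node cSn28 cSn38
def cSn40 : Tr := Tr.node cSn19 cSn39
def cSn41 : Tr := Tr.node cS41 cS42
def cSn42 : Tr := Tr.node cS44 cS45
def cSn43 : Tr := Tr.node cS43 cSn42
def cSn44 : Tr := Tr.node cSn41 cSn43
def cSn45 : Tr := Tr.node cS46 cS47
def cSn46 : Tr := Tr.node cS49 cS50
def cSn47 : Tr := Tr.node cS48 cSn46
def cSn48 : Tr := Tr.node cSn45 cSn47
def cSn49 : Tr := Tr.node cSn44 cSn48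
def cSn50 : Tr := Tr.node cS51 cS52
def cSn51 : Tr := Tr.node cS54 cS55
def cSn52 : Tr := Tr.node cS53 cSn51
def cSn53 : Tr := Tr.node cSn50 cSn52
def cSn54 : Tr := Tr.node cS56 cS57
def cSn55 : Tr := Tr.node cS59 cS60
def cSn56 : Tr := Tr.node cS58 cSn55
def cSn57 : Tr := Tr.node cSn54 cSn56
def cSn58 : Tr := Tr.node cSn53 cSn57
def cSn59 : Tr := Tr.node cSn49 cSn58
def cSn60 : Tr := Tr.node cS61 cS62
def cSn61 : Tr := Tr.node cS64 cS65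
def cSn62 : Tr := Tr.node cS63 cSn61
def cSn63 : Tr := Tr.node cSn60 cSn62
def cSn64 : Tr := Tr.node cS66 cS67
def cSn65 : Tr := Tr.node cS69 cS70
def cSn66 : Tr := Tr.node cS68 cSn65
def cSn67 : Tr := Tr.node cSn64 cSn66
def cSn68 : Tr := Tr.node cSn63 cSn67
def cSn69 : Tr := Tr.node cS71 cS72
def cSn70 : Tr := Tr.node cS74 cS75
def cSn71 : Tr := Tr.node cS73 cSn70
def cSn72 : Tr := Tr.node cSn69 cSn71
def cSn73 : Tr := Tr.node cS77 cS78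
def cSn74 : Tr := Tr.node cS76 cSn73
def cSn75 : Tr := Tr.node cS80 cS81
def cSn76 : Tr := Tr.node cS79 cSn75
def cSn77 : Tr := Tr.node cSn74 cSn76
def cSn78 : Tr := Tr.node cSn72 cSn77
def cSn79 : Tr := Tr.node cSn68 cSn78
def cSn80 : Tr := Tr.node cSn59 cSn79
def cSn81 : Tr := Tr.node cSn40 cSn80

def tgS : Tg := (.p (.T (.br (.v 4) (.v 5)) (.jo (.br (.v 0) (.v 1)) (.br (.v 2) (.v 3))) (.v 6)) (.p (.br (.T (.v 4) (.v 5) (.jo (.br (.v 0) (.v 1)) (.br (.v 2) (.v 3)))) (.v 6)) (.m (.T (.br (.v 4) (.v 5)) (.jo (.br (.v 0) (.v 2)) (.br (.v 1) (.v 3))) (.v 6)) (.m (.br (.T (.v 4) (.v 5) (.jo (.br (.v 0) (.v 2)) (.br (.v 1) (.v 3)))) (.v 6)) (.p (.T (.br (.v 4) (.v 5)) (.jo (.br (.v 0) (.v 3)) (.br (.v 1) (.v 2))) (.v 6)) (.p (.br (.T (.v 4) (.v 5) (.jo (.br (.v 0) (.v 3)) (.br (.v 1) (.v 2)))) (.v 6)) (.m (.T (.v 1) (.jo (.br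 (.v 2) (.v 3)) (.T (.v 4) (.v 5) (.v 0))) (.v 6)) (.m (.T (.v 2) (.jo (.br (.v 3) (.v 1)) (.T (.v 4) (.v 5) (.v 0))) (.v 6)) (.m (.T (.v 3) (.jo (.br (.v 1) (.v 2)) (.T (.v 4) (.v 5) (.v 0))) (.v 6)) (.p (.T (.v 0) (.jo (.br (.v 2) (.v 3)) (.T (.v 4) (.v 5) (.v 1))) (.v 6)) (.p (.T (.v 2) (.jo (.br (.v 3) (.v 0)) (.T (.v 4) (.v 5) (.v 1))) (.v 6)) (.p (.T (.v 3) (.jo (.br (.v 0) (.v 2)) (.T (.v 4) (.v 5) (.v 1))) (.v 6)) (.m (.T (.v 0) (.jo (.br (.v 1) (.v 3)) (.T (.v 4) (.v 5) (.v 2))) (.v 6)) (.m (.T (.v 1) (.jo (.br (.v 3) (.v 0)) (.T (.v 4) (.v 5) (.v 2))) (.v 6)) (.m (.T (.v 3) (.jo (.br (.v 0) (.v 1)) (.T (.v 4) (.v 5) (.v 2))) (.v 6)) (.p (.T (.v 0) (.jo (.br (.v 1) (.v 2)) (.T (.v 4) (.v 5) (.v 3))) (.v 6)) (.p (.T (.v 1) (.jo (.br (.v 2) (.v 0)) (.T (.v 4) (.v 5) (.v 3))) (.v 6)) (.p (.T (.v 2) (.jo (.br (.v 0) (.v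 1)) (.T (.v 4) (.v 5) (.v 3))) (.v 6)) (.m (.br (.jo (.br (.v 0) (.v 1)) (.T (.v 2) (.v 3) (.br (.v 4) (.v 5)))) (.v 6)) (.m (.br (.jo (.br (.v 2) (.v 3)) (.T (.v 0) (.v 1) (.br (.v 4) (.v 5)))) (.v 6)) (.p (.br (.jo (.T (.v 1) (.v 2) (.v 3)) (.br (.v 0) (.br (.v 4) (.v 5)))) (.v 6)) (.m (.br (.jo (.T (.v 0) (.v 2) (.v 3)) (.br (.v 1) (.br (.v 4) (.v 5)))) (.v 6)) (.p (.br (.jo (.T (.v 0) (.v 1) (.v 3)) (.br (.v 2) (.br (.v 4) (.v 5)))) (.v 6)) (.m (.br (.jo (.T (.v 0) (.v 1) (.v 2)) (.br (.v 3) (.br (.v 4) (.v 5)))) (.v 6)) (.p (.br (.jo (.T (.br (.v 0) (.v 1)) (.v 2) (.v 3)) (.br (.v 4) (.v 5))) (.v 6)) (.p (.br (.jo (.T (.br (.v 2) (.v 3)) (.v 0) (.v 1)) (.br (.v 4) (.v 5))) (.v 6)) .nil))))))))))))))))))))))))))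

theorem okS : chk tgS cSn81 = true := by decide +kernel

end H19I

end Pool.Agent.TP
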