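import Pool.Agent.Helper52_TP.Chk3

/-! Certificates, generated (helper19). -/

set_option autoImplicit false
set_option maxRecDepth 100000

namespace Pool.Agent.TP

namespace H19I

open Chk3

def cE0 : Tr := (Tr.node (Tr.node (Tr.node (Tr.node (Tr.I true Q.adj (nat_lit 273) (nat_lit 692227) (nat_lit 12) (nat_lit 0) (nat_lit 0) Fs.nil) (Tr.I true Q.jac (nat_lit 4) (nat_lit 8) (nat_lit 12) (nat_lit 0) (nat_lit 0) (Fs.j (nat_lit 692227) Fs.nil))) (Tr.node (Tr.I false Q.adj (nat_lit 257) (nat_lit 692243) (nat_lit 12) (nat_lit 0) (nat_lit 0) Fs.nil) (Tr.I false Q.jac (nat_lit 0) (nat_lit 8) (nat_lit 12) (nat_lit 0) (nat_lit 0) (Fs.j (nat_lit 692243) Fs.nil)))) (Tr.node (Tr.node (Tr.I true Q.adj (nat_lit 65) (nat_lit 692259) (nat_lit 12) (nat_lit 0) (nat_lit 0) Fs.nil) (Tr.I true Q.jac (nat_lit 0) (nat_lit 4) (nat_lit 12)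 (nat_lit 0) (nat_lit 0) (Fs.j (nat_lit 692259) Fs.nil))) (Tr.node (Tr.I false Q.adj (nat_lit 65) (nat_lit 692275) (nat_lit 8) (nat_lit 0) (nat_lit 0) Fs.nil) (Tr.I false Q.jac (nat_lit 0) (nat_lit 4) (nat_lit 8) (nat_lit 0) (nat_lit 0) (Fs.j (nat_lit 692275) Fs.nil))))) (Tr.node (Tr.node (Tr.node (Tr.I true Q.adj (nat_lit 257) (nat_lit 692275) (nat_lit 4) (nat_lit 0) (nat_lit 0) Fs.nil) (Tr.I false Q.adj (nat_lit 273) (nat_lit 692275) (nat_lit 0) (nat_lit 0) (nat_lit 0) Fs.nil)) (Tr.node (Tr.I false Q.adj (nat_lit 577) (nat_lit 692259) (nat_lit 4) (nat_lit 0) (nat_lit 0) Fs.nil) (Tr.I true Q.adj (nat_lit 577) (nat_lit 692243) (nat_lit 8) (nat_lit 0) (nat_lit 0) Fs.nil))) (Tr.node (Tr.node (Tr.I true Q.adj (nat_lit 593) (nat_lit 692259) (nat_lit 0) (nat_lit 0) (nat_lit 0) Fs.nil) (Tr.I false Q.adj (nat_lit 593) (nat_lit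 692227) (nat_lit 8) (nat_lit 0) (nat_lit 0) Fs.nil)) (Tr.node (Tr.I false Q.adj (nat_lit 609) (nat_lit 692243) (nat_lit 0) (nat_lit 0) (nat_lit 0) Fs.nil) (Tr.I true Q.adj (nat_lit 609) (nat_lit 692227) (nat_lit 4) (nat_lit 0) (nat_lit 0) Fs.nil)))))
def cE1 : Tr := (Tr.node (Tr.node (Tr.node (Tr.node (Tr.I false Q.tdj (nat_lit 65) (nat_lit 609) (nat_lit 16) (nat_lit 20) (nat_lit 0) Fs.nil) (Tr.I true Q.F (nat_lit 0) (nat_lit 4) (nat_lit 16) (nat_lit 20) (nat_lit 0) (Fs.j (nat_lit 609) Fs.nil))) (Tr.node (Tr.I false Q.adt (nat_lit 4) (nat_lit 16) (nat_lit 20) (nat_lit 0) (nat_lit 0) (Fs.j (nat_lit 609) Fs.nil)) (Tr.I true Q.adt (nat_lit 0) (nat_lit 16) (nat_lit 20) (nat_lit 4) (nat_lit 0) (Fs.j (nat_lit 609) Fs.nil)))) (Tr.node (Tr.node (Tr.I true Q.tdj (nat_lit 257) (nat_lit 593) (nat_lit 16) (nat_lit 20) (nat_lit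 0) Fs.nil) (Tr.I false Q.F (nat_lit 0) (nat_lit 8) (nat_lit 16) (nat_lit 20) (nat_lit 0) (Fs.j (nat_lit 593) Fs.nil))) (Tr.node (Tr.I true Q.adt (nat_lit 8) (nat_lit 16) (nat_lit 20) (nat_lit 0) (nat_lit 0) (Fs.j (nat_lit 593) Fs.nil)) (Tr.I false Q.adt (nat_lit 0) (nat_lit 16) (nat_lit 20) (nat_lit 8) (nat_lit 0) (Fs.j (nat_lit 593) Fs.nil))))) (Tr.node (Tr.node (Tr.node (Tr.I false Q.tdj (nat_lit 273) (nat_lit 577) (nat_lit 16) (nat_lit 20) (nat_lit 0) Fs.nil) (Tr.I true Q.F (nat_lit 4) (nat_lit 8) (nat_lit 16) (nat_lit 20) (nat_lit 0) (Fs.j (nat_lit 577) Fs.nil))) (Tr.node (Tr.I false Q.adt (nat_lit 8) (nat_lit 16) (nat_lit 20) (nat_lit 4) (nat_lit 0) (Fs.j (nat_lit 577) Fs.nil)) (Tr.I true Q.adt (nat_lit 4) (nat_lit 16) (nat_lit 20) (nat_lit 8) (nat_lit 0) (Fs.j (nat_lit 577) Fs.nil)))) (Tr.node (Tr.node (Tr.I true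 Q.F (nat_lit 0) (nat_lit 12) (nat_lit 16) (nat_lit 20) (nat_lit 0) (Fs.j (nat_lit 273) Fs.nil)) (Tr.I false Q.adt (nat_lit 12) (nat_lit 16) (nat_lit 20) (nat_lit 0) (nat_lit 0) (Fs.j (nat_lit 273) Fs.nil))) (Tr.node (Tr.I true Q.adt (nat_lit 0) (nat_lit 16) (nat_lit 20) (nat_lit 12) (nat_lit 0) (Fs.j (nat_lit 273) Fs.nil)) (Tr.I false Q.F (nat_lit 4) (nat_lit 12) (nat_lit 16) (nat_lit 20) (nat_lit 0) (Fs.j (nat_lit 257) Fs.nil))))))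
def cE2 : Tr := (Tr.node (Tr.node (Tr.node (Tr.I true Q.adt (nat_lit 12) (nat_lit 16) (nat_lit 20) (nat_lit 4) (nat_lit 0) (Fs.j (nat_lit 257) Fs.nil)) (Tr.node (Tr.I false Q.adt (nat_lit 4) (nat_lit 16) (nat_lit 20) (nat_lit 12) (nat_lit 0) (Fs.j (nat_lit 257) Fs.nil)) (Tr.I true Q.F (nat_lit 8) (nat_lit 12) (nat_lit 16) (nat_lit 20) (nat_lit 0) (Fs.j (nat_lit 65) Fs.nil)))) (Tr.node (Tr.I false Q.adt (nat_lit 12) (nat_lit 16) (nat_lit 20) (nat_lit 8) (nat_lit 0) (Fs.j (nat_lit 65) Fs.nil)) (Tr.node (Tr.I true Q.adt (nat_lit 8) (nat_lit 16) (nat_lit 20) (nat_lit 12) (nat_lit 0) (Fs.j (nat_lit 65) Fs.nil)) (Tr.I false Q.F (nat_lit 0) (nat_lit 16) (nat_lit 20) (nat_lit 4) (nat_lit 0) (Fs.j (nat_lit 609) Fs.nil))))) (Tr.node (Tr.node (Tr.I true Q.F (nat_lit 0) (nat_lit 16) (nat_lit 20) (nat_lit 8) (nat_lit 0) (Fs.j (nat_lit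 593) Fs.nil)) (Tr.node (Tr.I false Q.F (nat_lit 0) (nat_lit 16) (nat_lit 20) (nat_lit 12) (nat_lit 0) (Fs.j (nat_lit 273) Fs.nil)) (Tr.I false Q.F (nat_lit 4) (nat_lit 16) (nat_lit 20) (nat_lit 8) (nat_lit 0) (Fs.j (nat_lit 577) Fs.nil)))) (Tr.node (Tr.node (Tr.I true Q.F (nat_lit 4) (nat_lit 16) (nat_lit 20) (nat_lit 12) (nat_lit 0) (Fs.j (nat_lit 257) Fs.nil)) (Tr.I false Q.F (nat_lit 8) (nat_lit 16) (nat_lit 20) (nat_lit 12) (nat_lit 0) (Fs.j (nat_lit 65) Fs.nil))) (Tr.node (Tr.I true Q.G (nat_lit 0) (nat_lit 8) (nat_lit 4) (nat_lit 12) (nat_lit 1665) Fs.nil) (Tr.I false Q.G (nat_lit 0) (nat_lit 12) (nat_lit 4) (nat_lit 8) (nat_lit 1665) Fs.nil)))))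
def cEn1 : Tr := Tr.node cE1 cE2
def cEn2 : Tr := Tr.node cE0 cEn1

def tgE : Tg := (.m (.br (.v 1) (.jo (.br (.v 2) (.v 3)) (.T (.v 4) (.v 5) (.v 0)))) (.m (.br (.v 2) (.jo (.br (.v 3) (.v 1)) (.T (.v 4) (.v 5) (.v 0)))) (.m (.br (.v 3) (.jo (.br (.v 1) (.v 2)) (.T (.v 4) (.v 5) (.v 0)))) (.p (.br (.v 0) (.jo (.br (.v 2) (.v 3)) (.T (.v 4) (.v 5) (.v 1)))) (.p (.br (.v 2) (.jo (.br (.v 3) (.v 0)) (.T (.v 4) (.v 5) (.v 1)))) (.p (.br (.v 3) (.jo (.br (.v 0) (.v 2)) (.T (.v 4) (.v 5) (.v 1)))) (.m (.br (.v 0) (.jo (.br (.v 1) (.v 3)) (.T (.v 4) (.v 5) (.v 2)))) (.m (.br (.v 1) (.jo (.br (.v 3) (.v 0)) (.T (.v 4) (.v 5) (.v 2)))) (.m (.br (.v 3) (.jo (.br (.v 0) (.v 1)) (.T (.v 4) (.v 5) (.v 2)))) (.p (.br (.v 0) (.jo (.br (.v 1) (.v 2)) (.T (.v 4) (.v 5) (.v 3)))) (.p (.br (.v 1) (.jo (.br (.v 2) (.v 0)) (.T (.v 4) (.v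 5) (.v 3)))) (.p (.br (.v 2) (.jo (.br (.v 0) (.v 1)) (.T (.v 4) (.v 5) (.v 3)))) (.m (.T (.v 4) (.v 5) (.jo (.br (.v 0) (.v 1)) (.br (.v 2) (.v 3)))) (.p (.T (.v 4) (.v 5) (.jo (.br (.v 0) (.v 2)) (.br (.v 1) (.v 3)))) (.m (.T (.v 4) (.v 5) (.jo (.br (.v 0) (.v 3)) (.br (.v 1) (.v 2)))) .nil)))))))))))))))

theorem okE : chk tgE cEn2 = true := by decide +kernel

def cT0 : Tr := (Tr.node (Tr.node (Tr.node (Tr.node (Tr.I true Q.G (nat_lit 8) (nat_lit 65) (nat_lit 12) (nat_lit 20) (nat_lit 16) Fs.nil) (Tr.I false Q.jac (nat_lit 0) (nat_lit 4) (nat_lit 20) (nat_lit 0) (nat_lit 0) (Fs.j (nat_lit 287331) Fs.nil))) (Tr.node (Tr.I false Q.G (nat_lit 0) (nat_lit 273) (nat_lit 12) (nat_lit 20) (nat_lit 16) Fs.nil) (Tr.I true Q.jac (nat_lit 4) (nat_lit 8) (nat_lit 20) (nat_lit 0) (nat_lit 0) (Fs.j (nat_lit 287299) Fs.nil))))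 (Tr.node (Tr.node (Tr.I false Q.G (nat_lit 0) (nat_lit 273) (nat_lit 12) (nat_lit 16) (nat_lit 20) Fs.nil) (Tr.I true Q.jac (nat_lit 4) (nat_lit 8) (nat_lit 16) (nat_lit 0) (nat_lit 0) (Fs.j (nat_lit 678979) Fs.nil))) (Tr.node (Tr.I true Q.G (nat_lit 8) (nat_lit 65) (nat_lit 12) (nat_lit 16) (nat_lit 20) Fs.nil) (Tr.I false Q.jac (nat_lit 0) (nat_lit 4) (nat_lit 16) (nat_lit 0) (nat_lit 0) (Fs.j (nat_lit 679011) Fs.nil))))) (Tr.node (Tr.node (Tr.node (Tr.I true Q.G (nat_lit 4) (nat_lit 577) (nat_lit 8) (nat_lit 20) (nat_lit 16) Fs.nil) (Tr.I true Q.G (nat_lit 4) (nat_lit 577) (nat_lit 8) (nat_lit 16) (nat_lit 20) Fs.nil)) (Tr.node (Tr.I true Q.G (nat_lit 8) (nat_lit 577) (nat_lit 16) (nat_lit 20) (nat_lit 4) Fs.nil) (Tr.I true Q.jac (nat_lit 0) (nat_lit 12) (nat_lit 16) (nat_lit 0) (nat_lit 0) (Fs.j (nat_lit 665875)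 Fs.nil)))) (Tr.node (Tr.node (Tr.I true Q.jac (nat_lit 0) (nat_lit 12) (nat_lit 20) (nat_lit 0) (nat_lit 0) (Fs.j (nat_lit 278803) Fs.nil)) (Tr.I false Q.G (nat_lit 0) (nat_lit 8) (nat_lit 16) (nat_lit 593) (nat_lit 20) Fs.nil)) (Tr.node (Tr.I false Q.G (nat_lit 0) (nat_lit 8) (nat_lit 20) (nat_lit 593) (nat_lit 16) Fs.nil) (Tr.I false Q.G (nat_lit 0) (nat_lit 4) (nat_lit 16) (nat_lit 609) (nat_lit 20) Fs.nil)))))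
def cT1 : Tr := (Tr.node (Tr.node (Tr.node (Tr.node (Tr.I false Q.G (nat_lit 0) (nat_lit 4) (nat_lit 20) (nat_lit 609) (nat_lit 16) Fs.nil) (Tr.I true Q.G (nat_lit 0) (nat_lit 609) (nat_lit 4) (nat_lit 20) (nat_lit 16) Fs.nil)) (Tr.node (Tr.I true Q.G (nat_lit 0) (nat_lit 609) (nat_lit 4) (nat_lit 16) (nat_lit 20) Fs.nil) (Tr.I false Q.jac (nat_lit 8) (nat_lit 12) (nat_lit 16) (nat_lit 0) (nat_lit 0) (Fs.j (nat_lit 652867) Fs.nil)))) (Tr.node (Tr.node (Tr.I false Q.jac (nat_lit 8) (nat_lit 12) (nat_lit 20) (nat_lit 0) (nat_lit 0) (Fs.j (nat_lit 270403) Fs.nil)) (Tr.I true Q.G (nat_lit 4) (nat_lit 8) (nat_lit 12) (nat_lit 1025) (nat_lit 20) Fs.nil)) (Tr.node (Tr.I false Q.G (nat_lit 4) (nat_lit 1025) (nat_lit 8) (nat_lit 12) (nat_lit 20) Fs.nil) (Tr.I true Q.G (nat_lit 4) (nat_lit 1025) (nat_lit 8) (nat_lit 20) (nat_lit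 12) Fs.nil)))) (Tr.node (Tr.node (Tr.node (Tr.I false Q.G (nat_lit 8) (nat_lit 1025) (nat_lit 12) (nat_lit 20) (nat_lit 4) Fs.nil) (Tr.I true Q.G (nat_lit 0) (nat_lit 8) (nat_lit 20) (nat_lit 1041) (nat_lit 12) Fs.nil)) (Tr.node (Tr.I false Q.G (nat_lit 0) (nat_lit 4) (nat_lit 20) (nat_lit 1057) (nat_lit 12) Fs.nil) (Tr.I false Q.G (nat_lit 0) (nat_lit 4) (nat_lit 12) (nat_lit 1057) (nat_lit 20) Fs.nil))) (Tr.node (Tr.node (Tr.I false Q.G (nat_lit 0) (nat_lit 1057) (nat_lit 4) (nat_lit 12) (nat_lit 20) Fs.nil) (Tr.I false Q.G (nat_lit 0) (nat_lit 8) (nat_lit 4) (nat_lit 1073) (nat_lit 20) Fs.nil)) (Tr.node (Tr.I true Q.G (nat_lit 4) (nat_lit 12) (nat_lit 16) (nat_lit 1601) (nat_lit 8) Fs.nil) (Tr.I false Q.G (nat_lit 0) (nat_lit 8) (nat_lit 16) (nat_lit 1617) (nat_lit 12) Fs.nil)))))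
def cT2 : Tr := (Tr.node (Tr.node (Tr.node (Tr.node (Tr.I true Q.G (nat_lit 0) (nat_lit 12) (nat_lit 16) (nat_lit 1617) (nat_lit 8) Fs.nil) (Tr.I false Q.G (nat_lit 0) (nat_lit 1617) (nat_lit 8) (nat_lit 12) (nat_lit 16) Fs.nil)) (Tr.node (Tr.I true Q.G (nat_lit 0) (nat_lit 4) (nat_lit 12) (nat_lit 1633) (nat_lit 16) Fs.nil) (Tr.I true Q.G (nat_lit 0) (nat_lit 4) (nat_lit 16) (nat_lit 1633) (nat_lit 12) Fs.nil))) (Tr.node (Tr.node (Tr.I false Q.G (nat_lit 0) (nat_lit 1633) (nat_lit 4) (nat_lit 12) (nat_lit 16) Fs.nil) (Tr.I false Q.G (nat_lit 0) (nat_lit 8) (nat_lit 4) (nat_lit 1649) (nat_lit 16) Fs.nil)) (Tr.node (Tr.I false Q.F (nat_lit 0) (nat_lit 4) (nat_lit 12) (nat_lit 16) (nat_lit 0) (Fs.j (nat_lit 1633) Fs.nil)) (Tr.I false Q.adt (nat_lit 0) (nat_lit 8) (nat_lit 20) (nat_lit 4) (nat_lit 0) (Fs.j (nat_lit 1073)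 Fs.nil))))) (Tr.node (Tr.node (Tr.node (Tr.I false Q.adt (nat_lit 4) (nat_lit 8) (nat_lit 20) (nat_lit 0) (nat_lit 0) (Fs.j (nat_lit 1073) Fs.nil)) (Tr.I false Q.F (nat_lit 0) (nat_lit 4) (nat_lit 12) (nat_lit 20) (nat_lit 0) (Fs.j (nat_lit 1057) Fs.nil))) (Tr.node (Tr.I false Q.adt (nat_lit 0) (nat_lit 12) (nat_lit 20) (nat_lit 4) (nat_lit 0) (Fs.j (nat_lit 1057) Fs.nil)) (Tr.I false Q.adt (nat_lit 4) (nat_lit 12) (nat_lit 20) (nat_lit 0) (nat_lit 0) (Fs.j (nat_lit 1057) Fs.nil)))) (Tr.node (Tr.node (Tr.I true Q.F (nat_lit 0) (nat_lit 8) (nat_lit 20) (nat_lit 4) (nat_lit 0) (Fs.j (nat_lit 1073) Fs.nil)) (Tr.I false Q.F (nat_lit 0) (nat_lit 8) (nat_lit 12) (nat_lit 20) (nat_lit 0) (Fs.j (nat_lit 1041) Fs.nil))) (Tr.node (Tr.I false Q.adt (nat_lit 0) (nat_lit 12) (nat_lit 20) (nat_lit 8) (nat_lit 0) (Fs.j (nat_lit 1041)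 Fs.nil)) (Tr.I false Q.adt (nat_lit 0) (nat_lit 16) (nat_lit 20) (nat_lit 8) (nat_lit 0) (Fs.j (nat_lit 593) Fs.nil))))))
def cT3 : Tr := (Tr.node (Tr.node (Tr.node (Tr.node (Tr.I true Q.F (nat_lit 4) (nat_lit 8) (nat_lit 12) (nat_lit 16) (nat_lit 0) (Fs.j (nat_lit 1601) Fs.nil)) (Tr.I false Q.adt (nat_lit 4) (nat_lit 12) (nat_lit 20) (nat_lit 8) (nat_lit 0) (Fs.j (nat_lit 1025) Fs.nil))) (Tr.node (Tr.I false Q.adt (nat_lit 4) (nat_lit 16) (nat_lit 20) (nat_lit 8) (nat_lit 0) (Fs.j (nat_lit 577) Fs.nil)) (Tr.I true Q.F (nat_lit 0) (nat_lit 12) (nat_lit 16) (nat_lit 4) (nat_lit 0) (Fs.j (nat_lit 1633) Fs.nil)))) (Tr.node (Tr.node (Tr.I true Q.F (nat_lit 0) (nat_lit 12) (nat_lit 16) (nat_lit 8) (nat_lit 0) (Fs.j (nat_lit 1617) Fs.nil)) (Tr.I false Q.F (nat_lit 0) (nat_lit 12) (nat_lit 20) (nat_lit 4) (nat_lit 0) (Fs.j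 (nat_lit 1057) Fs.nil))) (Tr.node (Tr.I false Q.adt (nat_lit 0) (nat_lit 16) (nat_lit 20) (nat_lit 12) (nat_lit 0) (Fs.j (nat_lit 273) Fs.nil)) (Tr.I false Q.F (nat_lit 4) (nat_lit 12) (nat_lit 16) (nat_lit 8) (nat_lit 0) (Fs.j (nat_lit 1601) Fs.nil))))) (Tr.node (Tr.node (Tr.node (Tr.I true Q.F (nat_lit 4) (nat_lit 12) (nat_lit 20) (nat_lit 8) (nat_lit 0) (Fs.j (nat_lit 1025) Fs.nil)) (Tr.I false Q.adt (nat_lit 4) (nat_lit 16) (nat_lit 20) (nat_lit 12) (nat_lit 0) (Fs.j (nat_lit 257) Fs.nil))) (Tr.node (Tr.I true Q.K (nat_lit 0) (nat_lit 20) (nat_lit 8) (nat_lit 12) (nat_lit 0) (Fs.j (nat_lit 1041) Fs.nil)) (Tr.I true Q.K (nat_lit 4) (nat_lit 20) (nat_lit 8) (nat_lit 12) (nat_lit 0) (Fs.j (nat_lit 1025) Fs.nil)))) (Tr.node (Tr.node (Tr.I false Q.K (nat_lit 0) (nat_lit 20) (nat_lit 8) (nat_lit 16) (nat_lit 0) (Fs.j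 (nat_lit 593) Fs.nil)) (Tr.I false Q.K (nat_lit 4) (nat_lit 20) (nat_lit 8) (nat_lit 16) (nat_lit 0) (Fs.j (nat_lit 577) Fs.nil))) (Tr.node (Tr.I false Q.K (nat_lit 0) (nat_lit 20) (nat_lit 12) (nat_lit 16) (nat_lit 0) (Fs.j (nat_lit 273) Fs.nil)) (Tr.I false Q.K (nat_lit 4) (nat_lit 20) (nat_lit 12) (nat_lit 16) (nat_lit 0) (Fs.j (nat_lit 257) Fs.nil))))))
def cT4 : Tr := (Tr.node (Tr.node (Tr.I true Q.F (nat_lit 0) (nat_lit 16) (nat_lit 20) (nat_lit 8) (nat_lit 0) (Fs.j (nat_lit 593) Fs.nil)) (Tr.node (Tr.I true Q.F (nat_lit 0) (nat_lit 16) (nat_lit 20) (nat_lit 12) (nat_lit 0) (Fs.j (nat_lit 273) Fs.nil)) (Tr.I false Q.F (nat_lit 8) (nat_lit 16) (nat_lit 20) (nat_lit 12) (nat_lit 0) (Fs.j (nat_lit 65) Fs.nil)))) (Tr.node (Tr.I true Q.G (nat_lit 0) (nat_lit 8) (nat_lit 4) (nat_lit 20) (nat_lit 1073) Fs.nil) (Tr.node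 (Tr.I true Q.G (nat_lit 0) (nat_lit 8) (nat_lit 4) (nat_lit 16) (nat_lit 1649) Fs.nil) (Tr.I true Q.G (nat_lit 0) (nat_lit 4) (nat_lit 8) (nat_lit 16) (nat_lit 1649) Fs.nil))))
def cTn1 : Tr := Tr.node cT0 cT1
def cTn2 : Tr := Tr.node cT3 cT4
def cTn3 : Tr := Tr.node cT2 cTn2
def cTn4 : Tr := Tr.node cTn1 cTn3

def tgT : Tg := (.p (.jo (.br (.v 0) (.v 2)) (.T (.br (.v 1) (.v 3)) (.v 4) (.v 5))) (.p (.jo (.br (.v 0) (.v 3)) (.T (.br (.v 1) (.v 2)) (.v 4) (.v 5))) (.p (.jo (.br (.v 1) (.v 2)) (.T (.br (.v 0) (.v 3)) (.v 4) (.v 5))) (.p (.jo (.br (.v 1) (.v 3)) (.T (.br (.v 0) (.v 2)) (.v 4) (.v 5))) (.p (.jo (.br (.v 0) (.v 3)) (.br (.v 4) (.T (.v 1) (.v 2) (.v 5)))) (.m (.jo (.br (.v 0) (.v 4)) (.br (.v 3) (.T (.v 1) (.v 2) (.v 5)))) (.p (.jo (.br (.v 0) (.T (.v 1) (.v 2) (.v 5))) (.br (.v 3) (.v 4))) (.p (.jo (.br (.v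 0) (.v 2)) (.br (.v 4) (.T (.v 1) (.v 3) (.v 5)))) (.m (.jo (.br (.v 0) (.v 4)) (.br (.v 2) (.T (.v 1) (.v 3) (.v 5)))) (.p (.jo (.br (.v 0) (.T (.v 1) (.v 3) (.v 5))) (.br (.v 2) (.v 4))) (.p (.jo (.br (.v 1) (.v 3)) (.br (.v 4) (.T (.v 0) (.v 2) (.v 5)))) (.m (.jo (.br (.v 1) (.v 4)) (.br (.v 3) (.T (.v 0) (.v 2) (.v 5)))) (.p (.jo (.br (.v 1) (.T (.v 0) (.v 2) (.v 5))) (.br (.v 3) (.v 4))) (.p (.jo (.br (.v 1) (.v 2)) (.br (.v 4) (.T (.v 0) (.v 3) (.v 5)))) (.m (.jo (.br (.v 1) (.v 4)) (.br (.v 2) (.T (.v 0) (.v 3) (.v 5)))) (.p (.jo (.br (.v 1) (.T (.v 0) (.v 3) (.v 5))) (.br (.v 2) (.v 4))) .nil))))))))))))))))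

theorem okT : chk tgT cTn4 = true := by decide +kernel

end H19I

end Pool.Agent.TP
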