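import Pool.Agent.Helper19_TP3.Id2
import Pool.Agent.Helper66_TP.RuleZ
import Pool.Agent.Helper50_TP3.Id4
import Pool.Agent.Helper50_TP3.Fin3

/-!
# MP_ce3ba7_al, characteristic 3: module CLOS (helper19, chain of helper66)

`Pf = 0` by rules NX and Z, squares of commutators are `0`, and `[x,[x,y]] = 0` by rule Z.
-/

set_option autoImplicit false
set_option linter.unusedSectionVars false
set_option linter.unusedVariables false

namespace Pool.Agent.TP

namespace H19I

open H67 B3 H66Z

theorem clos : Pool.Agent.C3.ClosStmt := by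
  intro F _ hF S hS B _ _ _ _ x hM
  have h3 : ∀ a : B, a + a + a = 0 := fun a => Pool.Agent.C3.three_of hF a
  have hB := hM.alt
  have hR : Rules B := rules F S hS B x hM.rel hM.alt hM.sat hM.prime hM.nsol
  have hn : ∀ g : B, (∀ y z, asc g y z = 0) → g = 0 := hR.nuc
  have hZ : ∀ g : B, (∀ a b, asc g a b = kb g (kb a b)) → g = 0 := fun g hg =>
    ruleZ S hS hM.rel hB h3 hM.sat hM.prime hn g hg
  have hPf : ∀ p q r s : B, Pf p q r s = 0 := by
    intro p q r s
    refine hZ _ fun a b => ?_
    have h := hn _ (idOne hB h3 p q r s a b)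
    rw [kb_skew (Pf p q r s) (kb a b), ← cyc hB (Pf p q r s) a b, eq_neg_iff_add_eq_zero,
      add_comm]
    exact h
  have hsq : ∀ a b : B, jo (kb a b) (kb a b) = 0 := by
    intro a b
    refine hn _ fun y z => ?_
    have h := idThr hB h3 a b y z
    rw [hPf, neg_zero] at h
    rw [T_jo1 hB, h, add_zero]
  have hs : ∀ a b c : B, jo (kb a b) (kb a c) = 0 := by
    intro a b c
    have h := hsq a (b + c)
    simp only [kb_add2, jo_add1, jo_add2, hsq, zero_add, add_zero] at h
    rw [jo_comm (kb a c) (kb a b)] at h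
    have h' := h3 (jo (kb a b) (kb a c))
    rwa [h, zero_add] at h'
  intro a b
  exact hZ _ fun u v => id4 hB h3 hs a b u v

end H19I

end Pool.Agent.TP
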