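import Pool.Agent.Helper66_TP.NXZ

/-! MP_ce3ba7_al, characteristic 3: identity (1) of the chain and its consequences (helper19). -/

set_option autoImplicit false
set_option linter.unusedSectionVars false
set_option linter.unusedVariables false
set_option linter.unusedSimpArgs false

namespace Pool.Agent.TP

namespace H19I

open H67 B3 H66Z

variable {B : Type} [NonUnitalNonAssocRing B]

/-- alternating function of four commutators -/
def Pf (p q r s : B) : B := jo (kb p q) (kb r s) - jo (kb p r) (kb q s) + jo (kb p s) (kb q r)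

/-- the operator identity -/
def Star (B : Type) [NonUnitalNonAssocRing B] : Prop := ∀ p q r s a b c : B,
  asc (kb a b) (jo (kb p q) (kb r s)) c + kb (asc a b (jo (kb p q) (kb r s))) c - asc (kb a b) (jo (kb p r) (kb q s)) c - kb (asc a b (jo (kb p r) (kb q s))) c + asc (kb a b) (jo (kb p s) (kb q r)) c + kb (asc a b (jo (kb p s) (kb q r))) c - asc q (jo (kb r s) (asc a b p)) c - asc r (jo (kb s q) (asc a b p)) c - asc s (jo (kb q r) (asc a b p)) c + asc p (jo (kb r s) (asc a b q)) c + asc r (jo (kb s p) (asc a b q)) c + asc s (jo (kb p r) (asc a b q)) c - asc p (jo (kb q s) (asc a b r)) c - asc q (jo (kb s p) (asc a b r)) c - asc s (jo (kb p q) (asc a b r)) c + asc p (jo (kb q r) (asc a b s)) c + asc q (jo (kb r p) (asc a b s)) c + asc r (jo (kb p q) (asc a b s)) c - kb (jo (kb p q) (asc r s (kb a b))) c - kb (jo (kb r s) (asc p q (kb a b))) c + kb (jo (asc q r s) (kb p (kb a b))) c - kb (jo (asc p r s) (kb q (kb a b))) c + kb (jo (asc p q s) (kb r (kb a b))) c - kb (jo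 (asc p q r) (kb s (kb a b))) c + kb (jo (asc (kb p q) r s) (kb a b)) c + kb (jo (asc (kb r s) p q) (kb a b)) c = 0

/-- the element identity -/
def EPart (B : Type) [NonUnitalNonAssocRing B] : Prop := ∀ p q r s a b : B,
  0 - kb q (jo (kb r s) (asc a b p)) - kb r (jo (kb s q) (asc a b p)) - kb s (jo (kb q r) (asc a b p)) + kb p (jo (kb r s) (asc a b q)) + kb r (jo (kb s p) (asc a b q)) + kb s (jo (kb p r) (asc a b q)) - kb p (jo (kb q s) (asc a b r)) - kb q (jo (kb s p) (asc a b r)) - kb s (jo (kb p q) (asc a b r)) + kb p (jo (kb q r) (asc a b s)) + kb q (jo (kb r p) (asc a b s)) + kb r (jo (kb p q) (asc a b s)) - asc a b (jo (kb p q) (kb r s)) + asc a b (jo (kb p r) (kb q s)) - asc a b (jo (kb p s) (kb q r)) = 0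

/-- identity (3), polarised -/
def IdThree (B : Type) [NonUnitalNonAssocRing B] : Prop := ∀ x x1 y y1 a b : B,
  jo (kb x y) (asc (kb x1 y1) a b) + jo (kb x y1) (asc (kb x1 y) a b) + jo (kb x1 y) (asc (kb x y1) a b) + jo (kb x1 y1) (asc (kb x y) a b) + jo (kb x y1) (kb a (asc x1 y b)) - jo (kb x a) (kb y1 (asc x1 y b)) + jo (kb x (asc x1 y b)) (kb y1 a) + jo (kb x y) (kb a (asc x1 y1 b)) - jo (kb x a) (kb y (asc x1 y1 b)) + jo (kb x (asc x1 y1 b)) (kb y a) + jo (kb x1 y1) (kb a (asc x y b)) - jo (kb x1 a) (kb y1 (asc x y b)) + jo (kb x1 (asc x y b)) (kb y1 a) + jo (kb x1 y) (kb a (asc x y1 b)) - jo (kb x1 a) (kb y (asc x y1 b)) + jo (kb x1 (asc x y1 b)) (kb y a) = 0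

/-- the correction -/
def gg (p q r s a b : B) : B := asc a b (Pf p q r s) - jo (kb p q) (asc r s (kb a b)) - jo (kb r s) (asc p q (kb a b)) + jo (asc q r s) (kb p (kb a b)) - jo (asc p r s) (kb q (kb a b)) + jo (asc p q s) (kb r (kb a b)) - jo (asc p q r) (kb s (kb a b)) + jo (asc (kb p q) r s) (kb a b) + jo (asc (kb r s) p q) (kb a b)

/-- sum of generators -/
def SS (p q r s a b : B) : B × (B → B) := (kb (kb a b) (Pf p q r s), fun w => asc (kb a b) (Pf p q r s) w)
    - (kb q (jo (kb r s) (asc a b p)), fun w => asc q (jo (kb r s) (asc a b p)) w)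
    - (kb r (jo (kb s q) (asc a b p)), fun w => asc r (jo (kb s q) (asc a b p)) w)
    - (kb s (jo (kb q r) (asc a b p)), fun w => asc s (jo (kb q r) (asc a b p)) w)
    + (kb p (jo (kb r s) (asc a b q)), fun w => asc p (jo (kb r s) (asc a b q)) w)
    + (kb r (jo (kb s p) (asc a b q)), fun w => asc r (jo (kb s p) (asc a b q)) w)
    + (kb s (jo (kb p r) (asc a b q)), fun w => asc s (jo (kb p r) (asc a b q)) w)
    - (kb p (jo (kb q s) (asc a b r)), fun w => asc p (jo (kb q s) (asc a b r)) w)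
    - (kb q (jo (kb s p) (asc a b r)), fun w => asc q (jo (kb s p) (asc a b r)) w)
    - (kb s (jo (kb p q) (asc a b r)), fun w => asc s (jo (kb p q) (asc a b r)) w)
    + (kb p (jo (kb q r) (asc a b s)), fun w => asc p (jo (kb q r) (asc a b s)) w)
    + (kb q (jo (kb r p) (asc a b s)), fun w => asc q (jo (kb r p) (asc a b s)) w)
    + (kb r (jo (kb p q) (asc a b s)), fun w => asc r (jo (kb p q) (asc a b s)) w)

theorem ss_mem (p q r s a b : B) : SS p q r s a b ∈ NP B := ((NP B).add_mem ((NP B).add_mem ((NP B).add_mem ((NP B).sub_mem ((NP B).sub_mem ((NP B).sub_mem ((NP B).add_mem ((NP B).add_mem ((NP B).add_mem ((NP B).sub_mem ((NP B).sub_mem ((NP B).sub_mem (np_gen _ _) (np_gen _ _)) (np_gen _ _)) (np_gen _ _)) (np_gen _ _)) (np_gen _ _)) (np_gen _ _)) (np_gen _ _)) (np_gen _ _)) (np_gen _ _)) (np_gen _ _)) (np_gen _ _)) (np_gen _ _))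

theorem ss_fst (hE : EPart B) (p q r s a b : B) :
    (SS p q r s a b).1 = kb (kb a b) (Pf p q r s) + asc a b (Pf p q r s) := by
  have h := hE p q r s a b
  simp only [SS, Prod.fst_add, Prod.fst_sub]
  have e : asc a b (Pf p q r s) = asc a b (jo (kb p q) (kb r s)) - asc a b (jo (kb p r) (kb q s))
      + asc a b (jo (kb p s) (kb q r)) := by
    simp only [Pf, sub_eq_add_neg, asc_add3, asc_neg3]
  rw [e]
  linear_combination (norm := abel) h

theorem ss_snd (hS : Star B) (p q r s a b : B) :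
    (SS p q r s a b).2 = fun w => kb (-(gg p q r s a b)) w := by
  funext c
  have h := hS p q r s a b c
  simp only [SS, Prod.snd_add, Prod.snd_sub, Prod.snd_neg, Pi.add_apply, Pi.sub_apply, Pi.neg_apply, gg, Pf, sub_eq_add_neg,
    neg_add_rev, neg_neg, kb_add1, kb_neg1, asc_add2, asc_neg2, asc_add3, asc_neg3, jo_add1,
    jo_neg1] at h ⊢
  linear_combination (norm := abel) h

/-- IDENTITY (1) -/
theorem id1 (hB : IsAlt B) (h3 : ∀ x : B, x + x + x = 0) (hS : Star B) (hE : EPart B)
    (p q r s a b : B) : ∀ w x, asc (kb (kb a b) (Pf p q r s) + asc a b (Pf p q r s)) w x = 0 := by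
  refine nx hB h3 _ (-(gg p q r s a b)) ?_
  have h := ss_mem p q r s a b
  rwa [← Prod.mk.eta (p := SS p q r s a b), ss_fst hE, ss_snd hS] at h

/-- IDENTITY (3) -/
theorem id3 (hB : IsAlt B) (h3 : ∀ x : B, x + x + x = 0) (hI : IdThree B)
    (x y a b : B) : jo (kb x y) (asc (kb x y) a b) = - Pf x y a (asc x y b) := by
  have h := hI x x y y a b
  have e : (4 : ℤ) • (jo (kb x y) (asc (kb x y) a b) + Pf x y a (asc x y b)) = 0 := by
    rw [← h]
    simp only [Pf]
    abel
  have e2 := h3 (jo (kb x y) (asc (kb x y) a b) + Pf x y a (asc x y b))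
  refine eq_neg_of_add_eq_zero_left ?_
  linear_combination (norm := abel) e - e2

end H19I

end Pool.Agent.TP
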