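import Pool.Agent.Helper19_TP3.Id1
import Pool.Agent.Helper19_TP3.CertA
import Pool.Agent.Helper19_TP3.CertB

/-! MP_ce3ba7_al, characteristic 3: identities (1) and (3), proved (helper19). -/

set_option autoImplicit false
set_option linter.unusedSectionVars false
set_option linter.unusedVariables false

namespace Pool.Agent.TP

namespace H19I

open H67 B3 Chk3

variable {B : Type} [NonUnitalNonAssocRing B]

/-- values of letters -/
def vl (p q r s a b c : B) : ℕ → B
  | 0 => p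
  | 1 => q
  | 2 => r
  | 3 => s
  | 4 => a
  | 5 => b
  | _ => c

theorem star (hB : IsAlt B) (h3 : ∀ x : B, x + x + x = 0) : Star B := by
  intro p q r s a b c
  have h : asc (kb a b) (jo (kb p q) (kb r s)) c + (kb (asc a b (jo (kb p q) (kb r s))) c + (-(asc (kb a b) (jo (kb p r) (kb q s)) c) + (-(kb (asc a b (jo (kb p r) (kb q s))) c) + (asc (kb a b) (jo (kb p s) (kb q r)) c + (kb (asc a b (jo (kb p s) (kb q r))) c + (-(asc q (jo (kb r s) (asc a b p)) c) + (-(asc r (jo (kb s q) (asc a b p)) c) + (-(asc s (jo (kb q r) (asc a b p)) c) + (asc p (jo (kb r s) (asc a b q)) c + (asc r (jo (kb s p) (asc a b q)) c + (asc s (jo (kb p r) (asc a b q)) c + (-(asc p (jo (kb q s) (asc a b r)) c) + (-(asc q (jo (kb s p) (asc a b r)) c) + (-(asc s (jo (kb p q) (asc a b r)) c) + (asc p (jo (kb q r) (asc a b s)) c + (asc q (jo (kb r p) (asc a b s)) c + (asc r (jo (kb p q) (asc a b s)) c + (-(kb (jo (kb p q) (asc r s (kb a b))) c) + (-(kb (jo (kb r s) (asc p q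 (kb a b))) c) + (kb (jo (asc q r s) (kb p (kb a b))) c + (-(kb (jo (asc p r s) (kb q (kb a b))) c) + (kb (jo (asc p q s) (kb r (kb a b))) c + (-(kb (jo (asc p q r) (kb s (kb a b))) c) + (kb (jo (asc (kb p q) r s) (kb a b)) c + (kb (jo (asc (kb r s) p q) (kb a b)) c + 0))))))))))))))))))))))))) = 0 :=
    sound hB h3 tgS cSn81 okS (vl p q r s a b c)
  linear_combination (norm := abel) h

theorem epart (hB : IsAlt B) (h3 : ∀ x : B, x + x + x = 0) : EPart B := by
  intro p q r s a b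
  have h : -(kb q (jo (kb r s) (asc a b p))) + (-(kb r (jo (kb s q) (asc a b p))) + (-(kb s (jo (kb q r) (asc a b p))) + (kb p (jo (kb r s) (asc a b q)) + (kb r (jo (kb s p) (asc a b q)) + (kb s (jo (kb p r) (asc a b q)) + (-(kb p (jo (kb q s) (asc a b r))) + (-(kb q (jo (kb s p) (asc a b r))) + (-(kb s (jo (kb p q) (asc a b r))) + (kb p (jo (kb q r) (asc a b s)) + (kb q (jo (kb r p) (asc a b s)) + (kb r (jo (kb p q) (asc a b s)) + (-(asc a b (jo (kb p q) (kb r s))) + (asc a b (jo (kb p r) (kb q s)) + (-(asc a b (jo (kb p s) (kb q r))) + 0)))))))))))))) = 0 :=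
    sound hB h3 tgE cEn2 okE (vl p q r s a b a)
  linear_combination (norm := abel) h

theorem idthree (hB : IsAlt B) (h3 : ∀ x : B, x + x + x = 0) : IdThree B := by
  intro x x1 y y1 a b
  have h : jo (kb x y) (asc (kb x1 y1) a b) + (jo (kb x y1) (asc (kb x1 y) a b) + (jo (kb x1 y) (asc (kb x y1) a b) + (jo (kb x1 y1) (asc (kb x y) a b) + (jo (kb x y1) (kb a (asc x1 y b)) + (-(jo (kb x a) (kb y1 (asc x1 y b))) + (jo (kb x (asc x1 y b)) (kb y1 a) + (jo (kb x y) (kb a (asc x1 y1 b)) + (-(jo (kb x a) (kb y (asc x1 y1 b))) + (jo (kb x (asc x1 y1 b)) (kb y a) + (jo (kb x1 y1) (kb a (asc x y b)) + (-(jo (kb x1 a) (kb y1 (asc x y b))) + (jo (kb x1 (asc x y b)) (kb y1 a) + (jo (kb x1 y) (kb a (asc x y1 b)) + (-(jo (kb x1 a) (kb y (asc x y1 b))) + (jo (kb x1 (asc x y1 b)) (kb y a) + 0))))))))))))))) = 0 :=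
    sound hB h3 tgT cTn4 okT (vl x x1 y y1 a b a)
  linear_combination (norm := abel) h

/-- IDENTITY (1) -/
theorem idOne (hB : IsAlt B) (h3 : ∀ x : B, x + x + x = 0) (p q r s a b : B) :
    ∀ w x, asc (kb (kb a b) (Pf p q r s) + asc a b (Pf p q r s)) w x = 0 :=
  id1 hB h3 (star hB h3) (epart hB h3) p q r s a b

/-- IDENTITY (3) -/
theorem idThr (hB : IsAlt B) (h3 : ∀ x : B, x + x + x = 0) (x y a b : B) :
    jo (kb x y) (asc (kb x y) a b) = - Pf x y a (asc x y b) :=
  id3 hB h3 (idthree hB h3) x y a b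

end H19I

end Pool.Agent.TP
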