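import Pool.Agent.Helper59_TP3.PrimeQ
import Pool.Agent.Helper50_TP3.Base3

/-!
# Natural functions (helper19), for MP_ce3ba7_al in characteristic 3

`B` is relatively free on `x`. A natural function is a function of an assignment `v : ℕ → B` of
elements of `B` to the letters which is given by a polynomial; equivalently, it commutes with
endomorphisms. Letters below `k` are arguments, all other letters are parameters.
-/

set_option autoImplicit false
set_option linter.unusedSectionVars false

namespace Pool.Agent.TP.NF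

open Pool.Agent.TP Function

section
variable (F : Type) [Field F] {B : Type} [NonUnitalNonAssocRing B] [Module F B]
  [IsScalarTower F B B] [SMulCommClass F B B] (x : ℕ → B)

/-- natural functions -/
def IsNat (f : (ℕ → B) → B) : Prop :=
  ∀ Φ : B →ₙₐ[F] B, f (fun i => Φ (x i)) = Φ (f x)

/-- multiderivations of the Jordan product in the letters below `k`, alternating -/
structure MD (k : ℕ) (f : (ℕ → B) → B) : Prop where
  add : ∀ i < k, ∀ (v : ℕ → B) (a b : B),
    f (update v i (a + b)) = f (update v i a) + f (update v i b)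
  smul : ∀ i < k, ∀ (v : ℕ → B) (c : F) (a : B), f (update v i (c • a)) = c • f (update v i a)
  der : ∀ i < k, ∀ (v : ℕ → B) (a b : B), f (update v i (B3.jo a b)) =
    B3.jo a (f (update v i b)) + B3.jo b (f (update v i a))
  alt : ∀ i < k, ∀ j < k, i ≠ j → ∀ v : ℕ → B, v i = v j → f v = 0

/-- all natural alternating multiderivations of arity `k` vanish -/
def Van (k : ℕ) : Prop := ∀ f : (ℕ → B) → B, IsNat F x f → MD F k f → ∀ v, f v = 0

end

section
variable {F : Type} [Field F] {B : Type} [NonUnitalNonAssocRing B] [Module F B]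
  [IsScalarTower F B B] [SMulCommClass F B B] {x : ℕ → B}

theorem IsNat.proj (i : ℕ) : IsNat F x fun v => v i := fun _ => rfl

theorem IsNat.zero : IsNat F x fun _ => 0 := fun Φ => (map_zero Φ).symm

theorem IsNat.add {f g : (ℕ → B) → B} (hf : IsNat F x f) (hg : IsNat F x g) :
    IsNat F x fun v => f v + g v := fun Φ => by
  beta_reduce
  rw [hf, hg, map_add]

theorem IsNat.neg {f : (ℕ → B) → B} (hf : IsNat F x f) : IsNat F x fun v => - f v := fun Φ => by
  beta_reduce
  rw [hf, map_neg]

theorem IsNat.sub {f g : (ℕ → B) → B} (hf : IsNat F x f) (hg : IsNat F x g) :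
    IsNat F x fun v => f v - g v := fun Φ => by
  beta_reduce
  rw [hf, hg, map_sub]

theorem IsNat.smul {f : (ℕ → B) → B} (hf : IsNat F x f) (c : F) : IsNat F x fun v => c • f v :=
  fun Φ => by
    beta_reduce
    rw [hf, map_smul]

theorem IsNat.mul {f g : (ℕ → B) → B} (hf : IsNat F x f) (hg : IsNat F x g) :
    IsNat F x fun v => f v * g v := fun Φ => by
  beta_reduce
  rw [hf, hg, map_mul]

theorem IsNat.jo {f g : (ℕ → B) → B} (hf : IsNat F x f) (hg : IsNat F x g) :
    IsNat F x fun v => B3.jo (f v) (g v) := (hf.mul hg).add (hg.mul hf)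

theorem IsNat.kb {f g : (ℕ → B) → B} (hf : IsNat F x f) (hg : IsNat F x g) :
    IsNat F x fun v => H67.kb (f v) (g v) := (hf.mul hg).sub (hg.mul hf)

theorem IsNat.asc {f g h : (ℕ → B) → B} (hf : IsNat F x f) (hg : IsNat F x g)
    (hh : IsNat F x h) : IsNat F x fun v => TP.asc (f v) (g v) (h v) :=
  ((hf.mul hg).mul hh).sub (hf.mul (hg.mul hh))

theorem IsNat.sum {ι : Type} (s : Finset ι) {f : ι → (ℕ → B) → B}
    (hf : ∀ i ∈ s, IsNat F x (f i)) : IsNat F x fun v => ∑ i ∈ s, f i v := fun Φ => by
  rw [map_sum]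
  exact Finset.sum_congr rfl fun i hi => hf i hi Φ

/-- values of natural functions commute with all endomorphisms -/
theorem IsNat.map (h : RelFree F B x) {f : (ℕ → B) → B} (hf : IsNat F x f) (Φ : B →ₙₐ[F] B)
    (v : ℕ → B) : f (fun i => Φ (v i)) = Φ (f v) := by
  obtain ⟨Ψ, hΨ⟩ := h.ext v
  have e1 : (fun i => Φ (v i)) = fun i => (Φ.comp Ψ) (x i) := by
    funext i
    rw [NonUnitalAlgHom.comp_apply, hΨ]
  have e2 : v = fun i => Ψ (x i) := funext fun i => (hΨ i).symm
  rw [e1, hf, NonUnitalAlgHom.comp_apply, ← hf Ψ, ← e2]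

/-- substitution of natural functions -/
theorem IsNat.comp (h : RelFree F B x) {f : (ℕ → B) → B} (hf : IsNat F x f)
    {u : ℕ → (ℕ → B) → B} (hu : ∀ i, IsNat F x (u i)) :
    IsNat F x fun v => f fun i => u i v := by
  intro Φ
  have e : (fun i => u i fun j => Φ (x j)) = fun i => Φ (u i x) := funext fun i => hu i Φ
  change f (fun i => u i fun j => Φ (x j)) = Φ (f fun i => u i x)
  rw [e, hf.map h]

/-- renaming of letters -/
theorem IsNat.ren (h : RelFree F B x) {f : (ℕ → B) → B} (hf : IsNat F x f) (σ : ℕ → ℕ) :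
    IsNat F x fun v => f fun i => v (σ i) :=
  hf.comp h fun i => IsNat.proj (σ i)

/-- substitution in one letter -/
theorem IsNat.upd (h : RelFree F B x) {f u : (ℕ → B) → B} (hf : IsNat F x f)
    (hu : IsNat F x u) (i : ℕ) : IsNat F x fun v => f (update v i (u v)) := by
  have h1 : IsNat F x fun v => f fun j => if j = i then u v else v j := by
    refine hf.comp h (u := fun j v => if j = i then u v else v j) fun j => ?_
    by_cases hj : j = i
    · simpa [hj] using hu
    · simpa [hj] using IsNat.proj j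
  have e : (fun v => f (update v i (u v))) = fun v => f fun j => if j = i then u v else v j := by
    funext v
    congr 1
    funext j
    by_cases hj : j = i
    · subst hj; simp
    · simp [hj]
  rw [e]
  exact h1

/-- a natural function which vanishes at the generators vanishes -/
theorem IsNat.eq_zero (h : RelFree F B x) {f : (ℕ → B) → B} (hf : IsNat F x f) (h0 : f x = 0)
    (v : ℕ → B) : f v = 0 := by
  obtain ⟨Ψ, hΨ⟩ := h.ext v
  have e2 : v = fun i => Ψ (x i) := funext fun i => (hΨ i).symm
  rw [e2, hf, h0, map_zero]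

/-- natural functions which agree at the generators agree -/
theorem IsNat.ext (h : RelFree F B x) {f g : (ℕ → B) → B} (hf : IsNat F x f)
    (hg : IsNat F x g) (h0 : f x = g x) (v : ℕ → B) : f v = g v :=
  sub_eq_zero.mp ((hf.sub hg).eq_zero h (by rw [h0, sub_self]) v)

/-- a natural function depends on finitely many letters -/
theorem IsNat.fin (h : RelFree F B x) {f : (ℕ → B) → B} (hf : IsNat F x f) :
    ∃ n : ℕ, ∀ v w : ℕ → B, (∀ i < n, v i = w i) → f v = f w := by
  obtain ⟨n, hn⟩ := h.fin (f x)
  refine ⟨n, fun v w hvw => ?_⟩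
  obtain ⟨Φ, hΦ⟩ := h.ext v
  obtain ⟨Ψ, hΨ⟩ := h.ext w
  have e1 : v = fun i => Φ (x i) := funext fun i => (hΦ i).symm
  have e2 : w = fun i => Ψ (x i) := funext fun i => (hΨ i).symm
  rw [e1, e2, hf, hf]
  exact hn Φ Ψ fun i hi => by rw [hΦ, hΨ, hvw i hi]

/-- every element is the value of a natural function at the generators -/
theorem exists_nat (h : RelFree F B x) (b : B) : ∃ f : (ℕ → B) → B, IsNat F x f ∧ f x = b := by
  choose Ψ hΨ using fun v : ℕ → B => h.ext v
  have key : ∀ Φ Θ : B →ₙₐ[F] B, (∀ i, Φ (x i) = Θ (x i)) → ∀ b, Φ b = Θ b := by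
    intro Φ Θ hh b
    obtain ⟨n, hn⟩ := h.fin b
    exact hn Φ Θ fun i _ => hh i
  refine ⟨fun v => Ψ v b, fun Φ => ?_, ?_⟩
  · have h1 : Ψ x b = b := by
      have := key (Ψ x) (NonUnitalAlgHom.id F B) (fun i => by rw [hΨ]; rfl) b
      rw [this]
      rfl
    change Ψ (fun i => Φ (x i)) b = Φ (Ψ x b)
    rw [h1]
    exact key _ _ (fun i => by rw [hΨ]) b
  · have := key (Ψ x) (NonUnitalAlgHom.id F B) (fun i => by rw [hΨ]; rfl) b
    change Ψ x b = b
    rw [this]
    rfl

/-- span of the values of natural functions with property `p` -/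
theorem fullyInv_span (h : RelFree F B x) (p : ((ℕ → B) → B) → Prop)
    (hp : ∀ f, p f → IsNat F x f) :
    FullyInv F B (Submodule.span F {b | ∃ f v, p f ∧ f v = b}) := by
  intro Φ a ha
  induction ha using Submodule.span_induction with
  | mem a ha =>
    obtain ⟨f, v, hf, rfl⟩ := ha
    rw [← (hp f hf).map h]
    exact Submodule.subset_span ⟨f, _, hf, rfl⟩
  | zero => rw [map_zero]; exact Submodule.zero_mem _
  | add a b _ _ ha hb => rw [map_add]; exact Submodule.add_mem _ ha hb
  | smul c a _ ha => rw [map_smul]; exact Submodule.smul_mem _ c ha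

/-- LEMMA Q for natural functions, all arguments in `I` -/
theorem IsNat.lemQ {S : Set (MonoidAlgebra F (FreeMagma ℕ))} (h : MaxAlg F S B x)
    {f : (ℕ → B) → B} (hf : IsNat F x f) (I : Submodule F B) (hI : TIdeal F B I) (hI0 : I ≠ ⊥)
    (h0 : ∀ v : ℕ → B, (∀ i, v i ∈ I) → f v = 0) (v : ℕ → B) : f v = 0 := by
  refine hf.eq_zero h.rel (h.lemQI I hI hI0 _ fun Φ hΦ => ?_) v
  rw [← hf]
  exact h0 _ hΦ

/-- LEMMA Q for natural functions, arguments in a subalgebra with the values of a derived word -/
theorem IsNat.lemQ' {S : Set (MonoidAlgebra F (FreeMagma ℕ))} (h : MaxAlg F S B x)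
    {f : (ℕ → B) → B} (hf : IsNat F x f) (I : Submodule F B)
    (hI : ∀ a ∈ I, ∀ b ∈ I, a * b ∈ I) (n : ℕ)
    (hn : ∀ φ : ℕ → B, FreeMagma.lift φ (H67.dd n 0) ∈ I)
    (h0 : ∀ v : ℕ → B, (∀ i, v i ∈ I) → f v = 0) (v : ℕ → B) : f v = 0 := by
  refine hf.eq_zero h.rel (h.lemQ I hI n hn _ fun Φ hΦ => ?_) v
  rw [← hf]
  exact h0 _ hΦ

namespace MD

variable {k : ℕ} {f : (ℕ → B) → B}

theorem zero' (h : MD F k f) {i : ℕ} (hi : i < k) (v : ℕ → B) (h0 : v i = 0) : f v = 0 := by
  have h1 := h.add i hi v 0 0
  rw [add_zero] at h1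
  have h2 : update v i 0 = v := by rw [← h0, update_eq_self]
  rw [h2] at h1
  exact left_eq_add.mp h1

theorem neg (h : MD F k f) {i : ℕ} (hi : i < k) (v : ℕ → B) (a : B) :
    f (update v i (-a)) = - f (update v i a) := by
  have h1 := h.add i hi v a (-a)
  rw [add_neg_cancel, h.zero' hi _ (update_self i 0 v)] at h1
  exact (neg_eq_of_add_eq_zero_right h1.symm).symm

theorem sub (h : MD F k f) {i : ℕ} (hi : i < k) (v : ℕ → B) (a b : B) :
    f (update v i (a - b)) = f (update v i a) - f (update v i b) := by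
  rw [sub_eq_add_neg, h.add i hi, h.neg hi, sub_eq_add_neg]

/-- antisymmetry -/
theorem swap (h : MD F k f) {i j : ℕ} (hi : i < k) (hj : j < k) (hij : i ≠ j) (v : ℕ → B)
    (a b : B) : f (update (update v i a) j b) = - f (update (update v i b) j a) := by
  have h1 := h.alt i hi j hj hij (update (update v i (a + b)) j (a + b)) (by
    rw [update_of_ne hij, update_self, update_self])
  have c1 : ∀ a b : B, update (update v i a) j b = update (update v j b) i a := fun a b =>
    update_comm hij a b v
  rw [h.add j hj, c1, c1, h.add i hi, h.add i hi, ← c1, ← c1, ← c1, ← c1,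
    h.alt i hi j hj hij (update (update v i a) j a) (by
      rw [update_of_ne hij, update_self, update_self]),
    h.alt i hi j hj hij (update (update v i b) j b) (by
      rw [update_of_ne hij, update_self, update_self]), zero_add, add_zero] at h1
  rw [eq_neg_iff_add_eq_zero, add_comm]
  exact h1

theorem mono (h : MD F k f) {l : ℕ} (hl : l ≤ k) : MD F l f where
  add i hi := h.add i (hi.trans_le hl)
  smul i hi := h.smul i (hi.trans_le hl)
  der i hi := h.der i (hi.trans_le hl)
  alt i hi j hj := h.alt i (hi.trans_le hl) j (hj.trans_le hl)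

end MD

/-- swap of two letters of an assignment -/
def sw (i j : ℕ) (v : ℕ → B) : ℕ → B := fun l => v (Equiv.swap i j l)

theorem sw_sw (i j : ℕ) (v : ℕ → B) : sw i j (sw i j v) = v := by
  funext l
  simp [sw]

/-- antisymmetry under adjacent swaps gives the alternating property -/
theorem alt_of_adj (h2 : ∀ b : B, b + b = 0 → b = 0) {k : ℕ} {f : (ℕ → B) → B}
    (h : ∀ i, i + 1 < k → ∀ v : ℕ → B, f (sw i (i + 1) v) = - f v) :
    ∀ i < k, ∀ j < k, i ≠ j → ∀ v : ℕ → B, v i = v j → f v = 0 := by
  have key : ∀ d i : ℕ, i + d + 1 < k → ∀ v : ℕ → B, v i = v (i + d + 1) → f v = 0 := by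
    intro d
    induction d with
    | zero =>
      intro i hi v hv
      apply h2
      have h1 := h i (by omega) v
      have e : sw i (i + 1) v = v := by
        funext l
        unfold sw
        by_cases h1 : l = i
        · subst h1; simpa using hv.symm
        · by_cases h2 : l = i + 1
          · subst h2; simpa using hv
          · rw [Equiv.swap_apply_of_ne_of_ne h1 h2]
      rw [e] at h1
      nth_rw 1 [h1]
      exact neg_add_cancel _
    | succ d ih =>
      intro i hi v hv
      have h1 := h (i + d + 1) (by omega) v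
      have h3 := ih i (by omega) (sw (i + d + 1) (i + d + 1 + 1) v) (by
        unfold sw
        rw [Equiv.swap_apply_of_ne_of_ne (by omega) (by omega), Equiv.swap_apply_left, hv]
        congr 1)
      rw [h3] at h1
      exact neg_eq_zero.mp h1.symm
  intro i hi j hj hij v hv
  rcases lt_or_gt_of_ne hij with h1 | h1
  · obtain ⟨d, rfl⟩ : ∃ d, j = i + d + 1 := ⟨j - i - 1, by omega⟩
    exact key d i hj v hv
  · obtain ⟨d, rfl⟩ : ∃ d, i = j + d + 1 := ⟨i - j - 1, by omega⟩
    exact key d j hi v hv.symm

end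

end Pool.Agent.TP.NF
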